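import Pool.Agent.LibGL89.Defs

/-!
Row A1 (SHORT). Number of words with few nonzero letters.

`S` contains `0`.  Weights: `∑_{c ∈ piFinset S} ∏_i (if c i = 0 then 1 else lam) = (∑_{x ∈ S} if x = 0 then 1 else lam)^M`
(`Finset.prod_univ_sum` / `Fintype.piFinset` and `Finset.prod_const`) `= (1 + lam (#S - 1))^M ≤ (1 + lam #S)^M`; a word with at most `q`
nonzero letters has weight `lam ^ (number) ≥ lam ^ q` (`pow_le_pow_of_le_one`).
-/

set_option autoImplicit false

namespace GL89

open Finset

theorem words_card (M : ℕ) (S : Finset ℤ) (hS : (0 : ℤ) ∈ S) (lam : ℝ) (h0 : 0 < lam) (h1 : lam ≤ 1) (q : ℕ) :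
    (((Fintype.piFinset (fun _ : Fin M => S)).filter
      (fun c => (univ.filter (fun i => c i ≠ 0)).card ≤ q)).card : ℝ) ≤
      (1 / lam) ^ q * (1 + lam * S.card) ^ M := by
  classical
  set w : ℤ → ℝ := fun x => if x = 0 then 1 else lam with hw
  have hwpos : ∀ x, 0 ≤ w x := by
    intro x
    simp only [hw]
    split_ifs <;> linarith
  -- the total weight
  have htot : ∑ c ∈ Fintype.piFinset (fun _ : Fin M => S), ∏ i, w (c i) = (∑ x ∈ S, w x) ^ M := by
    have := Finset.prod_univ_sum (t := fun _ : Fin M => S) (f := fun _ x => w x)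
    rw [← this, Finset.prod_const, Finset.card_univ, Fintype.card_fin]
  have hsum : ∑ x ∈ S, w x ≤ 1 + lam * S.card := by
    rw [← Finset.add_sum_erase S w hS]
    have h2 : ∑ x ∈ S.erase 0, w x = lam * (S.erase 0).card := by
      rw [Finset.sum_congr rfl (fun x hx => by
        show w x = lam
        simp only [hw]
        rw [if_neg (Finset.ne_of_mem_erase hx)])]
      rw [Finset.sum_const, nsmul_eq_mul, mul_comm]
    have h3 : w 0 = 1 := by simp [hw]
    rw [h2, h3]
    have h4 : ((S.erase 0).card : ℝ) ≤ S.card := by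
      exact_mod_cast Finset.card_le_card (Finset.erase_subset 0 S)
    have := mul_le_mul_of_nonneg_left h4 h0.le
    linarith
  have hsum0 : 0 ≤ ∑ x ∈ S, w x := Finset.sum_nonneg fun x _ => hwpos x
  -- weight of a word
  have hword : ∀ c : Fin M → ℤ, ∏ i, w (c i) = lam ^ (univ.filter (fun i => c i ≠ 0)).card := by
    intro c
    rw [← Finset.prod_filter_mul_prod_filter_not univ (fun i => c i ≠ 0)]
    have e1 : ∏ i ∈ univ.filter (fun i => c i ≠ 0), w (c i) = lam ^ (univ.filter (fun i => c i ≠ 0)).card := by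
      rw [← Finset.prod_const]
      refine Finset.prod_congr rfl fun i hi => ?_
      simp only [hw]
      rw [if_neg (Finset.mem_filter.1 hi).2]
    have e2 : ∏ i ∈ univ.filter (fun i => ¬ c i ≠ 0), w (c i) = 1 := by
      refine Finset.prod_eq_one fun i hi => ?_
      simp only [hw]
      rw [if_pos (not_not.1 (Finset.mem_filter.1 hi).2)]
    rw [e1, e2, mul_one]
  set F := (Fintype.piFinset (fun _ : Fin M => S)).filter
      (fun c => (univ.filter (fun i => c i ≠ 0)).card ≤ q) with hF
  have hlow : (F.card : ℝ) * lam ^ q ≤ ∑ c ∈ Fintype.piFinset (fun _ : Fin M => S), ∏ i, w (c i) := by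
    calc (F.card : ℝ) * lam ^ q = ∑ c ∈ F, lam ^ q := by rw [Finset.sum_const, nsmul_eq_mul]
      _ ≤ ∑ c ∈ F, ∏ i, w (c i) := by
          refine Finset.sum_le_sum fun c hc => ?_
          rw [hword c]
          exact pow_le_pow_of_le_one h0.le h1 (Finset.mem_filter.1 hc).2
      _ ≤ ∑ c ∈ Fintype.piFinset (fun _ : Fin M => S), ∏ i, w (c i) := by
          refine Finset.sum_le_sum_of_subset_of_nonneg (Finset.filter_subset _ _) ?_
          intro c _ _
          exact Finset.prod_nonneg fun i _ => hwpos _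
  have hup : (F.card : ℝ) * lam ^ q ≤ (1 + lam * S.card) ^ M := by
    refine hlow.trans ?_
    rw [htot]
    exact pow_le_pow_left₀ hsum0 hsum M
  have hl : 0 < lam ^ q := pow_pos h0 q
  rw [one_div, inv_pow, ← div_eq_inv_mul, le_div_iff₀ hl]
  exact hup

end GL89
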