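import Pool.Agent.LibGL89.A1

/-!
Row A2 (MEDIUM). Coding of a real number by its nearest integers.

For `t ∈ T` let `r_j = round (β^j y_t)`, `e_j = β^j y_t - r_j`, `|e_j| = nd (β^j y_t) ≤ 1/2`, `c_j = r_(j+1) - β r_j = β e_j - e_(j+1)`, an integer,
`|c_j| ≤ (β+1)/2`, so `c_j ∈ S := Icc (-((β+1)/2)) ((β+1)/2)` (integer division, `#S ≤ β + 2`), and `c_j = 0` if `nd (β^j y_t) < 1/(2β)`
(then `β^j y_t * β` is at distance `< 1/2` of the integer `β r_j`, so `round = β r_j`).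
The map `t ↦ (r_0, (c_j)_{j<M}, ...)`: `r_M` is a function of `r_0` and the word `c`; so
`T = ⋃_{r_0 ∈ [0,R0], c} {t : r_M(t) = value}` and `#T ≤ (R0+1) * #words * R1` (`card_le_mul_card_image` twice, or
`Finset.card_le_mul_card_image` for the map `t ↦ (r_0, c)` whose fibres lie in `{t : round (β^M y_t) = r}` for one `r`); words: `words_card`.
`round y ∈ [0, R0]` for `0 ≤ y ≤ R0`.
-/

set_option autoImplicit false

namespace GL89

open Finset Pool.Agent.LibHG31

private theorem abs_int_le {c : ℤ} {β : ℕ} (h : |(c : ℝ)| ≤ ((β : ℝ) + 1) / 2) :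
    c ∈ Icc (-(((β : ℤ) + 1) / 2)) (((β : ℤ) + 1) / 2) := by
  have h1 : 2 * |c| ≤ (β : ℤ) + 1 := by
    have h2 : 2 * |(c : ℝ)| ≤ (β : ℝ) + 1 := by linarith
    have h3 : ((2 * |c| : ℤ) : ℝ) ≤ (((β : ℤ) + 1 : ℤ) : ℝ) := by
      push_cast
      exact h2
    exact_mod_cast h3
  have h4 := abs_le.1 (show |c| ≤ ((β : ℤ) + 1) / 2 by omega)
  rw [mem_Icc]
  exact h4

private theorem code_c (β : ℕ) (z : ℝ) (j : ℕ) :
    ((round ((β : ℝ) ^ (j + 1) * z) - β * round ((β : ℝ) ^ j * z) : ℤ) : ℝ) =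
      β * ((β : ℝ) ^ j * z - round ((β : ℝ) ^ j * z)) -
        ((β : ℝ) ^ (j + 1) * z - round ((β : ℝ) ^ (j + 1) * z)) := by
  push_cast
  ring

private theorem code_c_mem (β : ℕ) (z : ℝ) (j : ℕ) :
    (round ((β : ℝ) ^ (j + 1) * z) - β * round ((β : ℝ) ^ j * z)) ∈
      Icc (-(((β : ℤ) + 1) / 2)) (((β : ℤ) + 1) / 2) := by
  apply abs_int_le
  rw [code_c]
  have h1 := abs_sub_round ((β : ℝ) ^ j * z)
  have h2 := abs_sub_round ((β : ℝ) ^ (j + 1) * z)
  have hb : (0 : ℝ) ≤ β := Nat.cast_nonneg β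
  calc |(β : ℝ) * ((β : ℝ) ^ j * z - round ((β : ℝ) ^ j * z)) -
        ((β : ℝ) ^ (j + 1) * z - round ((β : ℝ) ^ (j + 1) * z))|
      ≤ |(β : ℝ) * ((β : ℝ) ^ j * z - round ((β : ℝ) ^ j * z))| +
        |(β : ℝ) ^ (j + 1) * z - round ((β : ℝ) ^ (j + 1) * z)| := abs_sub _ _
    _ = β * |(β : ℝ) ^ j * z - round ((β : ℝ) ^ j * z)| +
        |(β : ℝ) ^ (j + 1) * z - round ((β : ℝ) ^ (j + 1) * z)| := by
          rw [abs_mul, abs_of_nonneg hb]
    _ ≤ β * (1 / 2) + 1 / 2 := by gcongr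
    _ = ((β : ℝ) + 1) / 2 := by ring

private theorem code_c_zero (β : ℕ) (hβ : 2 ≤ β) (z : ℝ) (j : ℕ)
    (h : nd ((β : ℝ) ^ j * z) < 1 / (2 * (β : ℝ))) :
    round ((β : ℝ) ^ (j + 1) * z) - β * round ((β : ℝ) ^ j * z) = 0 := by
  have hb : (0 : ℝ) < β := by exact_mod_cast (by omega : 0 < β)
  have h1 : |((round ((β : ℝ) ^ (j + 1) * z) - β * round ((β : ℝ) ^ j * z) : ℤ) : ℝ)| < 1 := by
    rw [code_c]
    have h2 := abs_sub_round ((β : ℝ) ^ (j + 1) * z)
    have h3 : β * |(β : ℝ) ^ j * z - round ((β : ℝ) ^ j * z)| < 1 / 2 := by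
      have h4 : |(β : ℝ) ^ j * z - round ((β : ℝ) ^ j * z)| < 1 / (2 * (β : ℝ)) := h
      calc β * |(β : ℝ) ^ j * z - round ((β : ℝ) ^ j * z)| < β * (1 / (2 * (β : ℝ))) := by
            gcongr
        _ = 1 / 2 := by field_simp
    calc |(β : ℝ) * ((β : ℝ) ^ j * z - round ((β : ℝ) ^ j * z)) -
          ((β : ℝ) ^ (j + 1) * z - round ((β : ℝ) ^ (j + 1) * z))|
        ≤ |(β : ℝ) * ((β : ℝ) ^ j * z - round ((β : ℝ) ^ j * z))| +
          |(β : ℝ) ^ (j + 1) * z - round ((β : ℝ) ^ (j + 1) * z)| := abs_sub _ _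
      _ = β * |(β : ℝ) ^ j * z - round ((β : ℝ) ^ j * z)| +
          |(β : ℝ) ^ (j + 1) * z - round ((β : ℝ) ^ (j + 1) * z)| := by
            rw [abs_mul, abs_of_nonneg hb.le]
      _ < 1 / 2 + 1 / 2 := by linarith
      _ = 1 := by norm_num
  rw [← Int.cast_abs] at h1
  have h5 : |round ((β : ℝ) ^ (j + 1) * z) - β * round ((β : ℝ) ^ j * z)| < 1 := by
    exact_mod_cast h1
  exact Int.abs_lt_one_iff.1 h5

theorem code_card (β : ℕ) (hβ : 2 ≤ β) (M R0 R1 q : ℕ) (T : Finset ℕ) (y : ℕ → ℝ)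
    (h0 : ∀ t ∈ T, 0 ≤ y t ∧ y t ≤ R0)
    (hq : ∀ t ∈ T, ((range M).filter (fun j => 1 / (2 * (β : ℝ)) ≤ nd ((β : ℝ) ^ j * y t))).card ≤ q)
    (h1 : ∀ r : ℤ, (T.filter (fun t => round ((β : ℝ) ^ M * y t) = r)).card ≤ R1)
    (lam : ℝ) (hl0 : 0 < lam) (hl1 : lam ≤ 1) :
    (T.card : ℝ) ≤ ((R0 : ℝ) + 1) * R1 * ((1 / lam) ^ q * (1 + lam * (β + 2)) ^ M) := by
  classical
  obtain ⟨S, hS⟩ : ∃ S : Finset ℤ, S = Icc (-(((β : ℤ) + 1) / 2)) (((β : ℤ) + 1) / 2) := ⟨_, rfl⟩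
  obtain ⟨r, hr⟩ : ∃ r : ℕ → ℕ → ℤ, r = fun t j => round ((β : ℝ) ^ j * y t) := ⟨_, rfl⟩
  have hrt : ∀ t j, r t j = round ((β : ℝ) ^ j * y t) := fun t j => by rw [hr]
  obtain ⟨W, hW⟩ : ∃ W : Finset (Fin M → ℤ), W = (Fintype.piFinset (fun _ : Fin M => S)).filter
      (fun c => (univ.filter (fun i => c i ≠ 0)).card ≤ q) := ⟨_, rfl⟩
  let f : ℕ → ℤ × (Fin M → ℤ) := fun t => (r t 0, fun i => r t (i + 1) - β * r t i)
  have hmaps : ∀ t ∈ T, f t ∈ (Icc (0 : ℤ) R0) ×ˢ W := by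
    intro t ht
    rw [mem_product]
    constructor
    · change r t 0 ∈ _
      rw [hrt, pow_zero, one_mul, mem_Icc]
      obtain ⟨ha, hb⟩ := h0 t ht
      constructor
      · rw [round_eq]
        exact Int.floor_nonneg.2 (by linarith)
      · rw [round_eq, ← Int.lt_add_one_iff, Int.floor_lt]
        push_cast
        linarith
    · rw [hW, mem_filter]
      constructor
      · rw [Fintype.mem_piFinset]
        intro i
        change r t (i + 1) - β * r t i ∈ S
        rw [hrt, hrt, hS]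
        exact code_c_mem β (y t) i
      · refine le_trans ?_ (hq t ht)
        have h2 : (univ.filter (fun i : Fin M => (f t).2 i ≠ 0)).card =
            ((univ.filter (fun i : Fin M => (f t).2 i ≠ 0)).image (fun i : Fin M => (i : ℕ))).card := by
          rw [card_image_of_injective _ Fin.val_injective]
        rw [h2]
        apply card_le_card
        intro j hj
        rw [mem_image] at hj
        obtain ⟨i, hi, rfl⟩ := hj
        rw [mem_filter] at hi ⊢
        refine ⟨mem_range.2 i.2, ?_⟩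
        by_contra hlt
        rw [not_le] at hlt
        apply hi.2
        change r t (i + 1) - β * r t i = 0
        rw [hrt, hrt]
        exact code_c_zero β hβ (y t) i hlt
  have hfib : ∀ b ∈ (Icc (0 : ℤ) R0) ×ˢ W, (T.filter (fun t => f t = b)).card ≤ R1 := by
    intro b _
    rcases (T.filter (fun t => f t = b)).eq_empty_or_nonempty with he | ⟨t0, ht0⟩
    · rw [he, card_empty]
      exact Nat.zero_le _
    · refine le_trans (card_le_card ?_) (h1 (r t0 M))
      intro t ht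
      rw [mem_filter] at ht ht0 ⊢
      refine ⟨ht.1, ?_⟩
      rw [← hrt]
      have hff : f t = f t0 := by rw [ht.2, ht0.2]
      have ha : r t 0 = r t0 0 := congrArg Prod.fst hff
      have hb : ∀ i : Fin M, r t (i + 1) - β * r t i = r t0 (i + 1) - β * r t0 i :=
        fun i => congrFun (congrArg Prod.snd hff) i
      have hind : ∀ j, j ≤ M → r t j = r t0 j := by
        intro j
        induction j with
        | zero => intro _; exact ha
        | succ j ih =>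
          intro hj
          have h3 := hb ⟨j, by omega⟩
          have h4 := ih (by omega)
          change r t (j + 1) - β * r t j = r t0 (j + 1) - β * r t0 j at h3
          rw [h4] at h3
          linarith
      exact hind M le_rfl
  have hcard := card_le_mul_card_image_of_maps_to hmaps R1 hfib
  rw [card_product] at hcard
  have hI : (Icc (0 : ℤ) R0).card = R0 + 1 := by
    rw [Int.card_Icc]
    omega
  rw [hI] at hcard
  have hS0 : (0 : ℤ) ∈ S := by
    rw [hS, mem_Icc]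
    constructor <;> omega
  have hScard : (S.card : ℝ) ≤ (β : ℝ) + 2 := by
    have h2 : S.card ≤ β + 2 := by
      rw [hS, Int.card_Icc]
      omega
    exact_mod_cast h2
  have hWc : (W.card : ℝ) ≤ (1 / lam) ^ q * (1 + lam * (β + 2)) ^ M := by
    rw [hW]
    refine (words_card M S hS0 lam hl0 hl1 q).trans ?_
    have h2 : 0 ≤ (1 / lam) ^ q := by positivity
    refine mul_le_mul_of_nonneg_left ?_ h2
    apply pow_le_pow_left₀
    · positivity
    · have := mul_le_mul_of_nonneg_left hScard hl0.le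
      linarith
  calc (T.card : ℝ) ≤ ((R1 * ((R0 + 1) * W.card) : ℕ) : ℝ) := by exact_mod_cast hcard
    _ = ((R0 : ℝ) + 1) * R1 * W.card := by push_cast; ring
    _ ≤ ((R0 : ℝ) + 1) * R1 * ((1 / lam) ^ q * (1 + lam * (β + 2)) ^ M) :=
      mul_le_mul_of_nonneg_left hWc (by positivity)

end GL89
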