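import Pool.Agent.LibGL89.Defs

/-!
Row A3 (SHORT/MEDIUM). A large value of the power sum: few bad indices.

`β = b^2`, `x_j = b^(2(a+j)) α`, `z_j = ee (x_j)`, `G = ∑_{j<M} z_j`.  Let `u` be a complex number of norm 1 with `conj u * G = ‖G‖`
(`u = G/‖G‖`, or `u = 1` if `G = 0`).  `∑_j ‖z_j - u‖² = ∑_j (2 - 2 Re (conj u z_j)) = 2M - 2‖G‖ ≤ 2ηM`.
`‖z_(j+1) - z_j‖² ≤ 2‖z_(j+1) - u‖² + 2‖z_j - u‖²`, so `∑_{j<M-1} ‖z_(j+1) - z_j‖² ≤ 8ηM`.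
`‖z_(j+1) - z_j‖ = ‖ee (x_(j+1) - x_j) - 1‖` and `x_(j+1) - x_j = β^j ((β-1) b^(2a) α)`, `four_nd_le`: `≥ 4 nd (..)`.
So `#bad * (4/(2β))^2 ≤ 8ηM`, `#bad ≤ 2 β² η M`.
-/

set_option autoImplicit false

namespace GL89

open Finset Pool.Agent.LibHG31

private theorem A3_unit (G : ℂ) : ∃ u : ℂ, ‖u‖ = 1 ∧ (G * (starRingEnd ℂ) u).re = ‖G‖ := by
  by_cases hG : G = 0
  · exact ⟨1, by simp, by simp [hG]⟩
  · have hn : (‖G‖ : ℂ) ≠ 0 := by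
      rw [Complex.ofReal_ne_zero]
      exact norm_ne_zero_iff.2 hG
    refine ⟨G / (‖G‖ : ℂ), ?_, ?_⟩
    · rw [norm_div, Complex.norm_real, norm_norm, div_self (norm_ne_zero_iff.2 hG)]
    · rw [map_div₀, Complex.conj_ofReal, mul_div_assoc', Complex.mul_conj, Complex.normSq_eq_norm_sq]
      have h1 : (((‖G‖ ^ 2 : ℝ) : ℂ) / (‖G‖ : ℂ)) = (‖G‖ : ℂ) := by
        rw [div_eq_iff hn]
        push_cast
        ring
      rw [h1, Complex.ofReal_re]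

private theorem A3_sq (z u : ℂ) (hz : ‖z‖ = 1) (hu : ‖u‖ = 1) :
    ‖z - u‖ ^ 2 = 2 - 2 * (z * (starRingEnd ℂ) u).re := by
  rw [← Complex.normSq_eq_norm_sq, Complex.normSq_sub, Complex.normSq_eq_norm_sq,
    Complex.normSq_eq_norm_sq, hz, hu]
  ring

private theorem A3_tri (z w u : ℂ) : ‖z - w‖ ^ 2 ≤ 2 * ‖z - u‖ ^ 2 + 2 * ‖w - u‖ ^ 2 := by
  have h1 : ‖z - w‖ ≤ ‖z - u‖ + ‖w - u‖ := by
    have h2 : z - w = (z - u) - (w - u) := by ring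
    rw [h2]
    exact norm_sub_le _ _
  have h3 : ‖z - w‖ ^ 2 ≤ (‖z - u‖ + ‖w - u‖) ^ 2 := pow_le_pow_left₀ (norm_nonneg _) h1 2
  nlinarith [sq_nonneg (‖z - u‖ - ‖w - u‖)]

theorem bad_card (b : ℕ) (hb : 2 ≤ b) (a M : ℕ) (η α : ℝ) (hη : 0 ≤ η)
    (h : (1 - η) * (M : ℝ) ≤ ‖GG1 b a M α‖) :
    (((range (M - 1)).filter (fun j => 1 / (2 * ((b ^ 2 : ℕ) : ℝ)) ≤
      nd (((b ^ 2 : ℕ) : ℝ) ^ j * (((b : ℝ) ^ 2 - 1) * (b : ℝ) ^ (2 * a) * α)))).card : ℝ) ≤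
      2 * (b : ℝ) ^ 4 * η * M := by
  obtain ⟨z, hz⟩ : ∃ z : ℕ → ℂ, z = fun j => ee ((b : ℝ) ^ vv a j * α) := ⟨_, rfl⟩
  have hG : GG1 b a M α = ∑ j ∈ range M, z j := by
    rw [hz]
    rfl
  obtain ⟨u, hu, hGu⟩ := A3_unit (GG1 b a M α)
  have hzn : ∀ j, ‖z j‖ = 1 := by
    intro j
    rw [hz]
    exact norm_ee _
  have hsum : ∑ j ∈ range M, ‖z j - u‖ ^ 2 ≤ 2 * η * M := by
    have h1 : ∑ j ∈ range M, ‖z j - u‖ ^ 2 = 2 * (M : ℝ) - 2 * ‖GG1 b a M α‖ := by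
      rw [← hGu, hG, sum_mul, Complex.re_sum, mul_sum]
      rw [sum_congr rfl fun j _ => A3_sq (z j) u (hzn j) hu, sum_sub_distrib, sum_const, card_range,
        nsmul_eq_mul]
      ring
    rw [h1]
    linarith
  have hnn : ∀ j, 0 ≤ ‖z j - u‖ ^ 2 := fun j => by positivity
  have hs1 : ∑ j ∈ range (M - 1), ‖z j - u‖ ^ 2 ≤ 2 * η * M :=
    (sum_le_sum_of_subset_of_nonneg (range_mono (Nat.sub_le _ _)) fun j _ _ => hnn j).trans hsum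
  have hs2 : ∑ j ∈ range (M - 1), ‖z (j + 1) - u‖ ^ 2 ≤ 2 * η * M := by
    refine le_trans ?_ hsum
    rcases Nat.eq_zero_or_pos M with hM | hM
    · subst hM
      simp
    · obtain ⟨N, rfl⟩ : ∃ N, M = N + 1 := ⟨M - 1, by omega⟩
      rw [Nat.add_sub_cancel, sum_range_succ' (fun j => ‖z j - u‖ ^ 2) N]
      have := hnn 0
      linarith
  have hs : ∑ j ∈ range (M - 1), ‖z (j + 1) - z j‖ ^ 2 ≤ 8 * η * M := by
    calc ∑ j ∈ range (M - 1), ‖z (j + 1) - z j‖ ^ 2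
        ≤ ∑ j ∈ range (M - 1), (2 * ‖z (j + 1) - u‖ ^ 2 + 2 * ‖z j - u‖ ^ 2) :=
          sum_le_sum fun j _ => A3_tri _ _ _
      _ = 2 * ∑ j ∈ range (M - 1), ‖z (j + 1) - u‖ ^ 2 +
            2 * ∑ j ∈ range (M - 1), ‖z j - u‖ ^ 2 := by
          rw [sum_add_distrib, mul_sum, mul_sum]
      _ ≤ 8 * η * M := by linarith
  have hb0 : (0 : ℝ) < b := by
    have : 0 < b := by omega
    exact_mod_cast this
  have hdiff : ∀ j, ‖z (j + 1) - z j‖ =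
      ‖ee (((b ^ 2 : ℕ) : ℝ) ^ j * (((b : ℝ) ^ 2 - 1) * (b : ℝ) ^ (2 * a) * α)) - 1‖ := by
    intro j
    rw [hz]
    simp only
    have h1 : (b : ℝ) ^ vv a (j + 1) * α = (b : ℝ) ^ vv a j * α +
        ((b ^ 2 : ℕ) : ℝ) ^ j * (((b : ℝ) ^ 2 - 1) * (b : ℝ) ^ (2 * a) * α) := by
      unfold vv
      push_cast
      rw [show 2 * (a + (j + 1)) = 2 * a + 2 * j + 2 by ring, show 2 * (a + j) = 2 * a + 2 * j by ring,
        pow_add, pow_add, pow_mul (b : ℝ) 2 j]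
      ring
    rw [h1, ee_add]
    have h2 : ∀ x y : ℂ, x * y - x = x * (y - 1) := fun x y => by ring
    rw [h2, norm_mul, norm_ee, one_mul]
  have hbad : ∀ j ∈ (range (M - 1)).filter (fun j => 1 / (2 * ((b ^ 2 : ℕ) : ℝ)) ≤
      nd (((b ^ 2 : ℕ) : ℝ) ^ j * (((b : ℝ) ^ 2 - 1) * (b : ℝ) ^ (2 * a) * α))),
      4 / (b : ℝ) ^ 4 ≤ ‖z (j + 1) - z j‖ ^ 2 := by
    intro j hj
    have h1 := (mem_filter.1 hj).2
    have h2 := four_nd_le (((b ^ 2 : ℕ) : ℝ) ^ j * (((b : ℝ) ^ 2 - 1) * (b : ℝ) ^ (2 * a) * α))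
    rw [← hdiff] at h2
    have h3 : 2 / (b : ℝ) ^ 2 ≤ ‖z (j + 1) - z j‖ := by
      refine le_trans ?_ h2
      have h4 : 2 / (b : ℝ) ^ 2 = 4 * (1 / (2 * ((b ^ 2 : ℕ) : ℝ))) := by
        push_cast
        field_simp
        norm_num
      rw [h4]
      exact mul_le_mul_of_nonneg_left h1 (by norm_num)
    have h5 : 4 / (b : ℝ) ^ 4 = (2 / (b : ℝ) ^ 2) ^ 2 := by
      rw [div_pow, ← pow_mul]
      norm_num
    rw [h5]
    exact pow_le_pow_left₀ (by positivity) h3 2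
  have hcard := card_nsmul_le_sum _ _ _ hbad
  rw [nsmul_eq_mul] at hcard
  have hle : ∑ j ∈ (range (M - 1)).filter (fun j => 1 / (2 * ((b ^ 2 : ℕ) : ℝ)) ≤
      nd (((b ^ 2 : ℕ) : ℝ) ^ j * (((b : ℝ) ^ 2 - 1) * (b : ℝ) ^ (2 * a) * α))),
      ‖z (j + 1) - z j‖ ^ 2 ≤ 8 * η * M :=
    (sum_le_sum_of_subset_of_nonneg (filter_subset _ _) fun j _ _ => by positivity).trans hs
  have h6 := hcard.trans hle
  have h7 : (0 : ℝ) < (b : ℝ) ^ 4 := by positivity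
  rw [mul_div_assoc', div_le_iff₀ h7] at h6
  linarith

end GL89
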