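import Pool.Agent.LibGL89.A2
import Pool.Agent.LibGL89.A3

/-!
Row A4 (MEDIUM). The set `EE1` of large values has at most `b^(ε L)` elements.

Choose `lam ∈ (0,1]` with `1 + lam (b²+2) ≤ b^(ε/4)`, then `η ∈ (0,1)` with `(1/lam)^(2 b⁴ η + ..) ≤ ..`: precisely
`q := ⌈2 b⁴ η M⌉₊ ≤ 2 b⁴ η L + 1` and `(1/lam)^q ≤ (1/lam) * b^(ε L/4)` if `2 b⁴ η * log (1/lam) ≤ (ε/4) log b`.  `B0` with `4/B0 ≤ ε/8`.
`code_card` with `β = b²`, `M := MN L B - 1`, `T = EE1 b L B η`, `y t = (b²-1) b^(2a) (t/b^(L+5))`, `a = L/B`: `0 ≤ y t ≤ R0 := b^(2a+2)`;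
`hq` by `bad_card` (natural number ≤ real `2 b⁴ η M` ≤ q);
`h1`: `round (β^(M-1) y_t) = r` puts `t` in a closed interval of length `b^(L+5) / ((b²-1) b^(2a) b^(2(M-1)))`, where
`2a + 2(M-1) = 2a + 2 (L/2) - 4a - 2 ≥ L - 2a - 3` (`M = L/2 - 2a ≥ 1` for large `L`, `B ≥ 8`), so at most `b^(2a+8) + 1 ≤ b^(2a+9) =: R1` naturals.
Total `≤ (b^(2a+2)+1) b^(2a+9) (1/lam) b^(ε L/4) b^(ε L/4) ≤ b^(4a+13) ... ≤ b^(ε L)` for large `L` (`4a ≤ 4L/B ≤ ε L/8`).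
-/

set_option autoImplicit false

namespace GL89

open Finset Pool.Agent.LibHG31

private theorem A4_count (T : Finset ℕ) (C : ℝ) (hC : 0 < C) (r : ℝ) (K : ℕ) (hK : 1 ≤ C * K)
    (h : ∀ t ∈ T, |C * t - r| ≤ 1 / 2) : T.card ≤ K + 1 := by
  classical
  rcases T.eq_empty_or_nonempty with h0 | hne
  · rw [h0]; simp
  · set m := T.min' hne with hm
    have hsub : T ⊆ Icc m (m + K) := by
      intro t ht
      rw [mem_Icc]
      refine ⟨T.min'_le t ht, ?_⟩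
      have h1 := abs_le.1 (h t ht)
      have h2 := abs_le.1 (h m (T.min'_mem hne))
      have h3 : C * ((t : ℝ) - m) ≤ C * K := by
        have : C * ((t : ℝ) - m) ≤ 1 := by
          have : C * ((t : ℝ) - m) = C * t - C * m := by ring
          rw [this]; linarith [h1.2, h2.1]
        linarith
      have h4 : (t : ℝ) - m ≤ K := le_of_mul_le_mul_left h3 hC
      have h5 : (t : ℝ) ≤ ((m + K : ℕ) : ℝ) := by push_cast; linarith
      exact_mod_cast h5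
    calc T.card ≤ (Icc m (m + K)).card := card_le_card hsub
      _ = K + 1 := by rw [Nat.card_Icc]; omega

theorem EE1_card (b : ℕ) (hb : 2 ≤ b) (ε : ℝ) (hε : 0 < ε) :
    ∃ (η : ℝ) (B0 : ℕ), 0 < η ∧ η < 1 ∧ ∀ B : ℕ, B0 ≤ B → ∃ L0 : ℕ, ∀ L : ℕ, L0 ≤ L →
      ((EE1 b L B η).card : ℝ) ≤ (b : ℝ) ^ (ε * L) := by
  have hb1 : (1 : ℝ) < b := by exact_mod_cast (by omega : 1 < b)
  have hb2 : (2 : ℝ) ≤ b := by exact_mod_cast hb
  have hb0 : (0 : ℝ) < b := by linarith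
  have hlogb : 0 < Real.log b := Real.log_pos hb1
  have hpow1 : (1 : ℝ) < (b : ℝ) ^ (ε / 4) := Real.one_lt_rpow hb1 (by positivity)
  -- lam
  obtain ⟨lam, hl0, hl1, hlam⟩ : ∃ lam : ℝ, 0 < lam ∧ lam ≤ 1 ∧
      1 + lam * ((b : ℝ) ^ 2 + 2) ≤ (b : ℝ) ^ (ε / 4) := by
    refine ⟨min 1 (((b : ℝ) ^ (ε / 4) - 1) / ((b : ℝ) ^ 2 + 2)), ?_, min_le_left _ _, ?_⟩
    · exact lt_min one_pos (div_pos (by linarith) (by positivity))
    · have hp : (0 : ℝ) < (b : ℝ) ^ 2 + 2 := by positivity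
      have h1 : min 1 (((b : ℝ) ^ (ε / 4) - 1) / ((b : ℝ) ^ 2 + 2)) * ((b : ℝ) ^ 2 + 2) ≤
          (((b : ℝ) ^ (ε / 4) - 1) / ((b : ℝ) ^ 2 + 2)) * ((b : ℝ) ^ 2 + 2) :=
        mul_le_mul_of_nonneg_right (min_le_right _ _) hp.le
      rw [div_mul_cancel₀ _ hp.ne'] at h1
      linarith
  have hll : (1 : ℝ) ≤ 1 / lam := by
    rw [le_div_iff₀ hl0]; linarith
  have hlogl : 0 ≤ Real.log (1 / lam) := Real.log_nonneg hll
  -- eta
  obtain ⟨η, hη0, hη1, hη⟩ : ∃ η : ℝ, 0 < η ∧ η < 1 ∧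
      2 * (b : ℝ) ^ 4 * η * Real.log (1 / lam) ≤ (ε / 4) * Real.log b := by
    refine ⟨min (1 / 2) ((ε / 4) * Real.log b / (2 * (b : ℝ) ^ 4 * (Real.log (1 / lam) + 1))), ?_, ?_, ?_⟩
    · exact lt_min (by norm_num) (by positivity)
    · exact lt_of_le_of_lt (min_le_left _ _) (by norm_num)
    · have hp : (0 : ℝ) < 2 * (b : ℝ) ^ 4 * (Real.log (1 / lam) + 1) := by positivity
      set e := min (1 / 2) ((ε / 4) * Real.log b / (2 * (b : ℝ) ^ 4 * (Real.log (1 / lam) + 1))) with he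
      have he0 : 0 ≤ e := le_min (by norm_num) (by positivity)
      have h1 : e * (2 * (b : ℝ) ^ 4 * (Real.log (1 / lam) + 1)) ≤ (ε / 4) * Real.log b := by
        rw [← le_div_iff₀ hp]; exact min_le_right _ _
      have h2 : 2 * (b : ℝ) ^ 4 * e * Real.log (1 / lam) ≤
          e * (2 * (b : ℝ) ^ 4 * (Real.log (1 / lam) + 1)) := by
        have : 0 ≤ 2 * (b : ℝ) ^ 4 * e := by positivity
        nlinarith
      linarith
  refine ⟨η, max 8 ⌈32 / ε⌉₊, hη0, hη1, ?_⟩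
  intro B hB
  have hB8 : 8 ≤ B := le_trans (le_max_left _ _) hB
  have hBε : 32 / ε ≤ B := by
    have : ⌈32 / ε⌉₊ ≤ B := le_trans (le_max_right _ _) hB
    exact Nat.ceil_le.1 this
  have hBpos : (0 : ℝ) < B := by exact_mod_cast (by omega : 0 < B)
  obtain ⟨L1, hL1⟩ : ∃ L1 : ℕ, (12 * Real.log b + Real.log (1 / lam)) / ((3 * ε / 8) * Real.log b) ≤ L1 :=
    ⟨⌈(12 * Real.log b + Real.log (1 / lam)) / ((3 * ε / 8) * Real.log b)⌉₊, Nat.le_ceil _⟩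
  refine ⟨max 8 L1, ?_⟩
  intro L hL
  have hL8 : 8 ≤ L := le_trans (le_max_left _ _) hL
  have hLL1 : (L1 : ℝ) ≤ L := by exact_mod_cast le_trans (le_max_right _ _) hL
  set a := L / B with ha
  have ha8 : a ≤ L / 8 := Nat.div_le_div_left hB8 (by norm_num)
  set M' := MN L B with hM'
  have hMval : M' = L / 2 - 2 * a := rfl
  have hM1 : 1 ≤ M' := by omega
  have hML : M' ≤ L := by omega
  set y : ℕ → ℝ := fun t => ((b : ℝ) ^ 2 - 1) * (b : ℝ) ^ (2 * a) * ((t : ℝ) / (b ^ (L + 5) : ℕ)) with hy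
  set q : ℕ := ⌈2 * (b : ℝ) ^ 4 * η * M'⌉₊ with hq
  have hb21 : (b : ℝ) ≤ (b : ℝ) ^ 2 - 1 := by nlinarith
  have hK0 : (0 : ℝ) < ((b ^ (L + 5) : ℕ) : ℝ) := by
    exact_mod_cast Nat.pow_pos (by omega)
  have key := code_card (b ^ 2) (by nlinarith) (M' - 1) (b ^ (2 * a + 2)) (b ^ (2 * a + 9)) q
    (EE1 b L B η) y ?_ ?_ ?_ lam hl0 hl1
  · -- final estimate
    refine key.trans ?_
    have hbN : 1 ≤ b ^ (2 * a + 2) := Nat.one_le_pow _ _ (by omega)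
    have e1 : (((b ^ (2 * a + 2) : ℕ) : ℝ) + 1) ≤ (b : ℝ) ^ (2 * a + 3) := by
      have : (b ^ (2 * a + 2) + 1 : ℕ) ≤ b ^ (2 * a + 3) := by
        calc b ^ (2 * a + 2) + 1 ≤ b ^ (2 * a + 2) * 2 := by omega
          _ ≤ b ^ (2 * a + 2) * b := Nat.mul_le_mul_left _ hb
          _ = b ^ (2 * a + 3) := by rw [← pow_succ]
      exact_mod_cast this
    have e2 : (((b ^ (2 * a + 2) : ℕ) : ℝ) + 1) * ((b ^ (2 * a + 9) : ℕ) : ℝ) ≤ (b : ℝ) ^ (4 * a + 12) := by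
      have h1 : ((b ^ (2 * a + 9) : ℕ) : ℝ) = (b : ℝ) ^ (2 * a + 9) := by push_cast; rfl
      rw [h1]
      calc (((b ^ (2 * a + 2) : ℕ) : ℝ) + 1) * (b : ℝ) ^ (2 * a + 9)
          ≤ (b : ℝ) ^ (2 * a + 3) * (b : ℝ) ^ (2 * a + 9) := by gcongr
        _ = (b : ℝ) ^ (4 * a + 12) := by rw [← pow_add]; congr 1; ring
    have e3 : (b : ℝ) ^ (4 * a + 12) ≤ Real.exp (12 * Real.log b + (ε * L / 8) * Real.log b) := by
      have h1 : (b : ℝ) ^ (4 * a + 12) = Real.exp ((4 * a + 12 : ℕ) * Real.log b) := by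
        rw [Real.exp_nat_mul, Real.exp_log hb0]
      rw [h1, Real.exp_le_exp]
      have h2 : (a : ℝ) ≤ L / B := by
        rw [ha]; exact Nat.cast_div_le
      have h3 : (4 : ℝ) * a ≤ ε * L / 8 := by
        have h4 : (L : ℝ) / B ≤ ε * L / 32 := by
          rw [div_le_iff₀ hBpos]
          have h5 : 32 ≤ ε * B := by
            rw [div_le_iff₀ hε] at hBε; linarith
          have : (0 : ℝ) ≤ L := Nat.cast_nonneg _
          nlinarith
        linarith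
      push_cast
      nlinarith
    have e4 : (1 / lam) ^ q ≤ Real.exp (Real.log (1 / lam) + (ε * L / 4) * Real.log b) := by
      have h1 : (1 / lam) ^ q = Real.exp (q * Real.log (1 / lam)) := by
        rw [Real.exp_nat_mul, Real.exp_log (by linarith)]
      rw [h1, Real.exp_le_exp]
      have h2 : (q : ℝ) ≤ 2 * (b : ℝ) ^ 4 * η * M' + 1 := by
        have := Nat.ceil_lt_add_one (a := 2 * (b : ℝ) ^ 4 * η * M') (by positivity)
        exact this.le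
      have h3 : (M' : ℝ) ≤ L := by exact_mod_cast hML
      calc (q : ℝ) * Real.log (1 / lam) ≤ (2 * (b : ℝ) ^ 4 * η * M' + 1) * Real.log (1 / lam) := by gcongr
        _ ≤ (2 * (b : ℝ) ^ 4 * η * L + 1) * Real.log (1 / lam) := by gcongr
        _ = Real.log (1 / lam) + L * (2 * (b : ℝ) ^ 4 * η * Real.log (1 / lam)) := by ring
        _ ≤ Real.log (1 / lam) + L * ((ε / 4) * Real.log b) := by gcongr
        _ = Real.log (1 / lam) + (ε * L / 4) * Real.log b := by ring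
    have e5 : (1 + lam * (((b ^ 2 : ℕ) : ℝ) + 2)) ^ (M' - 1) ≤ Real.exp ((ε * L / 4) * Real.log b) := by
      have h0 : (0 : ℝ) ≤ 1 + lam * (((b ^ 2 : ℕ) : ℝ) + 2) := by positivity
      have h1 : 1 + lam * (((b ^ 2 : ℕ) : ℝ) + 2) ≤ Real.exp ((ε / 4) * Real.log b) := by
        have : Real.exp ((ε / 4) * Real.log b) = (b : ℝ) ^ (ε / 4) := by
          rw [Real.rpow_def_of_pos hb0, mul_comm]
        rw [this]; push_cast; exact hlam
      calc (1 + lam * (((b ^ 2 : ℕ) : ℝ) + 2)) ^ (M' - 1)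
          ≤ (Real.exp ((ε / 4) * Real.log b)) ^ (M' - 1) := pow_le_pow_left₀ h0 h1 _
        _ ≤ (Real.exp ((ε / 4) * Real.log b)) ^ L :=
            pow_le_pow_right₀ (Real.one_le_exp (by positivity)) (by omega)
        _ = Real.exp ((ε * L / 4) * Real.log b) := by
            rw [← Real.exp_nat_mul]; congr 1; ring
    have e6 : (b : ℝ) ^ (ε * L) = Real.exp ((ε * L) * Real.log b) := by
      rw [Real.rpow_def_of_pos hb0, mul_comm]
    rw [e6]
    have e7 : 12 * Real.log b + Real.log (1 / lam) ≤ L * ((3 * ε / 8) * Real.log b) := by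
      have := hL1.trans hLL1
      rwa [div_le_iff₀ (by positivity)] at this
    calc (((b ^ (2 * a + 2) : ℕ) : ℝ) + 1) * ((b ^ (2 * a + 9) : ℕ) : ℝ) *
          ((1 / lam) ^ q * (1 + lam * (((b ^ 2 : ℕ) : ℝ) + 2)) ^ (M' - 1))
        ≤ Real.exp (12 * Real.log b + (ε * L / 8) * Real.log b) *
          (Real.exp (Real.log (1 / lam) + (ε * L / 4) * Real.log b) *
            Real.exp ((ε * L / 4) * Real.log b)) := by
          apply mul_le_mul (e2.trans e3) _ (by positivity) (by positivity)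
          apply mul_le_mul e4 e5 (by positivity) (by positivity)
      _ = Real.exp (12 * Real.log b + Real.log (1 / lam) + (5 * ε * L / 8) * Real.log b) := by
          rw [← Real.exp_add, ← Real.exp_add]; congr 1; ring
      _ ≤ Real.exp ((ε * L) * Real.log b) := by
          rw [Real.exp_le_exp]; nlinarith
  · -- h0
    intro t ht
    have ht' : t < b ^ (L + 5) := by
      have := (mem_filter.1 ht).1
      exact mem_range.1 this
    have h1 : (0 : ℝ) ≤ (t : ℝ) / (b ^ (L + 5) : ℕ) := by positivity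
    have h2 : (t : ℝ) / (b ^ (L + 5) : ℕ) ≤ 1 := by
      rw [div_le_one hK0]; exact_mod_cast ht'.le
    have h3 : (0 : ℝ) ≤ ((b : ℝ) ^ 2 - 1) * (b : ℝ) ^ (2 * a) := by
      apply mul_nonneg (by linarith) (by positivity)
    refine ⟨mul_nonneg h3 h1, ?_⟩
    calc ((b : ℝ) ^ 2 - 1) * (b : ℝ) ^ (2 * a) * ((t : ℝ) / (b ^ (L + 5) : ℕ))
        ≤ ((b : ℝ) ^ 2 - 1) * (b : ℝ) ^ (2 * a) * 1 := mul_le_mul_of_nonneg_left h2 h3
      _ ≤ (b : ℝ) ^ 2 * (b : ℝ) ^ (2 * a) := by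
          rw [mul_one]; gcongr; linarith
      _ = ((b ^ (2 * a + 2) : ℕ) : ℝ) := by push_cast; rw [← pow_add]; congr 1; ring
  · -- hq
    intro t ht
    have h2 := (mem_filter.1 ht).2
    have h3 := bad_card b hb a M' η ((t : ℝ) / (b ^ (L + 5) : ℕ)) hη0.le h2
    have h4 : (((range (M' - 1)).filter (fun j => 1 / (2 * ((b ^ 2 : ℕ) : ℝ)) ≤
      nd (((b ^ 2 : ℕ) : ℝ) ^ j * (((b : ℝ) ^ 2 - 1) * (b : ℝ) ^ (2 * a) * ((t : ℝ) / (b ^ (L + 5) : ℕ)))))).card : ℝ) ≤ (q : ℝ) :=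
      h3.trans (Nat.le_ceil _)
    exact (Nat.cast_le (α := ℝ)).1 h4
  · -- h1
    intro r
    have hpos : (0 : ℝ) < (b : ℝ) ^ 2 - 1 := by linarith
    set C : ℝ := ((b ^ 2 : ℕ) : ℝ) ^ (M' - 1) * (((b : ℝ) ^ 2 - 1) * (b : ℝ) ^ (2 * a) / (b ^ (L + 5) : ℕ)) with hC
    have hCpos : 0 < C := by
      rw [hC]
      have : (0 : ℝ) < ((b ^ 2 : ℕ) : ℝ) := by exact_mod_cast Nat.pow_pos (by omega)
      positivity
    have hcard := A4_count ((EE1 b L B η).filter (fun t => round (((b ^ 2 : ℕ) : ℝ) ^ (M' - 1) * y t) = r))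
      C hCpos (r : ℝ) (b ^ (2 * a + 8)) ?_ ?_
    · refine hcard.trans ?_
      have h1 : 1 ≤ b ^ (2 * a + 8) := Nat.one_le_pow _ _ (by omega)
      calc b ^ (2 * a + 8) + 1 ≤ b ^ (2 * a + 8) * 2 := by omega
        _ ≤ b ^ (2 * a + 8) * b := Nat.mul_le_mul_left _ hb
        _ = b ^ (2 * a + 9) := by rw [← pow_succ]
    · have h1 : C * ((b ^ (2 * a + 8) : ℕ) : ℝ) =
          ((b : ℝ) ^ 2 - 1) * (b : ℝ) ^ (2 * (M' - 1) + 2 * a + (2 * a + 8)) / (b : ℝ) ^ (L + 5) := by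
        rw [hC]; push_cast; rw [← pow_mul]; rw [pow_add, pow_add]; ring
      rw [h1, le_div_iff₀ (by positivity), one_mul]
      calc (b : ℝ) ^ (L + 5) ≤ (b : ℝ) ^ (1 + (2 * (M' - 1) + 2 * a + (2 * a + 8))) :=
            pow_le_pow_right₀ hb1.le (by omega)
        _ = (b : ℝ) * (b : ℝ) ^ (2 * (M' - 1) + 2 * a + (2 * a + 8)) := by rw [pow_add, pow_one]
        _ ≤ ((b : ℝ) ^ 2 - 1) * (b : ℝ) ^ (2 * (M' - 1) + 2 * a + (2 * a + 8)) := by gcongr
    · intro t ht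
      have h2 := (mem_filter.1 ht).2
      have h3 := abs_sub_round (((b ^ 2 : ℕ) : ℝ) ^ (M' - 1) * y t)
      rw [h2] at h3
      have h4 : C * (t : ℝ) = ((b ^ 2 : ℕ) : ℝ) ^ (M' - 1) * y t := by
        rw [hC, hy]; ring
      rw [h4]; exact h3

end GL89
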