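import Pool.Agent.LibGL89.Defs
import Pool.Agent.LibHG31.E4

/-!
Row C1 (MEDIUM). The carry: reversal of `u + b^i`.

`u < b^L`, the digits of `u` at the places `i, .., i+c-1` are `b-1`, the digit at `i+c < L` is not.
Then `u + b^i` has the digits of `u` except `0` at the places `i..i+c-1` and `+1` at the place `i+c`; in particular `u + b^i < b^L`, and
`rv (u + b^i) = rv u - (b-1) ∑_{j=i}^{i+c-1} b^(L-1-j) + b^(L-1-i-c) = rv u - b^(L-i) + (b+1) b^(L-1-i-c)`.
Induction on `c` is convenient: `c = 0`: `dg b i (u + b^i) = dg b i u + 1`, other digits the same.  `c+1`: `u = u' + (b-1) b^i` with digit `0` at `i`,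
`u + b^i = u' + b^(i+1)`, apply the case `c` to `u'` (place `i+1`), and `rv u = rv u' + (b-1) b^(L-1-i)`.
(`rv b L n = ∑_{j<L} dg b j n b^(L-1-j)`; digits of `v + b^i ε`: `dg_add_of_lt`, `dg_add_self` in LibHG31/E4, `sum_dg` in E5.)
-/

set_option autoImplicit false

namespace GL89

open Finset Pool.Agent.LibHG31

private theorem C1_dg_lt (b i j r x : ℕ) (hb : 0 < b) (hj : j < i) :
    dg b j (r + b ^ i * x) = dg b j r := dg_add_of_lt b i j r x hb hj

private theorem C1_dg_eq (b i r d t : ℕ) (hb : 0 < b) (hr : r < b ^ i) (hd : d < b) :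
    dg b i (r + b ^ i * (d + b * t)) = d := by
  unfold dg
  rw [Nat.add_mul_div_left _ _ (pow_pos hb i), Nat.div_eq_of_lt hr, zero_add,
    Nat.add_mul_mod_self_left, Nat.mod_eq_of_lt hd]

private theorem C1_dg_gt (b i j r d t : ℕ) (hb : 0 < b) (hr : r < b ^ i) (hd : d < b) (hj : i < j) :
    dg b j (r + b ^ i * (d + b * t)) = dg b (j - i - 1) t := by
  obtain ⟨k, rfl⟩ := Nat.exists_eq_add_of_lt hj
  have e : i + k + 1 - i - 1 = k := by omega
  rw [e]
  unfold dg
  have e2 : b ^ (i + k + 1) = b ^ i * (b * b ^ k) := by ring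
  rw [e2, ← Nat.div_div_eq_div_mul, Nat.add_mul_div_left _ _ (pow_pos hb i), Nat.div_eq_of_lt hr,
    zero_add, ← Nat.div_div_eq_div_mul, Nat.add_mul_div_left _ _ hb, Nat.div_eq_of_lt hd, zero_add]

private theorem C1_dg_ne (b i j r d d' t : ℕ) (hb : 0 < b) (hr : r < b ^ i) (hd : d < b) (hd' : d' < b)
    (hj : j ≠ i) : dg b j (r + b ^ i * (d + b * t)) = dg b j (r + b ^ i * (d' + b * t)) := by
  rcases lt_or_gt_of_ne hj with h | h
  · rw [C1_dg_lt b i j r _ hb h, C1_dg_lt b i j r _ hb h]
  · rw [C1_dg_gt b i j r d t hb hr hd h, C1_dg_gt b i j r d' t hb hr hd' h]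

private theorem C1_rv (b L i r d d' t : ℕ) (hb : 0 < b) (hr : r < b ^ i) (hd : d < b) (hd' : d' < b)
    (hi : i < L) : ((rv b L (r + b ^ i * (d + b * t)) : ℕ) : ℤ) =
      (rv b L (r + b ^ i * (d' + b * t)) : ℕ) + ((d : ℤ) - d') * (b : ℤ) ^ (L - 1 - i) := by
  have h : ((rv b L (r + b ^ i * (d + b * t)) : ℕ) : ℤ) - (rv b L (r + b ^ i * (d' + b * t)) : ℕ) =
      ((d : ℤ) - d') * (b : ℤ) ^ (L - 1 - i) := by
    unfold rv
    push_cast
    rw [← Finset.sum_sub_distrib, Finset.sum_eq_single i]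
    · rw [C1_dg_eq b i r d t hb hr hd, C1_dg_eq b i r d' t hb hr hd']
      ring
    · intro j _ hj
      rw [C1_dg_ne b i j r d d' t hb hr hd hd' hj, sub_self]
    · intro h
      exact absurd (Finset.mem_range.2 hi) h
  linarith

private theorem C1_split (b i u : ℕ) : u = u % b ^ i + b ^ i * (dg b i u + b * (u / b ^ i / b)) := by
  unfold dg
  rw [Nat.mod_add_div, Nat.mod_add_div]

theorem rv_add (b L u i c : ℕ) (hb : 2 ≤ b) (hu : u < b ^ L) (hic : i + c < L)
    (h1 : ∀ j, i ≤ j → j < i + c → dg b j u = b - 1) (h2 : dg b (i + c) u ≠ b - 1) :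
    u + b ^ i < b ^ L ∧
      ((rv b L (u + b ^ i) : ℕ) : ℤ) = (rv b L u : ℤ) - (b : ℤ) ^ (L - i) + ((b : ℤ) + 1) * (b : ℤ) ^ (L - 1 - i - c) := by
  have hb0 : 0 < b := by omega
  induction c generalizing u i with
  | zero =>
    have hd0 : dg b i u < b := dg_lt b i u hb0
    have hs := C1_split b i u
    set d := dg b i u with hdd
    set r := u % b ^ i with hrr
    set t := u / b ^ i / b with htt
    have hr : r < b ^ i := Nat.mod_lt _ (pow_pos hb0 i)
    have hd1 : d + 1 < b := by
      have : d ≠ b - 1 := h2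
      omega
    have e : u + b ^ i = r + b ^ i * ((d + 1) + b * t) := by
      conv_lhs => rw [hs]
      ring
    obtain ⟨m, rfl⟩ := Nat.exists_eq_add_of_lt (show i < L by omega)
    constructor
    · have ht : t < b ^ m := by
        by_contra hcon
        have hcon' : b ^ m ≤ t := not_lt.1 hcon
        have h3 : b ^ (i + m + 1) ≤ u := by
          calc b ^ (i + m + 1) = b ^ i * (b * b ^ m) := by ring
            _ ≤ b ^ i * (b * t) := Nat.mul_le_mul_left _ (Nat.mul_le_mul_left _ hcon')
            _ ≤ r + b ^ i * (d + b * t) := by nlinarith [Nat.zero_le (b ^ i * d)]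
            _ = u := hs.symm
        omega
      rw [e]
      calc r + b ^ i * ((d + 1) + b * t) < b ^ i + b ^ i * ((d + 1) + b * t) := by omega
        _ = b ^ i * (d + 2 + b * t) := by ring
        _ ≤ b ^ i * (b + b * t) := Nat.mul_le_mul_left _ (by omega)
        _ = b ^ i * (b * (t + 1)) := by ring
        _ ≤ b ^ i * (b * b ^ m) := Nat.mul_le_mul_left _ (Nat.mul_le_mul_left _ ht)
        _ = b ^ (i + m + 1) := by ring
    · rw [e, C1_rv b (i + m + 1) i r (d + 1) d t hb0 hr hd1 hd0 (by omega), ← hs]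
      have e3 : i + m + 1 - 1 - i = m := by omega
      have e4 : i + m + 1 - 1 - i - 0 = m := by omega
      have e5 : i + m + 1 - i = m + 1 := by omega
      rw [e3, e5, Nat.sub_zero]
      push_cast
      ring
  | succ c ih =>
    have hd0 : dg b i u = b - 1 := h1 i le_rfl (by omega)
    have hs := C1_split b i u
    rw [hd0] at hs
    set r := u % b ^ i with hrr
    set t := u / b ^ i / b with htt
    have hr : r < b ^ i := Nat.mod_lt _ (pow_pos hb0 i)
    set u' := r + b ^ i * (0 + b * t) with hu'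
    have hle : u' ≤ u := by
      rw [hs, hu']
      exact Nat.add_le_add_left (Nat.mul_le_mul_left _ (by omega)) _
    have hdg : ∀ j, j ≠ i → dg b j u' = dg b j u := by
      intro j hj
      conv_rhs => rw [hs]
      exact C1_dg_ne b i j r 0 (b - 1) t hb0 hr hb0 (by omega) hj
    have e : u + b ^ i = u' + b ^ (i + 1) := by
      conv_lhs => rw [hs]
      rw [hu']
      obtain ⟨k, rfl⟩ := Nat.exists_eq_add_of_le hb
      have : 2 + k - 1 = k + 1 := by omega
      rw [this]
      ring
    have h := ih u' (i + 1) (lt_of_le_of_lt hle hu) (by omega)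
      (fun j hj1 hj2 => by rw [hdg j (by omega)]; exact h1 j (by omega) (by omega))
      (by rw [hdg _ (by omega)]; rw [show i + 1 + c = i + (c + 1) by omega]; exact h2)
    rw [e]
    refine ⟨h.1, ?_⟩
    rw [h.2]
    have h3 := C1_rv b L i r 0 (b - 1) t hb0 hr hb0 (by omega) (by omega)
    rw [← hs, ← hu'] at h3
    rw [h3]
    obtain ⟨m, rfl⟩ := Nat.exists_eq_add_of_lt hic
    have e1 : i + (c + 1) + m + 1 - 1 - i = c + 1 + m := by omega
    have e2 : i + (c + 1) + m + 1 - (i + 1) = c + 1 + m := by omega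
    have e3 : i + (c + 1) + m + 1 - 1 - (i + 1) - c = m := by omega
    have e4 : i + (c + 1) + m + 1 - i = c + 1 + m + 1 := by omega
    have e5 : i + (c + 1) + m + 1 - 1 - i - (c + 1) = m := by omega
    rw [e5, e1, e2, e3, e4]
    have hb1 : ((b - 1 : ℕ) : ℤ) = (b : ℤ) - 1 := by
      rw [Nat.cast_sub (by omega)]
      simp
    rw [hb1]
    push_cast
    ring

end GL89
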