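import Pool.Agent.LibGL89.C1

/-!
Row C2 (SHORT/MEDIUM). The difference `k' - k` from `rv k + b^i = rv k' + b^j`.

`u = rv b L k`, `u' = rv b L k'` (`rv_lt`, `rv_rv` : `rv u = k`), `dg b m u = dg b (L-1-m) k` (`dg_rv`).
Let `c1` be the least `c` with `dg b (i+c) u ≠ b-1`.  If there is none with `c < a` then the digits of `u` at `i..i+a-1` are `b-1`, i.e. those of `k` at
`L-i-a .. L-i-1`: first alternative.  Same for `k'`: second.  Otherwise `rv_add` for `(u,i,c1)` and `(u',j,c2)` and equality of the two left sides: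
`k' - k = b^(L-j) - (b+1) b^(L-1-j-c2) - b^(L-i) + (b+1) b^(L-1-i-c1)`, and `b^(L-j) - (b+1) b^(L-1-j-c) = uc b c * b^(L-1-j-c)`.
-/

set_option autoImplicit false

namespace GL89

open Finset Pool.Agent.LibHG31

private theorem C2_alt (b L i c k : ℕ) (hb : 1 ≤ b) (h : ∀ d, d < c → dg b (i + d) (rv b L k) = b - 1) (hic : i + c ≤ L) :
    ∀ m, L - i - c ≤ m → m < L - i → dg b m k = b - 1 := by
  intro m h1 h2
  have h3 := h (L - 1 - i - m) (by omega)
  have e1 : i + (L - 1 - i - m) = L - 1 - m := by omega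
  rw [e1, dg_rv b L k (L - 1 - m) hb (by omega)] at h3
  have e2 : L - 1 - (L - 1 - m) = m := by omega
  rwa [e2] at h3

private theorem C2_pow (b L j c : ℕ) (hj : j + c < L) :
    (b : ℤ) ^ (L - j) - ((b : ℤ) + 1) * (b : ℤ) ^ (L - 1 - j - c) = uc b c * (b : ℤ) ^ (L - 1 - j - c) := by
  have e : L - j = (c + 1) + (L - 1 - j - c) := by omega
  rw [e, pow_add]
  have e2 : (c + 1) + (L - 1 - j - c) = L - j := by omega
  unfold uc
  ring

theorem pair_diff (b L a i j k k' : ℕ) (hb : 2 ≤ b) (hk : k < b ^ L) (hk' : k' < b ^ L) (hi : i + a < L) (hj : j + a < L)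
    (he : rv b L k + b ^ i = rv b L k' + b ^ j) :
    (∀ m, L - i - a ≤ m → m < L - i → dg b m k = b - 1) ∨ (∀ m, L - j - a ≤ m → m < L - j → dg b m k' = b - 1) ∨
    ∃ c1 c2 : ℕ, c1 < a ∧ c2 < a ∧ (∀ m, L - i - c1 ≤ m → m < L - i → dg b m k = b - 1) ∧
      (∀ m, L - j - c2 ≤ m → m < L - j → dg b m k' = b - 1) ∧
      (k' : ℤ) = k + (uc b c2 * (b : ℤ) ^ (L - 1 - j - c2) - uc b c1 * (b : ℤ) ^ (L - 1 - i - c1)) := by
  have hb1 : 1 ≤ b := by omega
  classical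
  by_cases hA : ∃ c, c < a ∧ dg b (i + c) (rv b L k) ≠ b - 1
  swap
  · left
    refine C2_alt b L i a k hb1 ?_ hi.le
    intro d hd
    by_contra hcon
    exact hA ⟨d, hd, hcon⟩
  by_cases hB : ∃ c, c < a ∧ dg b (j + c) (rv b L k') ≠ b - 1
  swap
  · right; left
    refine C2_alt b L j a k' hb1 ?_ hj.le
    intro d hd
    by_contra hcon
    exact hB ⟨d, hd, hcon⟩
  right; right
  obtain ⟨h1, h2⟩ := Nat.find_spec hA
  obtain ⟨h3, h4⟩ := Nat.find_spec hB
  have hm1 : ∀ d, d < Nat.find hA → dg b (i + d) (rv b L k) = b - 1 := by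
    intro d hd
    by_contra hcon
    exact Nat.find_min hA hd ⟨hd.trans h1, hcon⟩
  have hm2 : ∀ d, d < Nat.find hB → dg b (j + d) (rv b L k') = b - 1 := by
    intro d hd
    by_contra hcon
    exact Nat.find_min hB hd ⟨hd.trans h3, hcon⟩
  generalize Nat.find hA = c1 at h1 h2 hm1
  generalize Nat.find hB = c2 at h3 h4 hm2
  refine ⟨c1, c2, h1, h3, C2_alt b L i c1 k hb1 hm1 (by omega), C2_alt b L j c2 k' hb1 hm2 (by omega), ?_⟩
  have r1 := (rv_add b L (rv b L k) i c1 hb (rv_lt b L k hb1) (by omega) (fun m hm1' hm2' => by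
    have := hm1 (m - i) (by omega)
    have e : i + (m - i) = m := by omega
    rwa [e] at this) h2).2
  have r2 := (rv_add b L (rv b L k') j c2 hb (rv_lt b L k' hb1) (by omega) (fun m hm1' hm2' => by
    have := hm2 (m - j) (by omega)
    have e : j + (m - j) = m := by omega
    rwa [e] at this) h4).2
  rw [rv_rv b L k hb1 hk] at r1
  rw [rv_rv b L k' hb1 hk'] at r2
  rw [he, r2] at r1
  rw [← C2_pow b L i c1 (by omega), ← C2_pow b L j c2 (by omega)]
  linarith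

private theorem C2_dvd (b c : ℕ) (hb : 2 ≤ b) (h : (b : ℤ) ∣ uc b c) : False := by
  unfold uc at h
  have h1 : (b : ℤ) ∣ 1 := by
    have h2 : (b : ℤ) ∣ (b : ℤ) ^ (c + 1) := dvd_pow_self _ (by omega)
    have h3 : (1 : ℤ) = (b : ℤ) ^ (c + 1) - b - ((b : ℤ) ^ (c + 1) - b - 1) := by ring
    rw [h3]
    exact dvd_sub (dvd_sub h2 dvd_rfl) h
  have h4 : (b : ℤ) ≤ 1 := Int.le_of_dvd one_pos h1
  have h5 : (2 : ℤ) ≤ b := by exact_mod_cast hb
  omega

private theorem C2_lt (b c1 c2 e1 e2 : ℕ) (hb : 2 ≤ b) (h : uc b c2 * (b : ℤ) ^ e2 = uc b c1 * (b : ℤ) ^ e1)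
    (hlt : e1 < e2) : False := by
  obtain ⟨t, rfl⟩ : ∃ t, e2 = e1 + (t + 1) := ⟨e2 - e1 - 1, by omega⟩
  have hb0 : (b : ℤ) ≠ 0 := by
    have : (2 : ℤ) ≤ b := by exact_mod_cast hb
    omega
  have h1 : uc b c1 = uc b c2 * (b : ℤ) ^ (t + 1) := by
    have h2 : (b : ℤ) ^ e1 ≠ 0 := pow_ne_zero _ hb0
    apply mul_right_cancel₀ h2
    rw [← h, pow_add]
    ring
  refine C2_dvd b c1 hb ?_
  rw [h1, pow_succ]
  exact Dvd.intro_left (uc b c2 * (b : ℤ) ^ t) (by ring)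

/-- the difference is not zero for `i ≠ j`: `uc b c` is prime to `b` and not zero, so the exponents of `b` are equal, `L-1-j-c2 = L-1-i-c1`,
then `uc b c1 = uc b c2`, `c1 = c2` (`uc b 0 = -1`, `uc b c > 0` increasing for `c ≥ 1`), `i = j`. -/
theorem diff_ne (b L i j c1 c2 : ℕ) (hb : 2 ≤ b) (hi : i + c1 < L) (hj : j + c2 < L) (hij : i ≠ j) :
    uc b c2 * (b : ℤ) ^ (L - 1 - j - c2) - uc b c1 * (b : ℤ) ^ (L - 1 - i - c1) ≠ 0 := by
  intro h
  have h0 := sub_eq_zero.1 h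
  rcases lt_trichotomy (L - 1 - i - c1) (L - 1 - j - c2) with hlt | heq | hgt
  · exact C2_lt b c1 c2 _ _ hb h0 hlt
  · rw [heq] at h0
    have hb0 : (b : ℤ) ≠ 0 := by
      have : (2 : ℤ) ≤ b := by exact_mod_cast hb
      omega
    have h1 := mul_right_cancel₀ (pow_ne_zero _ hb0) h0
    unfold uc at h1
    have h2 : (b : ℤ) ^ (c2 + 1) = (b : ℤ) ^ (c1 + 1) := by linarith
    have h3 : b ^ (c2 + 1) = b ^ (c1 + 1) := by exact_mod_cast h2
    have h4 := Nat.pow_right_injective hb h3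
    omega
  · exact C2_lt b c2 c1 _ _ hb h0.symm hgt

end GL89
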