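import Pool.Agent.LibHG31.E2
import Pool.Agent.LibHG31.E5

/-!
# LibGL89: definitions (MP_ccee18_nt, Goldbach-Linnik for reversed primes)

Page: GL89.md (helper89).  `b` base, `L` number of digits, `a = L / B`, `M = MN L B` the number of exponents
`vv a j = 2 (a + j)`, `j < M`.
-/

set_option autoImplicit false

namespace GL89

open Finset Pool.Agent.LibHG31
open scoped ArithmeticFunction.vonMangoldt

/-- the exponents, `2 (a + j)`, `j < M` -/
def vv (a j : ℕ) : ℕ := 2 * (a + j)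

/-- the number of exponents: all `vv (L/B) j`, `j < MN L B`, lie in `[2 (L/B), L - 2 (L/B))` -/
def MN (L B : ℕ) : ℕ := L / 2 - 2 * (L / B)

/-- the sum over the powers of `b` -/
noncomputable def GG1 (b a M : ℕ) (α : ℝ) : ℂ := ∑ j ∈ range M, ee ((b : ℝ) ^ vv a j * α)

open Classical in
/-- the large values of `GG1` at the points `t / b^(L+5)` -/
noncomputable def EE1 (b L B : ℕ) (η : ℝ) : Finset ℕ :=
  (range (b ^ (L + 5))).filter fun t =>
    (1 - η) * (MN L B : ℝ) ≤ ‖GG1 b (L / B) (MN L B) ((t : ℝ) / (b ^ (L + 5) : ℕ))‖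

/-- `∏ (1 + 1/p)` over the primes `p ∣ h`, `p ∤ b` -/
noncomputable def SS (b : ℕ) (h : ℤ) : ℝ :=
  ∏ p ∈ h.natAbs.primeFactors.filter (fun p => ¬ p ∣ b), (1 + 1 / (p : ℝ))

/-- `b^(c+1) - b - 1` -/
def uc (b c : ℕ) : ℤ := (b : ℤ) ^ (c + 1) - b - 1

/-- the primes `≤ L` which do not divide `b` -/
def PB (b L : ℕ) : Finset ℕ := (range (L + 1)).filter fun p => p.Prime ∧ ¬ p ∣ b

/-- the squarefree numbers prime to `b` with all prime factors `≤ L` -/
def DD (b L : ℕ) : Finset ℕ := (PB b L).powerset.image fun S => ∏ p ∈ S, p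

/-- the order of `b` modulo `d` -/
noncomputable def od (b d : ℕ) : ℕ := orderOf ((b : ℕ) : ZMod d)

/-- the sum of the `k` powers -/
def sj (b a k : ℕ) (js : Fin k → ℕ) : ℕ := ∑ i, b ^ vv a (js i)

/-- the tuples of indices -/
def JS (k M : ℕ) : Finset (Fin k → ℕ) := Fintype.piFinset fun _ => range M

end GL89
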