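import Pool.Agent.LibGL89.Defs
import Pool.Agent.LibHG31.A2b

/-!
Row F1 (SHORT/MEDIUM). The Fourier identity for the sum over the powers.

`Rrest_eq` (LibHG31.A2b) for each `N - sj b a k js` (it lies in `[b^(L+1), b^(L+2))`); `ee (-((N - s) x)) = ee (-(N x)) * ee (s x)`
(`s ≤ N`, cast of the natural subtraction), `ee (s x) = ∏_i ee (b^(vv a (js i)) x)`; exchange the sums;
`∑_{js ∈ piFinset} ∏_i f (js i) = ∏_i ∑_{j<M} f j = (∑_{j<M} f j)^k` (`Finset.prod_univ_sum`, `Finset.prod_const`).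
-/

set_option autoImplicit false

namespace GL89

open Finset Pool.Agent.LibHG31

private theorem F1_ee_add (x y : ℝ) : ee (x + y) = ee x * ee y := by
  unfold ee
  rw [← Complex.exp_add]
  congr 1
  push_cast
  ring

private theorem F1_ee_zero : ee 0 = 1 := by
  unfold ee
  rw [mul_zero, Complex.ofReal_zero, zero_mul, Complex.exp_zero]

private theorem F1_ee_sum {ι : Type} (s : Finset ι) (f : ι → ℝ) : ee (∑ i ∈ s, f i) = ∏ i ∈ s, ee (f i) := by
  classical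
  induction s using Finset.induction_on with
  | empty => rw [Finset.sum_empty, Finset.prod_empty, F1_ee_zero]
  | insert i s hi ih => rw [Finset.sum_insert hi, Finset.prod_insert hi, F1_ee_add, ih]

private theorem F1_prod (b a k M : ℕ) (x : ℝ) :
    ∑ js ∈ JS k M, ee ((sj b a k js : ℕ) * x) = GG1 b a M x ^ k := by
  have h1 : ∀ js : Fin k → ℕ, ee ((sj b a k js : ℕ) * x) = ∏ i, ee ((b : ℝ) ^ vv a (js i) * x) := by
    intro js
    unfold sj
    rw [← F1_ee_sum, ← Finset.sum_mul]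
    push_cast
    rfl
  rw [Finset.sum_congr rfl fun js _ => h1 js]
  unfold JS GG1
  rw [← Finset.prod_univ_sum (fun _ : Fin k => range M) (fun _ j => ee ((b : ℝ) ^ vv a j * x)),
    Finset.prod_const, Finset.card_univ, Fintype.card_fin]

theorem sum_Rrest_eq (b L J l r N k a M : ℕ) (hb : 2 ≤ b) (hL : 1 ≤ L) (hJ : 2 * J ≤ L) (hl : l < b)
    (hN1 : ∀ js ∈ JS k M, b ^ (L + 1) + sj b a k js ≤ N) (hN2 : N < b ^ (L + 2)) :
    ∑ js ∈ JS k M, Rrest b L J l r (N - sj b a k js) =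
      (1 / ((b ^ (L + 5) : ℕ) : ℂ)) * ∑ t ∈ range (b ^ (L + 5)),
        (((1 - MM b L J ((t : ℝ) / (b ^ (L + 5) : ℕ)) : ℝ) : ℂ) * S1 b L ((t : ℝ) / (b ^ (L + 5) : ℕ)) *
          S2 b L l r ((t : ℝ) / (b ^ (L + 5) : ℕ))) * ee (-(N * ((t : ℝ) / (b ^ (L + 5) : ℕ)))) *
          GG1 b a M ((t : ℝ) / (b ^ (L + 5) : ℕ)) ^ k := by
  have h1 : ∀ js ∈ JS k M, Rrest b L J l r (N - sj b a k js) =
      (1 / ((b ^ (L + 5) : ℕ) : ℂ)) * ∑ t ∈ range (b ^ (L + 5)),
        (((1 - MM b L J ((t : ℝ) / (b ^ (L + 5) : ℕ)) : ℝ) : ℂ) * S1 b L ((t : ℝ) / (b ^ (L + 5) : ℕ)) *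
          S2 b L l r ((t : ℝ) / (b ^ (L + 5) : ℕ))) * ee (-(N * ((t : ℝ) / (b ^ (L + 5) : ℕ)))) *
          ee ((sj b a k js : ℕ) * ((t : ℝ) / (b ^ (L + 5) : ℕ))) := by
    intro js hjs
    have h2 := hN1 js hjs
    rw [Rrest_eq b L J l r (N - sj b a k js) hb hL hJ hl (by omega) (by omega)]
    congr 1
    refine Finset.sum_congr rfl fun t _ => ?_
    rw [mul_assoc _ (ee (-(N * ((t : ℝ) / (b ^ (L + 5) : ℕ))))), ← F1_ee_add]
    congr 2
    rw [Nat.cast_sub (by omega)]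
    ring
  rw [Finset.sum_congr rfl h1, ← Finset.mul_sum, Finset.sum_comm]
  congr 1
  refine Finset.sum_congr rfl fun t _ => ?_
  rw [← Finset.mul_sum, F1_prod]

end GL89
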