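import Pool.Agent.LibGL89.F1
import Pool.Agent.LibHG31.A5

/-!
Row F2 (MEDIUM). The bound of the sum of the `Rrest`.

From `sum_Rrest_eq`, with `K = b^(L+5)`: split `range K` into `ET` and the rest.
`t ∈ ET`: `|1 - MM| ‖S1‖ ≤ b^((1-c)L)` (`MM_sup_le b hb A hA`), `‖S2‖ ≤ #KS * (L log b) ≤ b^L (L log b)` (`A2_card_KS_le`, `A2_vonMangoldt_le`,
`A2_KS_lt`, `norm_ee`), `‖GG1‖ ≤ M` : together `≤ (#ET / K) b^((1-c)L) b^L (L log b) M^k`.
`t ∉ ET`: `|1 - MM| ≤ 1` for large `L` (`0 ≤ MM ≤ 2`: `MM_nonneg`, `MM_le`, `(PP J D0 + 1)^6 / HH^2 ≤ 1`: `PP J ≤ 2^(J/4)`, `D0 ≤ b²`,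
`HH = b^(L-2J)`, `J = L/A ≤ L/100`), `‖GG1‖^(k-2) ≤ ((1-η)M)^(k-2)`, and Cauchy-Schwarz (`Finset.inner_mul_le_norm_mul_norm` /
`Finset.sum_mul_le_sqrt_mul_sqrt`) for `∑_t ‖S1 GG1‖ ‖S2 GG1‖ ≤ sqrt (K Q1) sqrt (K Q2) = K sqrt (Q1 Q2)`.
-/

set_option autoImplicit false

namespace GL89

open Finset Pool.Agent.LibHG31

private theorem F2_MM (b A L : ℕ) (hb : 2 ≤ b) (hA : 100 ≤ A) (hL : 10 ≤ L) (α : ℝ) :
    |1 - MM b L (L / A) α| ≤ 1 := by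
  set J := L / A with hJ
  have hJL : 100 * J ≤ L := by
    have h1 : A * J ≤ L := Nat.mul_div_le L A
    exact (Nat.mul_le_mul_right _ hA).trans h1
  have h1 := MM_le b L J hb α
  have h2 := MM_nonneg b L J α
  have h3 : (PP J * D0 b + 1) ^ 6 ≤ HH b L J ^ 2 := by
    have hD : D0 b ≤ b ^ 2 := by unfold D0; exact Nat.sub_le _ _
    have hPb : PP J ≤ b ^ (J / 4) := by unfold PP; exact Nat.pow_le_pow_left hb _
    have hb1 : 0 < b := by omega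
    calc (PP J * D0 b + 1) ^ 6 ≤ (b * (b ^ (J / 4) * b ^ 2)) ^ 6 := by
          apply Nat.pow_le_pow_left
          have h4 : PP J * D0 b ≤ b ^ (J / 4) * b ^ 2 := Nat.mul_le_mul hPb hD
          have h5 : 0 < b ^ (J / 4) * b ^ 2 := Nat.mul_pos (pow_pos hb1 _) (pow_pos hb1 _)
          calc PP J * D0 b + 1 ≤ 2 * (b ^ (J / 4) * b ^ 2) := by omega
            _ ≤ b * (b ^ (J / 4) * b ^ 2) := Nat.mul_le_mul_right _ hb
      _ = b ^ (18 + 6 * (J / 4)) := by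
          rw [mul_pow, mul_pow, ← pow_mul, ← pow_mul, ← pow_add, ← pow_add]
          congr 1
          omega
      _ ≤ b ^ ((L - 2 * J) * 2) := Nat.pow_le_pow_right hb1 (by omega)
      _ = HH b L J ^ 2 := by unfold HH; rw [← pow_mul]
  have h4 : ((PP J * D0 b + 1 : ℕ) : ℝ) ^ 6 / (HH b L J : ℝ) ^ 2 ≤ 1 := by
    apply div_le_one_of_le₀ _ (by positivity)
    exact_mod_cast h3
  rw [abs_le]
  constructor <;> linarith

private theorem F2_S2 (b L l r : ℕ) (hb : 2 ≤ b) (hL : 1 ≤ L) (hl : l < b) (α : ℝ) :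
    ‖S2 b L l r α‖ ≤ (b : ℝ) ^ L * (L * Real.log b) := by
  have hlog : 0 ≤ (L : ℝ) * Real.log b :=
    mul_nonneg (Nat.cast_nonneg _) (Real.log_nonneg (by exact_mod_cast (by omega : 1 ≤ b)))
  unfold S2
  refine (norm_sum_le _ _).trans ?_
  have h1 : ∀ k ∈ KS b L l r, ‖((ArithmeticFunction.vonMangoldt k : ℝ) : ℂ) * ee (rv b L k * α)‖ ≤
      (L : ℝ) * Real.log b := by
    intro k hk
    rw [norm_mul, norm_ee, mul_one, Complex.norm_real, Real.norm_eq_abs,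
      abs_of_nonneg ArithmeticFunction.vonMangoldt_nonneg]
    exact A2_vonMangoldt_le b L k hb (A2_KS_lt b L l r k hb hL hl hk)
  refine (Finset.sum_le_sum h1).trans ?_
  rw [Finset.sum_const, nsmul_eq_mul]
  apply mul_le_mul_of_nonneg_right _ hlog
  exact_mod_cast A2_card_KS_le b L l r hb hL hl

private theorem F2_GG (b a M : ℕ) (α : ℝ) : ‖GG1 b a M α‖ ≤ M := by
  unfold GG1
  refine (norm_sum_le _ _).trans ?_
  rw [Finset.sum_congr rfl fun j _ => norm_ee _]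
  simp

private theorem F2_core (K k : ℕ) (hk : 2 ≤ k) (ET : Finset ℕ) (m F G H : ℕ → ℝ)
    (B C M ρ Q1 Q2 : ℝ) (hm : ∀ t, 0 ≤ m t) (hm1 : ∀ t, m t ≤ 1) (hF : ∀ t, 0 ≤ F t)
    (hG : ∀ t, 0 ≤ G t) (hH : ∀ t, 0 ≤ H t) (hmF : ∀ t, m t * F t ≤ B) (hGC : ∀ t, G t ≤ C)
    (hHM : ∀ t, H t ≤ M) (hB : 0 ≤ B) (hC : 0 ≤ C) (hM : 0 ≤ M) (hρ : 0 ≤ ρ) (hQ1 : 0 ≤ Q1)
    (hHρ : ∀ t ∈ range K, t ∉ ET → H t ≤ ρ)
    (h1 : ∑ t ∈ range K, (F t * H t) ^ 2 ≤ K * Q1)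
    (h2 : ∑ t ∈ range K, (G t * H t) ^ 2 ≤ K * Q2) :
    ∑ t ∈ range K, m t * F t * G t * H t ^ k ≤
      ET.card * (B * C) * M ^ k + ρ ^ (k - 2) * (K * Real.sqrt (Q1 * Q2)) := by
  classical
  rw [← Finset.sum_filter_add_sum_filter_not (range K) (fun t => t ∈ ET)]
  apply add_le_add
  · have h3 : ∀ t ∈ (range K).filter (fun t => t ∈ ET), m t * F t * G t * H t ^ k ≤
        (B * C) * M ^ k := by
      intro t _
      exact mul_le_mul (mul_le_mul (hmF t) (hGC t) (hG t) hB)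
        (pow_le_pow_left₀ (hH t) (hHM t) k) (pow_nonneg (hH t) k) (mul_nonneg hB hC)
    refine (Finset.sum_le_sum h3).trans ?_
    rw [Finset.sum_const, nsmul_eq_mul, mul_assoc (ET.card : ℝ) (B * C) (M ^ k)]
    apply mul_le_mul_of_nonneg_right _ (by positivity)
    have h4 : (range K).filter (fun t => t ∈ ET) ⊆ ET := fun t ht => (Finset.mem_filter.mp ht).2
    exact_mod_cast Finset.card_le_card h4
  · have h3 : ∀ t ∈ (range K).filter (fun t => ¬ t ∈ ET), m t * F t * G t * H t ^ k ≤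
        ρ ^ (k - 2) * ((F t * H t) * (G t * H t)) := by
      intro t ht
      obtain ⟨ht1, ht2⟩ := Finset.mem_filter.mp ht
      have h4 : H t ^ k = H t ^ (k - 2) * (H t * H t) := by
        rw [← pow_two, ← pow_add]
        congr 1
        omega
      have h5 : H t ^ (k - 2) ≤ ρ ^ (k - 2) := pow_le_pow_left₀ (hH t) (hHρ t ht1 ht2) _
      have h6 : 0 ≤ (F t * H t) * (G t * H t) :=
        mul_nonneg (mul_nonneg (hF t) (hH t)) (mul_nonneg (hG t) (hH t))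
      calc m t * F t * G t * H t ^ k = m t * (H t ^ (k - 2) * ((F t * H t) * (G t * H t))) := by
            rw [h4]
            ring
        _ ≤ 1 * (ρ ^ (k - 2) * ((F t * H t) * (G t * H t))) := by
            apply mul_le_mul (hm1 t) (mul_le_mul_of_nonneg_right h5 h6)
              (mul_nonneg (pow_nonneg (hH t) _) h6) zero_le_one
        _ = _ := one_mul _
    refine (Finset.sum_le_sum h3).trans ?_
    rw [← Finset.mul_sum]
    apply mul_le_mul_of_nonneg_left _ (pow_nonneg hρ _)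
    calc ∑ t ∈ (range K).filter (fun t => ¬ t ∈ ET), (F t * H t) * (G t * H t) ≤
          ∑ t ∈ range K, (F t * H t) * (G t * H t) :=
          Finset.sum_le_sum_of_subset_of_nonneg (Finset.filter_subset _ _) fun t _ _ =>
            mul_nonneg (mul_nonneg (hF t) (hH t)) (mul_nonneg (hG t) (hH t))
      _ ≤ Real.sqrt (∑ t ∈ range K, (F t * H t) ^ 2) * Real.sqrt (∑ t ∈ range K, (G t * H t) ^ 2) :=
          Real.sum_mul_le_sqrt_mul_sqrt _ _ _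
      _ ≤ Real.sqrt (K * Q1) * Real.sqrt (K * Q2) :=
          mul_le_mul (Real.sqrt_le_sqrt h1) (Real.sqrt_le_sqrt h2) (Real.sqrt_nonneg _)
            (Real.sqrt_nonneg _)
      _ = K * Real.sqrt (Q1 * Q2) := by
          rw [← Real.sqrt_mul (by positivity), show (K : ℝ) * Q1 * (K * Q2) =
            (K : ℝ) ^ 2 * (Q1 * Q2) by ring, Real.sqrt_mul (by positivity),
            Real.sqrt_sq (by positivity)]

theorem sum_Rrest_le (b : ℕ) (hb : 2 ≤ b) (A : ℕ) (hA : 100 ≤ A) :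
    ∃ (c : ℝ) (L0 : ℕ), 0 < c ∧ ∀ L : ℕ, L0 ≤ L → ∀ (l r N k a M : ℕ) (η Q1 Q2 : ℝ) (ET : Finset ℕ),
      l < b → 2 ≤ k → 0 ≤ η → η < 1 → 0 ≤ Q1 → 0 ≤ Q2 →
      (∀ js ∈ JS k M, b ^ (L + 1) + sj b a k js ≤ N) → N < b ^ (L + 2) →
      (∀ t ∈ range (b ^ (L + 5)), t ∉ ET → ‖GG1 b a M ((t : ℝ) / (b ^ (L + 5) : ℕ))‖ ≤ (1 - η) * M) →
      (∑ t ∈ range (b ^ (L + 5)), ‖S1 b L ((t : ℝ) / (b ^ (L + 5) : ℕ)) *
        GG1 b a M ((t : ℝ) / (b ^ (L + 5) : ℕ))‖ ^ 2 ≤ (b ^ (L + 5) : ℕ) * Q1) →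
      (∑ t ∈ range (b ^ (L + 5)), ‖S2 b L l r ((t : ℝ) / (b ^ (L + 5) : ℕ)) *
        GG1 b a M ((t : ℝ) / (b ^ (L + 5) : ℕ))‖ ^ 2 ≤ (b ^ (L + 5) : ℕ) * Q2) →
      ‖∑ js ∈ JS k M, Rrest b L (L / A) l r (N - sj b a k js)‖ ≤
        (ET.card : ℝ) / (b ^ (L + 5) : ℕ) * ((b : ℝ) ^ ((1 - c) * L) * ((b : ℝ) ^ L * (L * Real.log b))) * (M : ℝ) ^ k +
          ((1 - η) * M) ^ (k - 2) * Real.sqrt (Q1 * Q2) := by
  obtain ⟨c, L₀, hc, hsup⟩ := MM_sup_le b hb A hA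
  refine ⟨c, max L₀ 10, hc, ?_⟩
  intro L hL l r N k a M η Q1 Q2 ET hl hk hη hη1 hQ1 hQ2 hN1 hN2 hG h1 h2
  have hL0 : L₀ ≤ L := (le_max_left _ _).trans hL
  have hL10 : 10 ≤ L := (le_max_right _ _).trans hL
  have hJ : 2 * (L / A) ≤ L := by
    have h1 : A * (L / A) ≤ L := Nat.mul_div_le L A
    calc 2 * (L / A) ≤ A * (L / A) := Nat.mul_le_mul_right _ (by omega)
      _ ≤ L := h1
  rw [sum_Rrest_eq b L (L / A) l r N k a M hb (by omega) hJ hl hN1 hN2]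
  have hKpos : (0 : ℝ) < ((b ^ (L + 5) : ℕ) : ℝ) := by
    exact_mod_cast pow_pos (by omega : 0 < b) _
  have hlog : 0 ≤ (L : ℝ) * Real.log b :=
    mul_nonneg (Nat.cast_nonneg _) (Real.log_nonneg (by exact_mod_cast (by omega : 1 ≤ b)))
  have hcore := F2_core (b ^ (L + 5)) k hk ET
    (fun t => |1 - MM b L (L / A) ((t : ℝ) / (b ^ (L + 5) : ℕ))|)
    (fun t => ‖S1 b L ((t : ℝ) / (b ^ (L + 5) : ℕ))‖)
    (fun t => ‖S2 b L l r ((t : ℝ) / (b ^ (L + 5) : ℕ))‖)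
    (fun t => ‖GG1 b a M ((t : ℝ) / (b ^ (L + 5) : ℕ))‖)
    ((b : ℝ) ^ ((1 - c) * L)) ((b : ℝ) ^ L * (L * Real.log b)) M ((1 - η) * M) Q1 Q2
    (fun t => abs_nonneg _) (fun t => F2_MM b A L hb hA hL10 _) (fun t => norm_nonneg _)
    (fun t => norm_nonneg _) (fun t => norm_nonneg _) (fun t => hsup L hL0 _)
    (fun t => F2_S2 b L l r hb (by omega) hl _) (fun t => F2_GG b a M _) (by positivity)
    (mul_nonneg (by positivity) hlog) (Nat.cast_nonneg _)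
    (mul_nonneg (by linarith) (Nat.cast_nonneg _)) hQ1 hG
    (by simpa only [norm_mul] using h1) (by simpa only [norm_mul] using h2)
  have hnorm : ‖(1 / ((b ^ (L + 5) : ℕ) : ℂ)) * ∑ t ∈ range (b ^ (L + 5)),
        (((1 - MM b L (L / A) ((t : ℝ) / (b ^ (L + 5) : ℕ)) : ℝ) : ℂ) *
          S1 b L ((t : ℝ) / (b ^ (L + 5) : ℕ)) *
          S2 b L l r ((t : ℝ) / (b ^ (L + 5) : ℕ))) * ee (-(N * ((t : ℝ) / (b ^ (L + 5) : ℕ)))) *
          GG1 b a M ((t : ℝ) / (b ^ (L + 5) : ℕ)) ^ k‖ ≤ (1 / ((b ^ (L + 5) : ℕ) : ℝ)) *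
      ∑ t ∈ range (b ^ (L + 5)), |1 - MM b L (L / A) ((t : ℝ) / (b ^ (L + 5) : ℕ))| *
        ‖S1 b L ((t : ℝ) / (b ^ (L + 5) : ℕ))‖ * ‖S2 b L l r ((t : ℝ) / (b ^ (L + 5) : ℕ))‖ *
        ‖GG1 b a M ((t : ℝ) / (b ^ (L + 5) : ℕ))‖ ^ k := by
    rw [norm_mul, norm_div, norm_one, Complex.norm_natCast]
    apply mul_le_mul_of_nonneg_left _ (by positivity)
    refine (norm_sum_le _ _).trans (le_of_eq (Finset.sum_congr rfl fun t _ => ?_))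
    rw [norm_mul, norm_mul, norm_mul, norm_mul, norm_ee, mul_one, norm_pow, Complex.norm_real,
      Real.norm_eq_abs]
  refine hnorm.trans ?_
  refine (mul_le_mul_of_nonneg_left hcore (by positivity)).trans (le_of_eq ?_)
  have hK0 : ((b ^ (L + 5) : ℕ) : ℝ) ≠ 0 := hKpos.ne'
  generalize ((b ^ (L + 5) : ℕ) : ℝ) = K at hK0
  field_simp

end GL89
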