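import Pool.Agent.LibMaier.Mertens2

/-! Mertens' theorem in a convenient form (for rows SV1, RM3). -/

set_option autoImplicit false

namespace GL89

open Finset Filter Topology

theorem mertens : ∃ C : ℝ, 0 < C ∧ ∀ z : ℕ,
    |∑ p ∈ (range (z + 1)).filter Nat.Prime, 1 / (p : ℝ) - Real.log (Real.log z)| ≤ C := by
  obtain ⟨M, hM⟩ := Pool.Agent.LibMaier.mertens_second
  have h1 : Tendsto (fun z : ℕ => |Pool.Agent.LibMaier.DR (z : ℝ)|) atTop (nhds |M|) :=
    (hM.comp tendsto_natCast_atTop_atTop).abs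
  obtain ⟨C, hC⟩ := h1.bddAbove_range
  refine ⟨max C 1, lt_of_lt_of_le one_pos (le_max_right _ _), fun z => ?_⟩
  have h2 : |Pool.Agent.LibMaier.DR (z : ℝ)| ≤ C := hC ⟨z, rfl⟩
  have h3 : Pool.Agent.LibMaier.DR (z : ℝ) =
      ∑ p ∈ (range (z + 1)).filter Nat.Prime, 1 / (p : ℝ) - Real.log (Real.log z) := by
    unfold Pool.Agent.LibMaier.DR
    rw [Nat.floor_natCast]
    congr 1
    unfold Pool.Agent.LibMaier.RN
    refine Finset.sum_congr ?_ fun _ _ => rfl
    ext p
    rw [Pool.Agent.LibMaier.mem_PN, mem_filter, mem_range]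
    constructor
    · exact fun h => ⟨by omega, h.2⟩
    · exact fun h => ⟨by omega, h.2⟩
  rw [← h3]
  exact h2.trans (le_max_left _ _)

end GL89
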