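import Pool.Agent.LibGL89.Defs

/-!
Row P0 (SHORT). Parseval with multiplicities.

Expand the square (`Complex.mul_conj`, `conj_ee`, `Finset.sum_mul_sum`), exchange, `sum_ee_div` (LibHG31.E2) with `n = v i - v i'`,
`(K : ℤ) ∣ v i - v i' ↔ v i = v i'` for values in `[0, K)`.  (Same as `A2_parseval_aux` in LibHG31/A2.lean, a private lemma: copy its proof.)
-/

set_option autoImplicit false

namespace GL89

open Finset Pool.Agent.LibHG31

theorem pairs_parseval {ι : Type} (s : Finset ι) (v : ι → ℕ) (w : ι → ℝ) (K : ℕ) (hK : 0 < K)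
    (hv : ∀ i ∈ s, v i < K) :
    ∑ t ∈ range K, ‖∑ i ∈ s, ((w i : ℝ) : ℂ) * ee (v i * ((t : ℝ) / K))‖ ^ 2 =
      K * ∑ i ∈ s, ∑ i' ∈ s, if v i = v i' then w i * w i' else 0 := by
  classical
  have h1 : ∀ t ∈ range K, ((‖∑ i ∈ s, ((w i : ℝ) : ℂ) * ee (v i * ((t : ℝ) / K))‖ ^ 2 : ℝ) : ℂ) =
      ∑ i ∈ s, ∑ j ∈ s, (((w i * w j : ℝ) : ℂ)) * ee (t * ((((v i : ℤ) - (v j : ℤ) : ℤ) : ℝ) / K)) := by
    intro t _
    rw [← Complex.normSq_eq_norm_sq, ← Complex.mul_conj, map_sum, Finset.sum_mul_sum]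
    refine Finset.sum_congr rfl fun i _ => Finset.sum_congr rfl fun j _ => ?_
    rw [map_mul, conj_ee, Complex.conj_ofReal]
    have e : (t : ℝ) * ((((v i : ℤ) - (v j : ℤ) : ℤ) : ℝ) / K) =
        v i * ((t : ℝ) / K) + -(v j * ((t : ℝ) / K)) := by
      push_cast
      ring
    rw [e, ee_add]
    push_cast
    ring
  have h2 : ((∑ t ∈ range K, ‖∑ i ∈ s, ((w i : ℝ) : ℂ) * ee (v i * ((t : ℝ) / K))‖ ^ 2 : ℝ) : ℂ) =
      ((K * ∑ i ∈ s, ∑ i' ∈ s, (if v i = v i' then w i * w i' else 0) : ℝ) : ℂ) := by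
    rw [Complex.ofReal_sum, Finset.sum_congr rfl h1, Finset.sum_comm]
    have h3 : ∀ i ∈ s, ∑ t ∈ range K, ∑ j ∈ s,
        (((w i * w j : ℝ) : ℂ)) * ee (t * ((((v i : ℤ) - (v j : ℤ) : ℤ) : ℝ) / K)) =
        K * ((∑ j ∈ s, (if v i = v j then w i * w j else 0) : ℝ) : ℂ) := by
      intro i hi
      rw [Finset.sum_comm, Complex.ofReal_sum, Finset.mul_sum]
      refine Finset.sum_congr rfl fun j hj => ?_
      rw [← Finset.mul_sum, sum_ee_div K hK]
      have hi' := hv i hi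
      have hj' := hv j hj
      have hiff : ((K : ℤ) ∣ (v i : ℤ) - (v j : ℤ)) ↔ v i = v j := by
        constructor
        · intro h
          have h4 : |(v i : ℤ) - (v j : ℤ)| < K := by
            rw [abs_lt]
            constructor <;> omega
          have h5 := Int.eq_zero_of_abs_lt_dvd h h4
          omega
        · intro h
          rw [h, sub_self]
          exact dvd_zero _
      by_cases h : v i = v j
      · rw [if_pos (hiff.2 h), if_pos h]
        ring
      · rw [if_neg (fun h' => h (hiff.1 h')), if_neg h]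
        simp
    rw [Finset.sum_congr rfl h3, ← Finset.mul_sum]
    push_cast
    rfl
  exact_mod_cast h2

end GL89
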