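import Pool.Agent.LibGL89.Defs
import Pool.Agent.LibGL89.MT

/-!
Row RM3 (MEDIUM). Romanov: the sum of `1/d` over the squarefree `d` with small order.

Every `d ∈ D` is squarefree and divides `Π = ∏_{m=1}^{n} (b^m - 1)` (`b^(od b d) = 1` mod `d`), so
`∑_{d ∈ D} 1/d ≤ ∑_{d ∣ Π squarefree} 1/d = ∏_{p ∣ Π} (1 + 1/p)`.  `Π ≤ b^(n²)`, so it has at most `n² log_2 b` prime factors; those `> n²` contribute
`≤ (1 + 1/n²)^(n² log_2 b) ≤ exp (log_2 b)`; those `≤ n²` contribute `≤ exp (∑_{p ≤ n²} 1/p) ≤ C log (n² + 1)`-ish by Mertens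
(`GL89.mertens` in MT.lean), small `n` by the constant.
-/

set_option autoImplicit false

namespace GL89

open Finset Pool.Agent.LibHG31

private theorem RM3_dvd {b d n : ℕ} (hb : 2 ≤ b) (hc : d.Coprime b)
    (hn : od b d ≤ n) : d ∣ ∏ m ∈ Finset.Icc 1 n, (b ^ m - 1) := by
  have h1 : 0 < od b d := by
    have h2 : orderOf ((ZMod.unitOfCoprime b hc.symm : (ZMod d)ˣ) : ZMod d) =
        orderOf (ZMod.unitOfCoprime b hc.symm) := orderOf_units
    rw [ZMod.coe_unitOfCoprime] at h2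
    unfold od
    rw [h2]
    exact orderOf_pos _
  have h3 : ((b ^ od b d : ℕ) : ZMod d) = ((1 : ℕ) : ZMod d) := by
    rw [Nat.cast_pow, Nat.cast_one]
    exact pow_orderOf_eq_one _
  have h4 : b ^ od b d ≡ 1 [MOD d] := (ZMod.natCast_eq_natCast_iff _ _ _).1 h3
  have h5 : d ∣ b ^ od b d - 1 :=
    (Nat.modEq_iff_dvd' (Nat.one_le_pow _ _ (by omega))).1 h4.symm
  exact h5.trans (Finset.dvd_prod_of_mem (fun m => b ^ m - 1) (Finset.mem_Icc.2 ⟨h1, hn⟩))

private theorem RM3_prod_le {b : ℕ} (hb : 2 ≤ b) (n : ℕ) :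
    ∏ m ∈ Finset.Icc 1 n, (b ^ m - 1) ≤ b ^ (n * n) := by
  calc ∏ m ∈ Finset.Icc 1 n, (b ^ m - 1) ≤ ∏ m ∈ Finset.Icc 1 n, b ^ m :=
        Finset.prod_le_prod' fun m _ => Nat.sub_le _ _
    _ = b ^ ∑ m ∈ Finset.Icc 1 n, m := Finset.prod_pow_eq_pow_sum _ _ _
    _ ≤ b ^ (n * n) := by
        refine Nat.pow_le_pow_right (by omega) ?_
        calc ∑ m ∈ Finset.Icc 1 n, m ≤ ∑ _m ∈ Finset.Icc 1 n, n :=
              Finset.sum_le_sum fun m hm => (Finset.mem_Icc.1 hm).2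
          _ = n * n := by simp

private theorem RM3_prod_ne {b : ℕ} (hb : 2 ≤ b) (n : ℕ) :
    ∏ m ∈ Finset.Icc 1 n, (b ^ m - 1) ≠ 0 := by
  refine Finset.prod_ne_zero_iff.2 fun m hm => ?_
  have h1 : 1 ≤ m := (Finset.mem_Icc.1 hm).1
  have h2 : b ^ 1 ≤ b ^ m := Nat.pow_le_pow_right (by omega) h1
  rw [pow_one] at h2
  omega

private theorem RM3_sum_le {N : ℕ} (D : Finset ℕ)
    (hD : ∀ d ∈ D, Squarefree d ∧ d.primeFactors ⊆ N.primeFactors) :
    ∑ d ∈ D, 1 / (d : ℝ) ≤ Real.exp (∑ p ∈ N.primeFactors, 1 / (p : ℝ)) := by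
  have h1 : ∑ d ∈ D, 1 / (d : ℝ) =
      ∑ T ∈ D.image Nat.primeFactors, ∏ p ∈ T, 1 / (p : ℝ) := by
    rw [Finset.sum_image]
    · refine Finset.sum_congr rfl fun d hd => ?_
      have h2 := Nat.prod_primeFactors_of_squarefree (hD d hd).1
      conv_lhs => rw [← h2]
      rw [Nat.cast_prod, Finset.prod_div_distrib, Finset.prod_const_one]
    · intro d hd e he hde
      have h2 := Nat.prod_primeFactors_of_squarefree (hD d hd).1
      have h3 := Nat.prod_primeFactors_of_squarefree (hD e he).1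
      have h4 : d.primeFactors = e.primeFactors := hde
      rw [← h2, ← h3, h4]
  rw [h1, Real.exp_sum]
  calc ∑ T ∈ D.image Nat.primeFactors, ∏ p ∈ T, 1 / (p : ℝ)
      ≤ ∑ T ∈ N.primeFactors.powerset, ∏ p ∈ T, 1 / (p : ℝ) := by
        refine Finset.sum_le_sum_of_subset_of_nonneg ?_ fun T _ _ =>
          Finset.prod_nonneg fun p _ => by positivity
        intro T hT
        obtain ⟨d, hd, rfl⟩ := Finset.mem_image.1 hT
        exact Finset.mem_powerset.2 (hD d hd).2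
    _ = ∏ p ∈ N.primeFactors, (1 + 1 / (p : ℝ)) := (Finset.prod_one_add _).symm
    _ ≤ ∏ p ∈ N.primeFactors, Real.exp (1 / (p : ℝ)) := by
        refine Finset.prod_le_prod (fun p _ => by positivity) fun p _ => ?_
        rw [add_comm]
        exact Real.add_one_le_exp _

theorem sum_od_le (b : ℕ) (hb : 2 ≤ b) : ∃ C : ℝ, 0 < C ∧ ∀ (n : ℕ) (D : Finset ℕ), 1 ≤ n →
    (∀ d ∈ D, 0 < d ∧ Squarefree d ∧ d.Coprime b ∧ od b d ≤ n) →
    ∑ d ∈ D, 1 / (d : ℝ) ≤ C * Real.log (n + 1) := by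
  obtain ⟨C₀, hC₀, hM⟩ := mertens
  have hl2 : 0 < Real.log 2 := Real.log_pos (by norm_num)
  refine ⟨Real.exp (C₀ + Real.log b / Real.log 2) * (2 / Real.log 2), by positivity,
    fun n D hn hD => ?_⟩
  set N := ∏ m ∈ Finset.Icc 1 n, (b ^ m - 1) with hN
  have hN0 : N ≠ 0 := RM3_prod_ne hb n
  have hsum : ∑ d ∈ D, 1 / (d : ℝ) ≤ Real.exp (∑ p ∈ N.primeFactors, 1 / (p : ℝ)) := by
    refine RM3_sum_le D fun d hd => ?_
    obtain ⟨-, h2, h3, h4⟩ := hD d hd
    exact ⟨h2, Nat.primeFactors_mono (RM3_dvd hb h3 h4) hN0⟩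
  have hnR : (1 : ℝ) ≤ (n : ℝ) := by exact_mod_cast hn
  -- the number of prime factors
  have hcard : ((N.primeFactors.card : ℕ) : ℝ) * Real.log 2 ≤ (n : ℝ) ^ 2 * Real.log b := by
    have h1 : 2 ^ N.primeFactors.card ≤ b ^ (n * n) := by
      calc 2 ^ N.primeFactors.card = ∏ _p ∈ N.primeFactors, 2 := by
            rw [Finset.prod_const]
        _ ≤ ∏ p ∈ N.primeFactors, p :=
            Finset.prod_le_prod' fun p hp => (Nat.prime_of_mem_primeFactors hp).two_le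
        _ ≤ N := Nat.le_of_dvd (Nat.pos_of_ne_zero hN0) (Nat.prod_primeFactors_dvd N)
        _ ≤ b ^ (n * n) := RM3_prod_le hb n
    have h2 : ((2 : ℝ)) ^ N.primeFactors.card ≤ (b : ℝ) ^ (n * n) := by exact_mod_cast h1
    have h3 := Real.log_le_log (by positivity) h2
    rw [Real.log_pow, Real.log_pow] at h3
    push_cast at h3
    nlinarith [h3]
  -- the large primes
  have hbig : ∑ p ∈ N.primeFactors.filter (fun p => ¬ p < n ^ 2 + 1), 1 / (p : ℝ) ≤
      Real.log b / Real.log 2 := by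
    calc ∑ p ∈ N.primeFactors.filter (fun p => ¬ p < n ^ 2 + 1), 1 / (p : ℝ)
        ≤ ∑ _p ∈ N.primeFactors.filter (fun p => ¬ p < n ^ 2 + 1), 1 / (n : ℝ) ^ 2 := by
          refine Finset.sum_le_sum fun p hp => ?_
          have h1 : ¬ p < n ^ 2 + 1 := (Finset.mem_filter.1 hp).2
          have h2 : ((n ^ 2 : ℕ) : ℝ) ≤ (p : ℝ) := by
            exact_mod_cast (by omega : n ^ 2 ≤ p)
          push_cast at h2
          exact one_div_le_one_div_of_le (by positivity) h2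
      _ = ((N.primeFactors.filter (fun p => ¬ p < n ^ 2 + 1)).card : ℝ) * (1 / (n : ℝ) ^ 2) := by
          rw [Finset.sum_const, nsmul_eq_mul]
      _ ≤ (N.primeFactors.card : ℝ) * (1 / (n : ℝ) ^ 2) := by
          refine mul_le_mul_of_nonneg_right ?_ (by positivity)
          exact_mod_cast Finset.card_filter_le _ _
      _ ≤ Real.log b / Real.log 2 := by
          rw [mul_one_div, div_le_div_iff₀ (by positivity) hl2]
          linarith [hcard]
  -- the small primes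
  have hsmall : ∑ p ∈ N.primeFactors.filter (fun p => p < n ^ 2 + 1), 1 / (p : ℝ) ≤
      Real.log (Real.log ((n ^ 2 : ℕ) : ℝ)) + C₀ := by
    have h1 := (abs_le.1 (hM (n ^ 2))).2
    refine le_trans ?_ (by linarith : ∑ p ∈ (range (n ^ 2 + 1)).filter Nat.Prime, 1 / (p : ℝ) ≤
      Real.log (Real.log ((n ^ 2 : ℕ) : ℝ)) + C₀)
    refine Finset.sum_le_sum_of_subset_of_nonneg ?_ fun p _ _ => by positivity
    intro p hp
    obtain ⟨h2, h3⟩ := Finset.mem_filter.1 hp
    exact Finset.mem_filter.2 ⟨Finset.mem_range.2 h3, Nat.prime_of_mem_primeFactors h2⟩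
  have htot : ∑ p ∈ N.primeFactors, 1 / (p : ℝ) ≤
      Real.log (Real.log ((n ^ 2 : ℕ) : ℝ)) + (C₀ + Real.log b / Real.log 2) := by
    rw [← Finset.sum_filter_add_sum_filter_not N.primeFactors (fun p => p < n ^ 2 + 1)]
    linarith
  have hll : Real.exp (Real.log (Real.log ((n ^ 2 : ℕ) : ℝ))) ≤
      2 / Real.log 2 * Real.log (n + 1) := by
    have h1 : Real.log 2 ≤ Real.log ((n : ℝ) + 1) :=
      Real.log_le_log (by norm_num) (by linarith)
    have hl1 : Real.log 2 ≤ 1 := by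
      have := Real.log_two_lt_d9
      linarith
    rcases Nat.lt_or_ge n 2 with h2 | h2
    · have h3 : n = 1 := by omega
      subst h3
      simp only [Nat.one_pow, Nat.cast_one, Real.log_one, Real.log_zero, Real.exp_zero]
      rw [div_mul_eq_mul_div, le_div_iff₀ hl2]
      push_cast at h1
      linarith
    · have h3 : (1 : ℝ) < ((n ^ 2 : ℕ) : ℝ) := by
        exact_mod_cast (by nlinarith : 1 < n ^ 2)
      rw [Real.exp_log (Real.log_pos h3), Nat.cast_pow, Real.log_pow, div_mul_eq_mul_div,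
        le_div_iff₀ hl2]
      have h4 : Real.log (n : ℝ) ≤ Real.log ((n : ℝ) + 1) :=
        Real.log_le_log (by linarith) (by linarith)
      have h5 : 0 ≤ Real.log (n : ℝ) := Real.log_nonneg hnR
      push_cast
      nlinarith [mul_le_mul h4 hl1 hl2.le (h5.trans h4)]
  calc ∑ d ∈ D, 1 / (d : ℝ) ≤ Real.exp (∑ p ∈ N.primeFactors, 1 / (p : ℝ)) := hsum
    _ ≤ Real.exp (Real.log (Real.log ((n ^ 2 : ℕ) : ℝ)) + (C₀ + Real.log b / Real.log 2)) :=
        Real.exp_le_exp.2 htot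
    _ = Real.exp (C₀ + Real.log b / Real.log 2) *
          Real.exp (Real.log (Real.log ((n ^ 2 : ℕ) : ℝ))) := by
        rw [Real.exp_add, mul_comm]
    _ ≤ Real.exp (C₀ + Real.log b / Real.log 2) * (2 / Real.log 2 * Real.log (n + 1)) :=
        mul_le_mul_of_nonneg_left hll (Real.exp_pos _).le
    _ = _ := by ring

end GL89
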