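import Pool.Agent.LibGL89.RM2
import Pool.Agent.LibGL89.RM3

/-!
Row RM4 (SHORT/MEDIUM). Romanov's sum converges.

Dyadic blocks `2^i ≤ od d < 2^(i+1)`: each block contributes `≤ 2^(-i) C log (2^(i+1) + 1) ≤ 2^(-i) C (i+2)`.
-/

set_option autoImplicit false

namespace GL89

open Finset Pool.Agent.LibHG31

private theorem RM4_geom (N : ℕ) :
    ∑ i ∈ range N, ((i : ℝ) + 2) / 2 ^ i = 6 - (2 * N + 6) / 2 ^ N := by
  induction N with
  | zero => simp
  | succ N ih =>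
    rw [sum_range_succ, ih, pow_succ]
    push_cast
    field_simp
    ring

private theorem RM4_log (i : ℕ) : Real.log (((2 ^ (i + 1) : ℕ) : ℝ) + 1) ≤ (i : ℝ) + 2 := by
  have h1 : ((2 ^ (i + 1) : ℕ) : ℝ) + 1 ≤ 2 ^ (i + 2) := by
    push_cast
    have : (1 : ℝ) ≤ 2 ^ (i + 1) := one_le_pow₀ (by norm_num)
    rw [pow_succ (2 : ℝ) (i + 1)]
    linarith
  have h0 : (0 : ℝ) < ((2 ^ (i + 1) : ℕ) : ℝ) + 1 := by positivity
  calc Real.log (((2 ^ (i + 1) : ℕ) : ℝ) + 1) ≤ Real.log (2 ^ (i + 2)) := Real.log_le_log h0 h1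
    _ = ((i + 2 : ℕ) : ℝ) * Real.log 2 := by rw [Real.log_pow]
    _ ≤ ((i + 2 : ℕ) : ℝ) * 1 := by
        apply mul_le_mul_of_nonneg_left _ (Nat.cast_nonneg _)
        have := Real.log_two_lt_d9
        linarith
    _ = (i : ℝ) + 2 := by push_cast; ring

theorem romanov (b : ℕ) (hb : 2 ≤ b) : ∃ C : ℝ, 0 < C ∧ ∀ D : Finset ℕ,
    (∀ d ∈ D, 0 < d ∧ Squarefree d ∧ d.Coprime b) → ∑ d ∈ D, 1 / ((d : ℝ) * od b d) ≤ C := by
  obtain ⟨C, hC, hs⟩ := sum_od_le b hb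
  refine ⟨C * 6, by positivity, fun D hD => ?_⟩
  have hmaps : ∀ d ∈ D, Nat.log 2 (od b d) ∈ range (D.sup (od b) + 1) := by
    intro d hd
    rw [mem_range]
    calc Nat.log 2 (od b d) ≤ od b d := Nat.log_le_self 2 _
      _ ≤ D.sup (od b) := le_sup (f := od b) hd
      _ < D.sup (od b) + 1 := Nat.lt_succ_self _
  rw [← sum_fiberwise_of_maps_to hmaps]
  have hblock : ∀ i ∈ range (D.sup (od b) + 1),
      ∑ d ∈ D with Nat.log 2 (od b d) = i, 1 / ((d : ℝ) * od b d) ≤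
        C * (((i : ℝ) + 2) / 2 ^ i) := by
    intro i _
    have h1 : ∀ d ∈ D.filter (fun d => Nat.log 2 (od b d) = i),
        1 / ((d : ℝ) * od b d) ≤ (1 / 2 ^ i) * (1 / (d : ℝ)) := by
      intro d hd
      rw [mem_filter] at hd
      obtain ⟨hd, hi⟩ := hd
      obtain ⟨h0, _, hc⟩ := hD d hd
      have hpos := od_pos b d h0 hc
      have h2 : 2 ^ i ≤ od b d := by
        rw [← hi]
        exact Nat.pow_log_le_self 2 hpos.ne'
      have h3 : (2 : ℝ) ^ i ≤ (od b d : ℝ) := by exact_mod_cast h2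
      have h4 : (0 : ℝ) < d := by exact_mod_cast h0
      rw [← one_div_mul_one_div, mul_comm]
      apply mul_le_mul_of_nonneg_right _ (by positivity)
      exact one_div_le_one_div_of_le (by positivity) h3
    have h2 := hs (2 ^ (i + 1)) (D.filter (fun d => Nat.log 2 (od b d) = i))
      (Nat.one_le_two_pow) (by
        intro d hd
        rw [mem_filter] at hd
        obtain ⟨hd, hi⟩ := hd
        obtain ⟨h0, hsq, hc⟩ := hD d hd
        refine ⟨h0, hsq, hc, ?_⟩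
        rw [← hi]
        exact (Nat.lt_pow_succ_log_self (by norm_num) _).le)
    calc ∑ d ∈ D with Nat.log 2 (od b d) = i, 1 / ((d : ℝ) * od b d)
        ≤ ∑ d ∈ D with Nat.log 2 (od b d) = i, (1 / 2 ^ i) * (1 / (d : ℝ)) := sum_le_sum h1
      _ = (1 / 2 ^ i) * ∑ d ∈ D with Nat.log 2 (od b d) = i, 1 / (d : ℝ) := by rw [mul_sum]
      _ ≤ (1 / 2 ^ i) * (C * Real.log (((2 ^ (i + 1) : ℕ) : ℝ) + 1)) :=
          mul_le_mul_of_nonneg_left h2 (by positivity)
      _ ≤ (1 / 2 ^ i) * (C * ((i : ℝ) + 2)) := by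
          apply mul_le_mul_of_nonneg_left _ (by positivity)
          exact mul_le_mul_of_nonneg_left (RM4_log i) hC.le
      _ = C * (((i : ℝ) + 2) / 2 ^ i) := by ring
  refine (sum_le_sum hblock).trans ?_
  rw [← mul_sum, RM4_geom]
  apply mul_le_mul_of_nonneg_left _ hC.le
  have : (0 : ℝ) ≤ (2 * ((D.sup (od b) + 1 : ℕ) : ℝ) + 6) / 2 ^ (D.sup (od b) + 1) := by positivity
  linarith

end GL89
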