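import Pool.Agent.LibGL89.RM1
import Pool.Agent.LibGL89.RM4

/-!
Row RM5 (MEDIUM). The average of `SS` over `u b^x - v b^y`.

`|u b^x - v b^y| ≤ 2 b^(3L) ≤ b^(4L)` (`L ≥ 1`, `b ≥ 2`).  `SS_le`, exchange: the sum is `≤ C ∑_{d ∈ DD b L} (1/d) #{(x,y) : d ∣ ..}`
`≤ C ∑_{d ∈ DD b L} (1/d) L (L/od b (d/g) + 1)`, `g = gcd(d, |u|)` (`count_xy`).  `d ↦ (g, d/g)` is injective with values in
`(squarefree divisors of |u| prime to b) × (squarefree numbers prime to b)`, `1/d = (1/g)(1/(d/g))`: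
`∑_d (1/d) L²/od(d/g) ≤ L² ∑_g 1/g * ∑_{d'} 1/(d' od d') ≤ L² SS b u * C` (`romanov`; `∑_{g ∣ |u|, squarefree, prime to b} 1/g = SS b u`: product
formula as in RM1, or `≤`), and `∑_d (1/d) L ≤ L²` (`sum_DD`), `SS b u ≥ 1`.
(`d' = d/g` runs over a finite set `D` of squarefree numbers prime to `b`; `DD` is closed under divisors, but any finite set will do.)
-/

set_option autoImplicit false

namespace GL89

open Finset Pool.Agent.LibHG31

private theorem RM5_sumG (b m : ℕ) (hm : m ≠ 0) (G : Finset ℕ)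
    (hG : ∀ g ∈ G, g ∣ m ∧ Squarefree g ∧ g.Coprime b) :
    ∑ g ∈ G, 1 / (g : ℝ) ≤ ∏ p ∈ m.primeFactors.filter (fun p => ¬ p ∣ b), (1 + 1 / (p : ℝ)) := by
  rw [Finset.prod_one_add]
  have h1 : ∀ g ∈ G, 1 / (g : ℝ) = ∏ p ∈ g.primeFactors, 1 / (p : ℝ) := by
    intro g hg
    have h2 := Nat.prod_primeFactors_of_squarefree (hG g hg).2.1
    have h3 : (g : ℝ) = ∏ p ∈ g.primeFactors, (p : ℝ) := by
      conv_lhs => rw [← h2]
      push_cast
      rfl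
    rw [Finset.prod_div_distrib, ← h3, Finset.prod_const_one]
  have hinj : Set.InjOn Nat.primeFactors (G : Set ℕ) := by
    intro x hx y hy hxy
    have h2 := Nat.prod_primeFactors_of_squarefree (hG x hx).2.1
    have h3 := Nat.prod_primeFactors_of_squarefree (hG y hy).2.1
    rw [← h2, ← h3, hxy]
  rw [Finset.sum_congr rfl h1, ← Finset.sum_image (f := fun S : Finset ℕ => ∏ p ∈ S, 1 / (p : ℝ)) hinj]
  refine Finset.sum_le_sum_of_subset_of_nonneg ?_ ?_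
  · intro S hS
    obtain ⟨g, hg, rfl⟩ := Finset.mem_image.1 hS
    rw [Finset.mem_powerset]
    intro p hp
    have hp' := Nat.mem_primeFactors.1 hp
    rw [Finset.mem_filter, Nat.mem_primeFactors]
    refine ⟨⟨hp'.1, hp'.2.1.trans (hG g hg).1, hm⟩, fun hpb => ?_⟩
    exact hp'.1.one_lt.ne' (Nat.Coprime.eq_one_of_dvd
      (Nat.Coprime.coprime_dvd_left hp'.2.1 (hG g hg).2.2) hpb)
  · intro S _ _
    exact Finset.prod_nonneg fun p _ => by positivity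

private theorem RM5_S (b L : ℕ) (hb : 2 ≤ b) (u : ℤ) (hu : u ≠ 0) (C : ℝ)
    (hC : ∀ D : Finset ℕ, (∀ d ∈ D, 0 < d ∧ Squarefree d ∧ d.Coprime b) →
      ∑ d ∈ D, 1 / ((d : ℝ) * od b d) ≤ C) :
    ∑ d ∈ DD b L, 1 / ((d : ℝ) * od b (d / Nat.gcd d u.natAbs)) ≤ SS b u * C := by
  have hu' : u.natAbs ≠ 0 := Int.natAbs_ne_zero.2 hu
  set m := u.natAbs with hm
  have hg0 : ∀ d, 0 < Nat.gcd d m := fun d => Nat.gcd_pos_of_pos_right _ (Nat.pos_of_ne_zero hu')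
  have hmul : ∀ d, Nat.gcd d m * (d / Nat.gcd d m) = d := fun d =>
    Nat.mul_div_cancel' (Nat.gcd_dvd_left d m)
  set G := (DD b L).image fun d => Nat.gcd d m with hG
  set D := (DD b L).image fun d => d / Nat.gcd d m with hD
  have hGp : ∀ g ∈ G, g ∣ m ∧ Squarefree g ∧ g.Coprime b := by
    intro g hg
    obtain ⟨d, hd, rfl⟩ := Finset.mem_image.1 hg
    have h1 := mem_DD b L d hb hd
    exact ⟨Nat.gcd_dvd_right _ _, h1.2.1.squarefree_of_dvd (Nat.gcd_dvd_left _ _),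
      Nat.Coprime.coprime_dvd_left (Nat.gcd_dvd_left _ _) h1.2.2⟩
  have hDp : ∀ d ∈ D, 0 < d ∧ Squarefree d ∧ d.Coprime b := by
    intro d' hd'
    obtain ⟨d, hd, rfl⟩ := Finset.mem_image.1 hd'
    have h1 := mem_DD b L d hb hd
    have hdv : d / Nat.gcd d m ∣ d := ⟨Nat.gcd d m, by rw [mul_comm, hmul d]⟩
    exact ⟨Nat.pos_of_dvd_of_pos hdv h1.1, h1.2.1.squarefree_of_dvd hdv,
      Nat.Coprime.coprime_dvd_left hdv h1.2.2⟩
  have hsum : ∑ d ∈ DD b L, 1 / ((d : ℝ) * od b (d / Nat.gcd d m)) ≤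
      ∑ q ∈ G ×ˢ D, 1 / (q.1 : ℝ) * (1 / ((q.2 : ℝ) * od b q.2)) := by
    have hinj : Set.InjOn (fun d => (Nat.gcd d m, d / Nat.gcd d m)) (DD b L : Set ℕ) := by
      intro x _ y _ hxy
      simp only [Prod.mk.injEq] at hxy
      rw [← hmul x, ← hmul y, hxy.2, hxy.1]
    have h1 : ∀ d ∈ DD b L, 1 / ((d : ℝ) * od b (d / Nat.gcd d m)) =
        1 / ((Nat.gcd d m : ℕ) : ℝ) * (1 / (((d / Nat.gcd d m : ℕ) : ℝ) * od b (d / Nat.gcd d m))) := by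
      intro d _
      have h2 : (d : ℝ) = (Nat.gcd d m : ℕ) * ((d / Nat.gcd d m : ℕ) : ℝ) := by
        exact_mod_cast (hmul d).symm
      rw [div_mul_div_comm, one_mul, ← mul_assoc, ← h2]
    rw [Finset.sum_congr rfl h1, ← Finset.sum_image
      (f := fun q : ℕ × ℕ => 1 / (q.1 : ℝ) * (1 / ((q.2 : ℝ) * od b q.2))) hinj]
    refine Finset.sum_le_sum_of_subset_of_nonneg ?_ ?_
    · intro q hq
      obtain ⟨d, hd, rfl⟩ := Finset.mem_image.1 hq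
      exact Finset.mem_product.2 ⟨Finset.mem_image_of_mem _ hd, Finset.mem_image_of_mem _ hd⟩
    · intro q _ _
      positivity
  refine hsum.trans ?_
  rw [Finset.sum_product]
  dsimp only
  rw [← Finset.sum_mul_sum]
  exact mul_le_mul (RM5_sumG b m hu' G hGp) (hC D hDp)
    (Finset.sum_nonneg fun _ _ => by positivity) (zero_le_one.trans (SS_one b u))

theorem SS_avg (b : ℕ) (hb : 2 ≤ b) : ∃ C : ℝ, 0 < C ∧ ∀ (L : ℕ) (u v : ℤ), 1 ≤ L → u ≠ 0 → v ≠ 0 →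
    u.natAbs ≤ b ^ (2 * L) → v.natAbs ≤ b ^ (2 * L) →
    ∑ p ∈ (range L ×ˢ range L).filter (fun p : ℕ × ℕ => u * (b : ℤ) ^ p.1 - v * (b : ℤ) ^ p.2 ≠ 0),
      SS b (u * (b : ℤ) ^ p.1 - v * (b : ℤ) ^ p.2) ≤ C * SS b u * (L : ℝ) ^ 2 := by
  obtain ⟨C1, hC1, hSS⟩ := SS_le b hb
  obtain ⟨C2, hC2, hrom⟩ := romanov b hb
  refine ⟨C1 * (C2 + 1), by positivity, fun L u v hL hu hv hub hvb => ?_⟩
  set F := (range L ×ˢ range L).filter
    (fun p : ℕ × ℕ => u * (b : ℤ) ^ p.1 - v * (b : ℤ) ^ p.2 ≠ 0) with hF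
  have hb0 : 0 < b := by omega
  have hL1 : (1 : ℝ) ≤ L := by exact_mod_cast hL
  -- the bound for the size
  have hsize : ∀ p ∈ F, (u * (b : ℤ) ^ p.1 - v * (b : ℤ) ^ p.2).natAbs ≤ b ^ (4 * L) := by
    intro p hp
    rw [hF, Finset.mem_filter, Finset.mem_product, Finset.mem_range, Finset.mem_range] at hp
    have e : ∀ (w : ℤ) (x : ℕ), w.natAbs ≤ b ^ (2 * L) → x < L →
        (w * (b : ℤ) ^ x).natAbs ≤ b ^ (2 * L) * b ^ (L - 1) := by
      intro w x hw hx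
      rw [Int.natAbs_mul, Int.natAbs_pow, Int.natAbs_natCast]
      exact Nat.mul_le_mul hw (Nat.pow_le_pow_right hb0 (by omega))
    have h1 := e u p.1 hub hp.1.1
    have h2 := e v p.2 hvb hp.1.2
    have h3 := Int.natAbs_sub_le (u * (b : ℤ) ^ p.1) (v * (b : ℤ) ^ p.2)
    calc (u * (b : ℤ) ^ p.1 - v * (b : ℤ) ^ p.2).natAbs
        ≤ b ^ (2 * L) * b ^ (L - 1) * 2 := by omega
      _ ≤ b ^ (2 * L) * b ^ (L - 1) * b := Nat.mul_le_mul_left _ hb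
      _ = b ^ (2 * L + (L - 1) + 1) := by rw [← pow_add, ← pow_succ]
      _ ≤ b ^ (4 * L) := Nat.pow_le_pow_right hb0 (by omega)
  -- exchange
  have hex : ∑ p ∈ F, ∑ d ∈ (DD b L).filter
      (fun d : ℕ => (d : ℤ) ∣ u * (b : ℤ) ^ p.1 - v * (b : ℤ) ^ p.2), 1 / (d : ℝ) =
      ∑ d ∈ DD b L, ((F.filter
        (fun p : ℕ × ℕ => (d : ℤ) ∣ u * (b : ℤ) ^ p.1 - v * (b : ℤ) ^ p.2)).card : ℝ) * (1 / (d : ℝ)) := by
    simp_rw [Finset.sum_filter]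
    rw [Finset.sum_comm]
    refine Finset.sum_congr rfl fun d _ => ?_
    rw [← Finset.sum_filter, Finset.sum_const, nsmul_eq_mul]
  have hcount : ∀ d ∈ DD b L, ((F.filter
      (fun p : ℕ × ℕ => (d : ℤ) ∣ u * (b : ℤ) ^ p.1 - v * (b : ℤ) ^ p.2)).card : ℝ) * (1 / (d : ℝ)) ≤
      (L : ℝ) ^ 2 * (1 / ((d : ℝ) * od b (d / Nat.gcd d u.natAbs))) + L * (1 / (d : ℝ)) := by
    intro d hd
    have h1 := mem_DD b L d hb hd
    have h2 := count_xy b L d hb h1.1 h1.2.1 h1.2.2 u v hu hv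
    have h3 : ((F.filter
      (fun p : ℕ × ℕ => (d : ℤ) ∣ u * (b : ℤ) ^ p.1 - v * (b : ℤ) ^ p.2)).card : ℝ) ≤
        ((range L ×ˢ range L).filter
          (fun p : ℕ × ℕ => (d : ℤ) ∣ u * (b : ℤ) ^ p.1 - v * (b : ℤ) ^ p.2)).card := by
      exact_mod_cast Finset.card_le_card (Finset.filter_subset_filter _ (Finset.filter_subset _ _))
    have h4 : (0 : ℝ) < d := by exact_mod_cast h1.1
    calc _ ≤ (L * (L / (od b (d / Nat.gcd d u.natAbs) : ℝ) + 1)) * (1 / (d : ℝ)) :=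
          mul_le_mul_of_nonneg_right (h3.trans h2) (by positivity)
      _ = _ := by
        rw [div_eq_mul_inv, div_eq_mul_inv, div_eq_mul_inv, mul_inv]
        ring
  calc ∑ p ∈ F, SS b (u * (b : ℤ) ^ p.1 - v * (b : ℤ) ^ p.2)
      ≤ ∑ p ∈ F, C1 * ∑ d ∈ (DD b L).filter
          (fun d : ℕ => (d : ℤ) ∣ u * (b : ℤ) ^ p.1 - v * (b : ℤ) ^ p.2), 1 / (d : ℝ) :=
        Finset.sum_le_sum fun p hp => hSS L _ hL (Finset.mem_filter.1 hp).2 (hsize p hp)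
    _ = C1 * ∑ d ∈ DD b L, ((F.filter
        (fun p : ℕ × ℕ => (d : ℤ) ∣ u * (b : ℤ) ^ p.1 - v * (b : ℤ) ^ p.2)).card : ℝ) * (1 / (d : ℝ)) := by
        rw [← Finset.mul_sum, hex]
    _ ≤ C1 * ∑ d ∈ DD b L, ((L : ℝ) ^ 2 * (1 / ((d : ℝ) * od b (d / Nat.gcd d u.natAbs))) +
          L * (1 / (d : ℝ))) :=
        mul_le_mul_of_nonneg_left (Finset.sum_le_sum hcount) hC1.le
    _ = C1 * ((L : ℝ) ^ 2 * ∑ d ∈ DD b L, 1 / ((d : ℝ) * od b (d / Nat.gcd d u.natAbs)) +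
          L * ∑ d ∈ DD b L, 1 / (d : ℝ)) := by
        rw [Finset.sum_add_distrib, Finset.mul_sum, Finset.mul_sum]
    _ ≤ C1 * ((L : ℝ) ^ 2 * (SS b u * C2) + L * L) := by
        refine mul_le_mul_of_nonneg_left (add_le_add ?_ ?_) hC1.le
        · exact mul_le_mul_of_nonneg_left (RM5_S b L hb u hu C2 hrom) (by positivity)
        · exact mul_le_mul_of_nonneg_left (sum_DD b L hL) (by positivity)
    _ ≤ C1 * (C2 + 1) * SS b u * (L : ℝ) ^ 2 := by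
        have h1 := SS_one b u
        have h2 : (L : ℝ) * L ≤ SS b u * (L : ℝ) ^ 2 := by
          have : 0 ≤ (L : ℝ) ^ 2 := by positivity
          nlinarith
        nlinarith [mul_le_mul_of_nonneg_left h2 hC1.le]

end GL89
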