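import Pool.Agent.LibGL89.SV1
import Pool.Agent.LibSV42.FL

/-!
Row SV2 (MEDIUM). The sieve upper bound for pairs of primes `A + W m`, `A + W m + h`.

`Pool.Agent.LibFL42.FU 2` (LibSV42/FL.lean; `Loc`, `mn` in LibSV42/Defs.lean) gives `C, P0`; take `P = primes in [max P0 3, z]`, `p ∤ b`, `z = Nat.sqrt Y`,
`f p x = if (p : ℤ) ∣ x ∨ (p : ℤ) ∣ x + h then 0 else 1`: periodic, in `[0,1]`, `mn p (f p) = 1 - 1/p` if `p ∣ h`, `1 - 2/p` otherwise (count the residues), so
`Loc 2 P f`.  If both numbers are primes `> z` then `∏_{p ∈ P} f p (A + W m) = 1`; the `m` with `0 < A + W m ≤ z` or `0 < A + W m + h ≤ z` are at most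
`2 (z + 1)` (`W ≥ 1`).  `FU` (with `M = Y`, `P.filter (· ≤ Y) = P`) and `prod_le` (with `z`, `log z ≥ (log Y)/4`-ish for `Y ≥ 16`; small `Y` trivially by the constant, since
`SS ≥ 1` and the count is `≤ Y`): `≤ C Y SS/(log Y)^2 + 2 (sqrt Y + 1)`, and `sqrt Y ≤ C Y/(log Y)^2`.
-/

set_option autoImplicit false

namespace GL89

open Finset Pool.Agent.LibHG31

open Classical in
/-- the local function -/
private noncomputable def SV2_f (h : ℤ) (p : ℕ) (x : ℤ) : ℝ :=
  if (p : ℤ) ∣ x ∨ (p : ℤ) ∣ x + h then 0 else 1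

private theorem SV2_nn (h : ℤ) (p : ℕ) (x : ℤ) : 0 ≤ SV2_f h p x := by
  unfold SV2_f
  split_ifs
  · exact le_rfl
  · exact zero_le_one

private theorem SV2_le (h : ℤ) (p : ℕ) (x : ℤ) : SV2_f h p x ≤ 1 := by
  unfold SV2_f
  split_ifs
  · exact zero_le_one
  · exact le_rfl

private theorem SV2_per (h : ℤ) (p : ℕ) : Function.Periodic (SV2_f h p) (p : ℤ) := by
  intro x
  have h1 : (p : ℤ) ∣ x + p ↔ (p : ℤ) ∣ x := by
    rw [Int.dvd_add_left (dvd_refl _)]
  have h2 : (p : ℤ) ∣ x + p + h ↔ (p : ℤ) ∣ x + h := by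
    rw [show x + p + h = x + h + p by ring, Int.dvd_add_left (dvd_refl _)]
  unfold SV2_f
  simp only [h1, h2]

private theorem SV2_mn (h : ℤ) {p : ℕ} (hp : p.Prime) :
    Pool.Agent.LibFL42.mn p (SV2_f h p) =
      if (p : ℤ) ∣ h then 1 - 1 / (p : ℝ) else 1 - 2 / (p : ℝ) := by
  classical
  have hp0 : (p : ℝ) ≠ 0 := by exact_mod_cast hp.ne_zero
  have hpZ : (0 : ℤ) < p := by exact_mod_cast hp.pos
  obtain ⟨r, hr⟩ : ∃ r : ℕ, (r : ℤ) = (-h) % p :=
    ⟨((-h) % p).toNat, Int.toNat_of_nonneg (Int.emod_nonneg _ hpZ.ne')⟩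
  have hrp : r < p := by
    have := Int.emod_lt_of_pos (-h) hpZ
    omega
  have h0 : ∀ x ∈ range p, ((p : ℤ) ∣ (x : ℤ) ↔ x = 0) := by
    intro x hx
    rw [mem_range] at hx
    constructor
    · intro hd
      exact Nat.eq_zero_of_dvd_of_lt (by exact_mod_cast hd) hx
    · rintro rfl
      simp
  have hh : ∀ x ∈ range p, ((p : ℤ) ∣ (x : ℤ) + h ↔ x = r) := by
    intro x hx
    rw [mem_range] at hx
    have h1 : (p : ℤ) ∣ (x : ℤ) + h ↔ (x : ℤ) % p = (-h) % p := by
      rw [show (x : ℤ) + h = -((-h) - x) by ring, dvd_neg]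
      exact (Int.modEq_iff_dvd).symm
    rw [h1, ← hr, Int.emod_eq_of_lt (by positivity) (by exact_mod_cast hx)]
    exact_mod_cast Iff.rfl
  have hsum : ∑ x ∈ range p, SV2_f h p (x : ℤ) = p - (({0, r} : Finset ℕ).card : ℝ) := by
    have h1 : ∀ x ∈ range p, SV2_f h p (x : ℤ) = 1 - (if x ∈ ({0, r} : Finset ℕ) then (1 : ℝ) else 0) := by
      intro x hx
      unfold SV2_f
      have hiff : ((p : ℤ) ∣ (x : ℤ) ∨ (p : ℤ) ∣ (x : ℤ) + h) ↔ (x = 0 ∨ x = r) :=
        or_congr (h0 x hx) (hh x hx)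
      by_cases hc : x = 0 ∨ x = r
      · rw [if_pos (hiff.2 hc), if_pos (by simpa using hc), sub_self]
      · rw [if_neg (fun h' => hc (hiff.1 h')), if_neg (by simpa using hc), sub_zero]
    rw [sum_congr rfl h1, sum_sub_distrib, sum_const, card_range, nsmul_eq_mul, mul_one, ← sum_filter,
      sum_const, nsmul_eq_mul, mul_one]
    congr 3
    ext x
    rw [mem_filter, mem_range]
    constructor
    · exact fun hx => hx.2
    · intro hx
      refine ⟨?_, hx⟩
      rcases (by simpa using hx : x = 0 ∨ x = r) with rfl | rfl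
      · exact hp.pos
      · exact hrp
  have hrd : (p : ℤ) ∣ h ↔ r = 0 := by
    have h1 := hh 0 (mem_range.2 hp.pos)
    rw [Nat.cast_zero, zero_add] at h1
    rw [h1, eq_comm]
  unfold Pool.Agent.LibFL42.mn
  rw [hsum, sub_div, div_self hp0]
  by_cases hc : (p : ℤ) ∣ h
  · rw [if_pos hc, hrd.1 hc]
    simp
  · rw [if_neg hc, card_pair (fun e => hc (hrd.2 e.symm))]
    norm_num

private theorem SV2_SS (b : ℕ) (h : ℤ) : 1 ≤ SS b h := by
  unfold SS
  refine prod_induction _ (fun x : ℝ => 1 ≤ x)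
    (fun a b ha hb => one_le_mul_of_one_le_of_one_le ha hb) le_rfl (fun p _ => ?_)
  have : (0 : ℝ) ≤ 1 / (p : ℝ) := by positivity
  linarith

/-- few terms of the progression are small -/
private theorem SV2_small (W : ℕ) (A : ℤ) (Y z : ℕ) (hW : 1 ≤ W) :
    ((range Y).filter (fun m : ℕ => (A + W * m).toNat.Prime ∧ (A + W * m).toNat ≤ z)).card ≤ z + 1 := by
  rw [← card_range (z + 1)]
  refine card_le_card_of_injOn (fun m : ℕ => (A + W * m).toNat) ?_ ?_
  · intro m hm
    have := (mem_filter.1 (mem_coe.1 hm)).2.2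
    exact mem_coe.2 (mem_range.2 (Nat.lt_succ_of_le this))
  · intro m hm m' hm' he
    have h1 := (mem_filter.1 (mem_coe.1 hm)).2.1.pos
    have h2 := (mem_filter.1 (mem_coe.1 hm')).2.1.pos
    have h3 : (A + W * m).toNat = (A + W * m').toNat := he
    have h4 : A + W * m = A + W * m' := by omega
    have h5 : (W : ℤ) * m = W * m' := by linarith
    have hW0 : (W : ℤ) ≠ 0 := by exact_mod_cast (by omega : W ≠ 0)
    exact_mod_cast mul_left_cancel₀ hW0 h5

theorem pair_sieve (b : ℕ) (hb : 2 ≤ b) : ∃ C : ℝ, 0 < C ∧ ∀ (W : ℕ) (A h : ℤ) (Y : ℕ), 1 ≤ W →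
    (∀ p : ℕ, p.Prime → p ∣ W → p ∣ b) → h ≠ 0 → 2 ≤ Y →
    (((range Y).filter (fun m : ℕ => (A + W * m).toNat.Prime ∧ (A + W * m + h).toNat.Prime)).card : ℝ) ≤
      C * Y * SS b h / Real.log Y ^ 2 := by
  classical
  obtain ⟨C1, P0, hC1, hFU⟩ := Pool.Agent.LibFL42.FU 2 (by norm_num)
  obtain ⟨C2, hC2, hprod⟩ := prod_le b (max P0 3) hb (le_max_right _ _)
  refine ⟨16 * C1 * C2 + 260, by positivity, ?_⟩
  intro W A h Y hW hWb hh hY
  have hSS := SV2_SS b h
  have hY0 : (0 : ℝ) < Y := by exact_mod_cast (by omega : 0 < Y)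
  have hlY : 0 < Real.log Y := Real.log_pos (by exact_mod_cast (by omega : 1 < Y))
  rw [le_div_iff₀ (by positivity)]
  set S := (range Y).filter (fun m : ℕ => (A + W * m).toNat.Prime ∧ (A + W * m + h).toNat.Prime) with hS
  have hSY : (S.card : ℝ) ≤ Y := by
    have h1 : S.card ≤ Y := by
      have := card_filter_le (range Y)
        (fun m : ℕ => (A + W * m).toNat.Prime ∧ (A + W * m + h).toNat.Prime)
      rwa [card_range] at this
    exact_mod_cast h1
  rcases Nat.lt_or_ge Y 4 with hY4 | hY4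
  · have h1 : Real.log Y ≤ 2 := by
      have h2 : Real.log Y ≤ Real.log 4 := Real.log_le_log hY0 (by exact_mod_cast hY4.le)
      have h3 : Real.log 4 = 2 * Real.log 2 := by
        rw [show (4 : ℝ) = 2 ^ 2 by norm_num, Real.log_pow]
        norm_num
      have h4 := Real.log_two_lt_d9
      linarith
    have h2 : Real.log Y ^ 2 ≤ 4 := by nlinarith
    calc (S.card : ℝ) * Real.log Y ^ 2 ≤ Y * 4 := by
          apply mul_le_mul hSY h2 (by positivity) hY0.le
      _ ≤ (16 * C1 * C2 + 260) * Y * SS b h := by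
          have h3 : 0 ≤ 16 * C1 * C2 := by positivity
          have h4 : (4 : ℝ) * Y ≤ (16 * C1 * C2 + 260) * Y := by
            apply mul_le_mul_of_nonneg_right _ hY0.le
            linarith
          have h5 : (16 * C1 * C2 + 260) * Y ≤ (16 * C1 * C2 + 260) * Y * SS b h :=
            le_mul_of_one_le_right (by positivity) hSS
          linarith
  · obtain ⟨z, hz⟩ : ∃ z : ℕ, z = Nat.sqrt Y := ⟨_, rfl⟩
    have hz2 : 2 ≤ z := by
      rw [hz, Nat.le_sqrt]
      omega
    have hzz : z * z ≤ Y := by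
      rw [hz]
      exact Nat.sqrt_le Y
    have hzY : z ≤ Y := le_trans (Nat.le_mul_self z) hzz
    have hYz : Y ≤ z ^ 4 := by
      have h1 : Y < (z + 1) * (z + 1) := by
        rw [hz]
        exact Nat.lt_succ_sqrt Y
      have h2 : z + 1 ≤ z * z := by nlinarith
      calc Y ≤ (z + 1) * (z + 1) := h1.le
        _ ≤ (z * z) * (z * z) := Nat.mul_le_mul h2 h2
        _ = z ^ 4 := by ring
    have hz0 : (0 : ℝ) < z := by exact_mod_cast (by omega : 0 < z)
    have hlz : 0 < Real.log z := Real.log_pos (by exact_mod_cast (by omega : 1 < z))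
    have hl4 : Real.log Y ≤ 4 * Real.log z := by
      have h1 : Real.log Y ≤ Real.log ((z : ℝ) ^ 4) := Real.log_le_log hY0 (by exact_mod_cast hYz)
      rw [Real.log_pow] at h1
      exact_mod_cast h1
    obtain ⟨P, hP⟩ : ∃ P : Finset ℕ,
        P = (range (z + 1)).filter (fun p => p.Prime ∧ max P0 3 ≤ p ∧ ¬ p ∣ b) := ⟨_, rfl⟩
    have hPm : ∀ p ∈ P, p.Prime ∧ p ≤ z ∧ P0 ≤ p ∧ ¬ p ∣ b := by
      intro p hp
      rw [hP, mem_filter, mem_range] at hp
      exact ⟨hp.2.1, by omega, le_trans (le_max_left _ _) hp.2.2.1, hp.2.2.2⟩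
    have hloc : Pool.Agent.LibFL42.Loc 2 P (SV2_f h) := by
      refine ⟨fun p hp => (hPm p hp).1, fun p _ => SV2_per h p, fun p _ n => SV2_nn h p n,
        fun p _ n => SV2_le h p n, fun p hp => ?_⟩
      rw [SV2_mn h (hPm p hp).1]
      have hp0 : (0 : ℝ) < p := by exact_mod_cast (hPm p hp).1.pos
      split_ifs
      · have h1 : 1 / (p : ℝ) ≤ 2 / p := div_le_div_of_nonneg_right (by norm_num) hp0.le
        linarith
      · linarith
    have hPW : ∀ p ∈ P, ¬ (p : ℤ) ∣ (W : ℤ) := by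
      intro p hp hd
      exact (hPm p hp).2.2.2 (hWb p (hPm p hp).1 (by exact_mod_cast hd))
    have h1 := hFU P (SV2_f h) hloc (fun p hp => (hPm p hp).2.2.1) A W hPW Y
    have hPf : P.filter (fun p => p ≤ Y) = P := by
      rw [filter_true_of_mem]
      exact fun p hp => (hPm p hp).2.1.trans hzY
    rw [hPf, prod_congr rfl (fun p hp => SV2_mn h (hPm p hp).1)] at h1
    have h2 := hprod z h hz2 hh
    rw [← hP] at h2
    -- the count
    have hcount : (S.card : ℝ) ≤ ∑ m ∈ range Y, ∏ p ∈ P, SV2_f h p (A + W * m) + 2 * (z + 1) := by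
      have hsub : S ⊆ (S.filter (fun m : ℕ => z < (A + W * m).toNat ∧ z < (A + W * m + h).toNat)) ∪
          (((range Y).filter (fun m : ℕ => (A + W * m).toNat.Prime ∧ (A + W * m).toNat ≤ z)) ∪
          ((range Y).filter (fun m : ℕ => (A + h + W * m).toNat.Prime ∧ (A + h + W * m).toNat ≤ z))) := by
        intro m hm
        have hm' := hm
        rw [hS, mem_filter] at hm'
        have e1 : A + h + W * m = A + W * m + h := by ring
        by_cases c1 : (A + W * m).toNat ≤ z
        · exact mem_union_right _ (mem_union_left _ (mem_filter.2 ⟨hm'.1, hm'.2.1, c1⟩))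
        · by_cases c2 : (A + W * m + h).toNat ≤ z
          · exact mem_union_right _ (mem_union_right _
              (mem_filter.2 ⟨hm'.1, by rw [e1]; exact hm'.2.2, by rw [e1]; exact c2⟩))
          · exact mem_union_left _ (mem_filter.2 ⟨hm, not_le.1 c1, not_le.1 c2⟩)
      have hc1 := (card_le_card hsub).trans (card_union_le _ _)
      have hc2 := card_union_le
        ((range Y).filter (fun m : ℕ => (A + W * m).toNat.Prime ∧ (A + W * m).toNat ≤ z))
        ((range Y).filter (fun m : ℕ => (A + h + W * m).toNat.Prime ∧ (A + h + W * m).toNat ≤ z))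
      have hc3 := SV2_small W A Y z hW
      have hc4 := SV2_small W (A + h) Y z hW
      have hc5 : S.card ≤
          (S.filter (fun m : ℕ => z < (A + W * m).toNat ∧ z < (A + W * m + h).toNat)).card +
            2 * (z + 1) := by omega
      have hc6 : ((S.filter (fun m : ℕ => z < (A + W * m).toNat ∧ z < (A + W * m + h).toNat)).card : ℝ) ≤
          ∑ m ∈ range Y, ∏ p ∈ P, SV2_f h p (A + W * m) := by
        rw [card_eq_sum_ones, Nat.cast_sum]
        have hsub2 : S.filter (fun m : ℕ => z < (A + W * m).toNat ∧ z < (A + W * m + h).toNat) ⊆ range Y := by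
          intro m hm
          have hm' := (mem_filter.1 hm).1
          rw [hS, mem_filter] at hm'
          exact hm'.1
        refine le_trans ?_ (sum_le_sum_of_subset_of_nonneg hsub2
          (fun m _ _ => prod_nonneg fun p _ => SV2_nn h p _))
        refine sum_le_sum fun m hm => ?_
        obtain ⟨hm1, hm2, hm3⟩ := mem_filter.1 hm
        rw [hS, mem_filter] at hm1
        obtain ⟨-, hq1, hq2⟩ := hm1
        have hone : ∀ p ∈ P, SV2_f h p (A + W * m) = 1 := by
          intro p hp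
          have key : ∀ x : ℤ, x.toNat.Prime → z < x.toNat → ¬ (p : ℤ) ∣ x := by
            intro x hx hxz hd
            have e1 : ((x.toNat : ℕ) : ℤ) = x := Int.toNat_of_nonneg (by have := hx.pos; omega)
            rw [← e1] at hd
            have e2 : p ∣ x.toNat := by exact_mod_cast hd
            have e3 := (Nat.prime_dvd_prime_iff_eq (hPm p hp).1 hx).1 e2
            have e4 := (hPm p hp).2.1
            omega
          unfold SV2_f
          rw [if_neg]
          rintro (hd | hd)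
          · exact key _ hq1 hm2 hd
          · exact key _ hq2 hm3 hd
        rw [prod_congr rfl hone, prod_const_one]
        norm_num
      have hc7 : (S.card : ℝ) ≤
          ((S.filter (fun m : ℕ => z < (A + W * m).toNat ∧ z < (A + W * m + h).toNat)).card : ℝ) +
            2 * (z + 1) := by exact_mod_cast hc5
      linarith
    have hC1' : (0 : ℝ) ≤ C1 := by linarith
    have h3 : ∑ m ∈ range Y, ∏ p ∈ P, SV2_f h p (A + W * m) ≤
        C1 * (Y * (C2 / Real.log z ^ 2 * SS b h)) :=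
      h1.trans (mul_le_mul_of_nonneg_left (mul_le_mul_of_nonneg_left h2 hY0.le) hC1')
    have h4 : Real.log Y ^ 2 ≤ 16 * Real.log z ^ 2 := by
      have e1 : Real.log Y ^ 2 ≤ (4 * Real.log z) ^ 2 := pow_le_pow_left₀ hlY.le hl4 2
      linarith
    have h5 : C1 * (Y * (C2 / Real.log z ^ 2 * SS b h)) * Real.log Y ^ 2 ≤ 16 * C1 * C2 * Y * SS b h := by
      have e1 : Real.log Y ^ 2 / Real.log z ^ 2 ≤ 16 := by
        rw [div_le_iff₀ (by positivity)]
        exact h4
      calc C1 * (Y * (C2 / Real.log z ^ 2 * SS b h)) * Real.log Y ^ 2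
          = C1 * C2 * Y * SS b h * (Real.log Y ^ 2 / Real.log z ^ 2) := by ring
        _ ≤ C1 * C2 * Y * SS b h * 16 := mul_le_mul_of_nonneg_left e1 (by positivity)
        _ = _ := by ring
    have h6 : Real.log z ≤ 2 * Real.sqrt z := by
      have e1 := Real.log_le_sub_one_of_pos (Real.sqrt_pos.2 hz0)
      have e2 : Real.log (Real.sqrt z) = Real.log z / 2 := Real.log_sqrt hz0.le
      linarith
    have h7 : Real.log Y ^ 2 ≤ 64 * z := by
      have e1 : Real.log z ^ 2 ≤ (2 * Real.sqrt z) ^ 2 := pow_le_pow_left₀ hlz.le h6 2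
      rw [mul_pow, Real.sq_sqrt hz0.le] at e1
      linarith
    have hz2' : (2 : ℝ) ≤ z := by exact_mod_cast hz2
    have h8 : (2 * ((z : ℝ) + 1)) * Real.log Y ^ 2 ≤ 256 * Y := by
      have e1 : (z : ℝ) * z ≤ Y := by exact_mod_cast hzz
      calc (2 * ((z : ℝ) + 1)) * Real.log Y ^ 2 ≤ (4 * z) * (64 * z) := by
            apply mul_le_mul (by linarith) h7 (by positivity) (by positivity)
        _ = 256 * (z * z) := by ring
        _ ≤ 256 * Y := by linarith
    calc (S.card : ℝ) * Real.log Y ^ 2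
        ≤ (C1 * (Y * (C2 / Real.log z ^ 2 * SS b h)) + 2 * (z + 1)) * Real.log Y ^ 2 := by
          apply mul_le_mul_of_nonneg_right _ (by positivity)
          linarith
      _ = C1 * (Y * (C2 / Real.log z ^ 2 * SS b h)) * Real.log Y ^ 2 +
          (2 * ((z : ℝ) + 1)) * Real.log Y ^ 2 := by ring
      _ ≤ 16 * C1 * C2 * Y * SS b h + 256 * Y := by linarith
      _ ≤ (16 * C1 * C2 + 260) * Y * SS b h := by
          have e1 : (256 : ℝ) * Y ≤ 260 * Y * SS b h := by
            have e2 : (260 : ℝ) * Y ≤ 260 * Y * SS b h := le_mul_of_one_le_right (by positivity) hSS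
            linarith
          linarith

end GL89
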