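import Pool.Agent.LibGL89.P0
import Pool.Agent.LibHG31.A2
import Pool.Agent.LibHG31.D2
import Pool.Agent.LibGL89.SV2
import Pool.Agent.LibGL89.RM5

set_option autoImplicit false

namespace GL89

open Finset Pool.Agent.LibHG31
open scoped ArithmeticFunction.vonMangoldt

private theorem p1_ev (b : ℕ) (hb : 2 ≤ b) : ∃ L0 : ℕ, ∀ L : ℕ, L0 ≤ L →
    2 * (((L + 3 : ℕ) * Real.log b) ^ 2 * ((Real.sqrt ((b : ℝ) ^ (L + 3)) + 1) *
      ((L + 3 : ℕ) * Real.log b / Real.log 2 + 1))) ≤ (b : ℝ) ^ L := by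
  have hbr : (2 : ℝ) ≤ b := by exact_mod_cast hb
  have hb0 : (0 : ℝ) ≤ b := by linarith
  have hlb : 0 < Real.log b := Real.log_pos (by linarith)
  have hl2 : 0 < Real.log 2 := Real.log_pos (by norm_num)
  set q : ℝ := Real.sqrt b with hq
  have hqq : q * q = b := Real.mul_self_sqrt hb0
  have hq1 : 1 < q := by
    by_contra h
    push Not at h
    have : q * q ≤ 1 * 1 := mul_le_mul h h (Real.sqrt_nonneg _) (by norm_num)
    linarith
  have hq0 : 0 < q := by linarith
  set c : ℝ := 2 * ((4 * Real.log b) ^ 2 * ((2 * q ^ 3) * (4 * Real.log b / Real.log 2 + 1))) with hc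
  have hc0 : 0 < c := by positivity
  have h1 := (isLittleO_pow_const_const_pow_of_one_lt (R := ℝ) 3 hq1).def (c := 1 / c) (by positivity)
  rw [Filter.eventually_atTop] at h1
  obtain ⟨L1, hL1⟩ := h1
  refine ⟨max L1 1, fun L hL => ?_⟩
  have h2 := hL1 L (le_trans (le_max_left _ _) hL)
  have hL' : 1 ≤ L := le_trans (le_max_right _ _) hL
  have hLr : (1 : ℝ) ≤ L := by exact_mod_cast hL'
  rw [Real.norm_of_nonneg (by positivity), Real.norm_of_nonneg (by positivity)] at h2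
  have h3 : c * (L : ℝ) ^ 3 ≤ q ^ L := by
    rw [one_div, ← div_eq_inv_mul, le_div_iff₀ hc0] at h2
    linarith
  have h4 : Real.sqrt ((b : ℝ) ^ (L + 3)) = q ^ (L + 3) := by
    rw [hq, Real.sqrt_eq_iff_mul_self_eq (by positivity) (by positivity), ← mul_pow,
      Real.mul_self_sqrt hb0]
  have h5 : ((L + 3 : ℕ) : ℝ) ≤ 4 * L := by push_cast; linarith
  have h6 : Real.sqrt ((b : ℝ) ^ (L + 3)) + 1 ≤ 2 * q ^ 3 * q ^ L := by
    rw [h4, pow_add]
    have : 1 ≤ q ^ L * q ^ 3 := by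
      rw [← pow_add]; exact one_le_pow₀ hq1.le
    nlinarith
  have h7 : ((L + 3 : ℕ) : ℝ) * Real.log b ≤ 4 * Real.log b * L := by nlinarith
  have h8 : ((L + 3 : ℕ) : ℝ) * Real.log b / Real.log 2 + 1 ≤ (4 * Real.log b / Real.log 2 + 1) * L := by
    have : ((L + 3 : ℕ) : ℝ) * Real.log b / Real.log 2 ≤ 4 * Real.log b * L / Real.log 2 :=
      div_le_div_of_nonneg_right h7 hl2.le
    have e : (4 * Real.log b / Real.log 2 + 1) * L = 4 * Real.log b * L / Real.log 2 + L := by ring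
    rw [e]; linarith
  have h9 : (((L + 3 : ℕ) : ℝ) * Real.log b) ^ 2 ≤ (4 * Real.log b * L) ^ 2 :=
    pow_le_pow_left₀ (by positivity) h7 2
  calc 2 * ((((L + 3 : ℕ) : ℝ) * Real.log b) ^ 2 * ((Real.sqrt ((b : ℝ) ^ (L + 3)) + 1) *
      (((L + 3 : ℕ) : ℝ) * Real.log b / Real.log 2 + 1)))
      ≤ 2 * ((4 * Real.log b * L) ^ 2 * ((2 * q ^ 3 * q ^ L) *
        ((4 * Real.log b / Real.log 2 + 1) * L))) := by
        apply mul_le_mul_of_nonneg_left _ (by norm_num)
        apply mul_le_mul h9 _ (by positivity) (by positivity)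
        exact mul_le_mul h6 h8 (by positivity) (by positivity)
    _ = (c * (L : ℝ) ^ 3) * q ^ L := by rw [hc]; ring
    _ ≤ q ^ L * q ^ L := mul_le_mul_of_nonneg_right h3 (by positivity)
    _ = (b : ℝ) ^ L := by rw [← mul_pow, hqq]

private theorem p1_diag (b L : ℕ) (hb : 2 ≤ b) :
    ∑ n ∈ range (XX b L), Λ n * Λ n ≤
      ((L + 3 : ℕ) * Real.log b) * ((Real.log 4 + 4) * (b : ℝ) ^ (L + 3)) := by
  have h1 : ∀ n ∈ range (XX b L), Λ n * Λ n ≤ ((L + 3 : ℕ) * Real.log b) * Λ n := fun n hn =>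
    mul_le_mul_of_nonneg_right (A2_vonMangoldt_le b (L + 3) n hb (mem_range.1 hn))
      ArithmeticFunction.vonMangoldt_nonneg
  refine (sum_le_sum h1).trans ?_
  rw [← mul_sum]
  apply mul_le_mul_of_nonneg_left _ (by
    have := Real.log_natCast_nonneg b
    positivity)
  have h2 : ∑ n ∈ range (XX b L), Λ n ≤ Chebyshev.psi ((b : ℝ) ^ (L + 3)) := by
    unfold Chebyshev.psi
    have e : ⌊(b : ℝ) ^ (L + 3)⌋₊ = XX b L := by
      unfold XX
      rw [← Nat.cast_pow, Nat.floor_natCast]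
    rw [e]
    have h3 : ∑ n ∈ range (XX b L), Λ n = ∑ n ∈ (range (XX b L)).filter (fun n => n ≠ 0), Λ n := by
      rw [sum_filter]
      refine sum_congr rfl fun n _ => ?_
      split_ifs with h
      · rfl
      · push Not at h
        rw [h]; simp
    rw [h3]
    refine sum_le_sum_of_subset_of_nonneg (fun n hn => ?_) fun _ _ _ => ArithmeticFunction.vonMangoldt_nonneg
    rw [mem_filter, mem_range] at hn
    rw [mem_Ioc]
    omega
  exact h2.trans (Chebyshev.psi_le_const_mul_self (by positivity))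

private theorem p1_SS_nonneg (b : ℕ) (h : ℤ) : 0 ≤ SS b h := by
  unfold SS
  exact prod_nonneg fun p _ => by positivity

/-- the off-diagonal term -/
private theorem p1_off (b L : ℕ) (hb : 2 ≤ b) (C : ℝ)
    (hC : ∀ (h : ℤ) (Y : ℕ), h ≠ 0 → 2 ≤ Y →
      (((range Y).filter (fun m : ℕ => ((m : ℤ)).toNat.Prime ∧ ((m : ℤ) + h).toNat.Prime)).card : ℝ) ≤
        C * Y * SS b h / Real.log Y ^ 2) (B B' : ℕ) (hB : B ≠ B') :
    ∑ n ∈ range (XX b L), ∑ n' ∈ range (XX b L), (if n + B = n' + B' then Λ n * Λ n' else 0) ≤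
      C * (b : ℝ) ^ (L + 3) * SS b ((B : ℤ) - B') +
      2 * (((L + 3 : ℕ) * Real.log b) ^ 2 * ((Real.sqrt ((b : ℝ) ^ (L + 3)) + 1) *
      ((L + 3 : ℕ) * Real.log b / Real.log 2 + 1))) := by
  classical
  set X := XX b L with hX
  have hX2 : 2 ≤ X := by
    rw [hX]; unfold XX
    calc 2 ≤ b := hb
      _ = b ^ 1 := (pow_one b).symm
      _ ≤ b ^ (L + 3) := Nat.pow_le_pow_right (by omega) (by omega)
  have hXr : (X : ℝ) = (b : ℝ) ^ (L + 3) := by
    rw [hX]; unfold XX; push_cast; rfl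
  set T : ℝ := (L + 3 : ℕ) * Real.log b with hT
  have hlogX : Real.log (X : ℝ) = T := by
    rw [hXr, Real.log_pow, hT]
  have hT0 : 0 < T := by
    rw [← hlogX]
    exact Real.log_pos (by exact_mod_cast (by omega : 1 < X))
  have hΛ : ∀ n ∈ range X, Λ n ≤ T := fun n hn => A2_vonMangoldt_le b (L + 3) n hb (mem_range.1 hn)
  set Q := (range X ×ˢ range X).filter (fun p : ℕ × ℕ => p.1 + B = p.2 + B' ∧ IsPrimePow p.1 ∧
    IsPrimePow p.2) with hQ
  have h1 : ∑ n ∈ range X, ∑ n' ∈ range X, (if n + B = n' + B' then Λ n * Λ n' else 0) ≤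
      Q.card * T ^ 2 := by
    rw [← sum_product' (range X) (range X) (fun n n' => if n + B = n' + B' then Λ n * Λ n' else 0)]
    have h2 : ∀ p ∈ range X ×ˢ range X, (if p.1 + B = p.2 + B' then Λ p.1 * Λ p.2 else 0) ≤
        if p.1 + B = p.2 + B' ∧ IsPrimePow p.1 ∧ IsPrimePow p.2 then T ^ 2 else 0 := by
      intro p hp
      rw [mem_product] at hp
      by_cases e : p.1 + B = p.2 + B'
      · by_cases e1 : IsPrimePow p.1
        · by_cases e2 : IsPrimePow p.2
          · rw [if_pos e, if_pos ⟨e, e1, e2⟩, sq]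
            exact mul_le_mul (hΛ _ hp.1) (hΛ _ hp.2) ArithmeticFunction.vonMangoldt_nonneg hT0.le
          · rw [if_pos e, ArithmeticFunction.vonMangoldt_eq_zero_iff.2 e2, mul_zero]
            split_ifs <;> positivity
        · rw [if_pos e, ArithmeticFunction.vonMangoldt_eq_zero_iff.2 e1, zero_mul]
          split_ifs <;> positivity
      · rw [if_neg e]
        split_ifs <;> positivity
    refine (sum_le_sum h2).trans ?_
    rw [← sum_filter, sum_const, nsmul_eq_mul]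
  set PP := (range X).filter (fun n => IsPrimePow n ∧ ¬ n.Prime) with hPP
  set PR := (range X).filter (fun m : ℕ => ((m : ℤ)).toNat.Prime ∧ ((m : ℤ) + ((B : ℤ) - B')).toNat.Prime)
    with hPR
  have hcard : Q.card ≤ PR.card + PP.card + PP.card := by
    have hsub : Q ⊆ (Q.filter fun p => p.1 ∈ PR) ∪ (Q.filter fun p => p.1 ∈ PP) ∪
        (Q.filter fun p => p.2 ∈ PP) := by
      intro p hp
      have hp' := hp
      rw [hQ, mem_filter, mem_product] at hp'
      obtain ⟨⟨hp1, hp2⟩, e, i1, i2⟩ := hp'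
      by_cases q1 : p.1.Prime
      · by_cases q2 : p.2.Prime
        · refine mem_union_left _ (mem_union_left _ (mem_filter.2 ⟨hp, ?_⟩))
          refine mem_filter.2 ⟨hp1, by simpa using q1, ?_⟩
          have : ((p.1 : ℤ) + ((B : ℤ) - B')) = (p.2 : ℤ) := by omega
          rw [this]
          simpa using q2
        · exact mem_union_right _ (mem_filter.2 ⟨hp, mem_filter.2 ⟨hp2, i2, q2⟩⟩)
      · exact mem_union_left _ (mem_union_right _ (mem_filter.2 ⟨hp, mem_filter.2 ⟨hp1, i1, q1⟩⟩))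
    have hi1 : ∀ (S : Finset ℕ), (Q.filter fun p => p.1 ∈ S).card ≤ S.card := fun S => by
      refine card_le_card_of_injOn (fun p => p.1) (fun p hp => ?_) ?_
      · exact (mem_filter.1 (Finset.mem_coe.1 hp)).2
      · intro p hp p' hp' h
        have a1 := (mem_filter.1 (mem_filter.1 (Finset.mem_coe.1 hp)).1).2.1
        have a2 := (mem_filter.1 (mem_filter.1 (Finset.mem_coe.1 hp')).1).2.1
        have h' : p.1 = p'.1 := h
        ext
        · exact h'
        · omega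
    have hi2 : ∀ (S : Finset ℕ), (Q.filter fun p => p.2 ∈ S).card ≤ S.card := fun S => by
      refine card_le_card_of_injOn (fun p => p.2) (fun p hp => ?_) ?_
      · exact (mem_filter.1 (Finset.mem_coe.1 hp)).2
      · intro p hp p' hp' h
        have a1 := (mem_filter.1 (mem_filter.1 (Finset.mem_coe.1 hp)).1).2.1
        have a2 := (mem_filter.1 (mem_filter.1 (Finset.mem_coe.1 hp')).1).2.1
        have h' : p.2 = p'.2 := h
        ext
        · omega
        · exact h'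
    refine (card_le_card hsub).trans ((card_union_le _ _).trans ?_)
    refine add_le_add ((card_union_le _ _).trans (add_le_add (hi1 _) (hi1 _))) (hi2 _)
  have hPPc := card_prime_pow_le X hX2
  rw [hlogX, hXr] at hPPc
  have hPRc := hC ((B : ℤ) - B') X (by omega) hX2
  rw [hlogX, hXr] at hPRc
  have h3 : (Q.card : ℝ) ≤ PR.card + PP.card + PP.card := by exact_mod_cast hcard
  have hT2 : 0 < T ^ 2 := by positivity
  calc _ ≤ (Q.card : ℝ) * T ^ 2 := h1
    _ ≤ (PR.card + PP.card + PP.card) * T ^ 2 := mul_le_mul_of_nonneg_right h3 hT2.le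
    _ ≤ (C * (b : ℝ) ^ (L + 3) * SS b ((B : ℤ) - B') / T ^ 2 +
        (Real.sqrt ((b : ℝ) ^ (L + 3)) + 1) * (T / Real.log 2 + 1) +
        (Real.sqrt ((b : ℝ) ^ (L + 3)) + 1) * (T / Real.log 2 + 1)) * T ^ 2 := by
      apply mul_le_mul_of_nonneg_right _ hT2.le
      exact add_le_add (add_le_add hPRc hPPc) hPPc
    _ = _ := by
      field_simp
      ring

theorem S1_sq_le (b : ℕ) (hb : 2 ≤ b) : ∃ (C : ℝ) (L0 : ℕ), 0 < C ∧ ∀ L : ℕ, L0 ≤ L → ∀ a M : ℕ,
    (∀ j < M, vv a j < L) →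
    ∑ t ∈ range (b ^ (L + 5)), ‖S1 b L ((t : ℝ) / (b ^ (L + 5) : ℕ)) *
      GG1 b a M ((t : ℝ) / (b ^ (L + 5) : ℕ))‖ ^ 2 ≤ (b ^ (L + 5) : ℕ) * (C * ((b : ℝ) ^ L * (L : ℝ) ^ 2)) := by
  classical
  obtain ⟨C1, hC1, hps⟩ := pair_sieve b hb
  obtain ⟨C2, hC2, hav⟩ := SS_avg b hb
  obtain ⟨L1, hL1⟩ := p1_ev b hb
  have hbr : (2 : ℝ) ≤ b := by exact_mod_cast hb
  have hlb : 0 < Real.log b := Real.log_pos (by linarith)
  have hl4 : 0 < Real.log 4 := Real.log_pos (by norm_num)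
  refine ⟨4 * Real.log b * ((Real.log 4 + 4) * (b : ℝ) ^ 3) + C1 * (b : ℝ) ^ 3 * C2 + 1, max L1 1,
    by positivity, fun L hL a M hM => ?_⟩
  have hL1' : L1 ≤ L := le_trans (le_max_left _ _) hL
  have hL' : 1 ≤ L := le_trans (le_max_right _ _) hL
  have hLr : (1 : ℝ) ≤ L := by exact_mod_cast hL'
  have hev := hL1 L hL1'
  have hvinj : ∀ j j', vv a j = vv a j' → j = j' := fun j j' h => by unfold vv at h; omega
  have hML : M ≤ L := by
    rcases Nat.eq_zero_or_pos M with h | h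
    · omega
    · have := hM (M - 1) (by omega)
      unfold vv at this
      omega
  have hb1 : 1 ≤ b := by omega
  set X := XX b L with hX
  set K := b ^ (L + 5) with hK
  have hK0 : 0 < K := by positivity
  set s : Finset (ℕ × ℕ) := range X ×ˢ range M with hs
  have hv : ∀ i ∈ s, i.1 + b ^ vv a i.2 < K := by
    intro i hi
    rw [hs, mem_product, mem_range, mem_range] at hi
    have h1 : i.1 < b ^ (L + 3) := hi.1
    have h2 : b ^ vv a i.2 ≤ b ^ (L + 3) :=
      Nat.pow_le_pow_right (by omega) (by have := hM _ hi.2; omega)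
    have h3 : b ^ (L + 5) = b ^ (L + 3) * (b * b) := by rw [← pow_two, ← pow_add]
    have h4 : 4 ≤ b * b := Nat.mul_le_mul hb hb
    have h5 : b ^ (L + 3) * 4 ≤ b ^ (L + 5) := by rw [h3]; exact Nat.mul_le_mul_left _ h4
    have h6 : 0 < b ^ (L + 3) := by positivity
    omega
  have hpar := pairs_parseval s (fun i => i.1 + b ^ vv a i.2) (fun i => Λ i.1) K hK0 hv
  have hlhs : ∀ t ∈ range K, ‖S1 b L ((t : ℝ) / (K : ℕ)) * GG1 b a M ((t : ℝ) / (K : ℕ))‖ ^ 2 =
      ‖∑ i ∈ s, ((Λ i.1 : ℝ) : ℂ) * ee (((i.1 + b ^ vv a i.2 : ℕ) : ℝ) * ((t : ℝ) / K))‖ ^ 2 := by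
    intro t _
    congr 2
    unfold S1 GG1
    rw [sum_mul_sum, hs, sum_product]
    refine sum_congr rfl fun n _ => sum_congr rfl fun j _ => ?_
    have e : (((n + b ^ vv a j : ℕ) : ℝ) * ((t : ℝ) / K)) =
        (n : ℝ) * ((t : ℝ) / K) + (b : ℝ) ^ vv a j * ((t : ℝ) / K) := by push_cast; ring
    rw [e, ee_add]
    ring
  rw [sum_congr rfl hlhs, hpar]
  apply mul_le_mul_of_nonneg_left _ (by positivity)
  -- the sum over pairs
  set E : ℕ → ℕ → ℝ := fun j j' => ∑ n ∈ range X, ∑ n' ∈ range X,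
    (if n + b ^ vv a j = n' + b ^ vv a j' then Λ n * Λ n' else 0) with hE
  have hsum : ∑ i ∈ s, ∑ i' ∈ s, (if i.1 + b ^ vv a i.2 = i'.1 + b ^ vv a i'.2 then Λ i.1 * Λ i'.1 else 0) =
      ∑ j ∈ range M, ∑ j' ∈ range M, E j j' := by
    rw [hs, sum_product_right]
    refine sum_congr rfl fun j _ => ?_
    have : ∀ n ∈ range X, ∑ i' ∈ range X ×ˢ range M,
        (if n + b ^ vv a j = i'.1 + b ^ vv a i'.2 then Λ n * Λ i'.1 else 0) =
        ∑ j' ∈ range M, ∑ n' ∈ range X,
        (if n + b ^ vv a j = n' + b ^ vv a j' then Λ n * Λ n' else 0) := fun n _ => by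
      rw [sum_product_right]
    rw [sum_congr rfl this, sum_comm]
  rw [hsum]
  set R : ℝ := (b : ℝ) ^ L with hR
  have hR0 : 0 < R := by positivity
  have hdiag : ∀ j ∈ range M, E j j ≤ 4 * Real.log b * ((Real.log 4 + 4) * (b : ℝ) ^ 3) * R * L := by
    intro j _
    have e1 : E j j = ∑ n ∈ range X, Λ n * Λ n := by
      rw [hE]
      refine sum_congr rfl fun n hn => ?_
      rw [sum_eq_single n]
      · rw [if_pos rfl]
      · intro n' _ h
        rw [if_neg (by omega)]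
      · intro h; exact absurd hn h
    rw [e1]
    refine (p1_diag b L hb).trans ?_
    have h5 : ((L + 3 : ℕ) : ℝ) ≤ 4 * L := by push_cast; linarith
    have h6 : ((L + 3 : ℕ) : ℝ) * Real.log b ≤ 4 * L * Real.log b :=
      mul_le_mul_of_nonneg_right h5 hlb.le
    calc ((L + 3 : ℕ) : ℝ) * Real.log b * ((Real.log 4 + 4) * (b : ℝ) ^ (L + 3))
        ≤ (4 * L * Real.log b) * ((Real.log 4 + 4) * (b : ℝ) ^ (L + 3)) :=
          mul_le_mul_of_nonneg_right h6 (by positivity)
      _ = _ := by rw [hR, pow_add]; ring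
  have hoff : ∀ j ∈ range M, ∀ j' ∈ range M, j ≠ j' →
      E j j' ≤ C1 * (b : ℝ) ^ 3 * R * SS b ((b : ℤ) ^ vv a j - (b : ℤ) ^ vv a j') + R := by
    intro j _ j' _ hjj
    have hBB : b ^ vv a j ≠ b ^ vv a j' := fun h =>
      hjj (hvinj _ _ (Nat.pow_right_injective hb h))
    have h1 := p1_off b L hb C1 (fun h Y hh hY => by
      have := hps 1 0 h Y le_rfl (fun p hp hp1 => absurd (Nat.dvd_one.1 hp1) hp.ne_one) hh hY
      simpa using this) (b ^ vv a j) (b ^ vv a j') hBB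
    have h2 : E j j' ≤ C1 * (b : ℝ) ^ (L + 3) * SS b (((b ^ vv a j : ℕ) : ℤ) - ((b ^ vv a j' : ℕ) : ℤ)) + R :=
      h1.trans (by linarith)
    refine h2.trans (le_of_eq ?_)
    push_cast
    rw [hR, pow_add]
    ring
  -- assemble
  have hsplit : ∀ j ∈ range M, ∑ j' ∈ range M, E j j' ≤
      4 * Real.log b * ((Real.log 4 + 4) * (b : ℝ) ^ 3) * R * L +
      ∑ j' ∈ (range M).filter (fun j' => j ≠ j'),
        (C1 * (b : ℝ) ^ 3 * R * SS b ((b : ℤ) ^ vv a j - (b : ℤ) ^ vv a j') + R) := by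
    intro j hj
    rw [← sum_filter_add_sum_filter_not (range M) (fun j' => j ≠ j') (fun j' => E j j'), add_comm]
    apply add_le_add
    · have : (range M).filter (fun j' => ¬ (j ≠ j')) = {j} := by
        ext x
        rw [mem_filter, mem_singleton]
        constructor
        · rintro ⟨_, h⟩; exact (not_not.1 h).symm
        · rintro rfl; exact ⟨hj, not_not.2 rfl⟩
      rw [this, sum_singleton]
      exact hdiag j hj
    · exact sum_le_sum fun j' hj' => hoff j hj j' (mem_filter.1 hj').1 (mem_filter.1 hj').2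
  refine (sum_le_sum hsplit).trans ?_
  rw [sum_add_distrib, sum_const, card_range, nsmul_eq_mul]
  have hMr : (M : ℝ) ≤ L := by exact_mod_cast hML
  have hM0 : (0 : ℝ) ≤ M := Nat.cast_nonneg _
  have hA : (M : ℝ) * (4 * Real.log b * ((Real.log 4 + 4) * (b : ℝ) ^ 3) * R * L) ≤
      4 * Real.log b * ((Real.log 4 + 4) * (b : ℝ) ^ 3) * (R * (L : ℝ) ^ 2) := by
    calc _ ≤ (L : ℝ) * (4 * Real.log b * ((Real.log 4 + 4) * (b : ℝ) ^ 3) * R * L) :=
          mul_le_mul_of_nonneg_right hMr (by positivity)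
      _ = _ := by ring
  have hBsum : ∑ j ∈ range M, ∑ j' ∈ (range M).filter (fun j' => j ≠ j'),
      (C1 * (b : ℝ) ^ 3 * R * SS b ((b : ℤ) ^ vv a j - (b : ℤ) ^ vv a j') + R) ≤
      C1 * (b : ℝ) ^ 3 * R * (C2 * (L : ℝ) ^ 2) + R * (L : ℝ) ^ 2 := by
    have e1 : ∀ j ∈ range M, ∑ j' ∈ (range M).filter (fun j' => j ≠ j'),
        (C1 * (b : ℝ) ^ 3 * R * SS b ((b : ℤ) ^ vv a j - (b : ℤ) ^ vv a j') + R) =
        C1 * (b : ℝ) ^ 3 * R * ∑ j' ∈ (range M).filter (fun j' => j ≠ j'),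
          SS b ((b : ℤ) ^ vv a j - (b : ℤ) ^ vv a j') +
        ((range M).filter (fun j' => j ≠ j')).card * R := fun j _ => by
      rw [sum_add_distrib, ← mul_sum, sum_const, nsmul_eq_mul]
    rw [sum_congr rfl e1, sum_add_distrib, ← mul_sum]
    apply add_le_add
    · apply mul_le_mul_of_nonneg_left _ (by positivity)
      have h1 := hav L 1 1 hL' one_ne_zero one_ne_zero
        (by simpa using Nat.one_le_pow _ _ hb1) (by simpa using Nat.one_le_pow _ _ hb1)
      have hSS1 : SS b 1 = 1 := by simp [SS]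
      rw [hSS1, mul_one] at h1
      refine le_trans ?_ h1
      have e2 : ∑ j ∈ range M, ∑ j' ∈ (range M).filter (fun j' => j ≠ j'),
          SS b ((b : ℤ) ^ vv a j - (b : ℤ) ^ vv a j') =
          ∑ q ∈ (range M ×ˢ range M).filter (fun q : ℕ × ℕ => q.1 ≠ q.2),
            SS b ((b : ℤ) ^ vv a q.1 - (b : ℤ) ^ vv a q.2) := by
        rw [sum_filter, sum_product]
        refine sum_congr rfl fun j _ => ?_
        rw [sum_filter]
      rw [e2]
      have hφ : Function.Injective (fun q : ℕ × ℕ => (vv a q.1, vv a q.2)) := by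
        rintro ⟨x, y⟩ ⟨x', y'⟩ h
        rw [Prod.mk.injEq] at h
        rw [Prod.mk.injEq]
        exact ⟨hvinj _ _ h.1, hvinj _ _ h.2⟩
      have e3 : ∑ q ∈ (range M ×ˢ range M).filter (fun q : ℕ × ℕ => q.1 ≠ q.2),
            SS b ((b : ℤ) ^ vv a q.1 - (b : ℤ) ^ vv a q.2) =
          ∑ p ∈ ((range M ×ˢ range M).filter (fun q : ℕ × ℕ => q.1 ≠ q.2)).image
            (fun q : ℕ × ℕ => (vv a q.1, vv a q.2)), SS b (1 * (b : ℤ) ^ p.1 - 1 * (b : ℤ) ^ p.2) := by
        rw [sum_image fun x _ y _ h => hφ h]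
        refine sum_congr rfl fun q _ => ?_
        rw [one_mul, one_mul]
      rw [e3]
      refine sum_le_sum_of_subset_of_nonneg (fun p hp => ?_) fun _ _ _ => p1_SS_nonneg _ _
      obtain ⟨q, hq, rfl⟩ := mem_image.1 hp
      rw [mem_filter, mem_product, mem_range, mem_range] at hq
      rw [mem_filter, mem_product, mem_range, mem_range]
      refine ⟨⟨hM _ hq.1.1, hM _ hq.1.2⟩, ?_⟩
      rw [one_mul, one_mul, sub_ne_zero]
      intro h
      have h' : b ^ vv a q.1 = b ^ vv a q.2 := by exact_mod_cast h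
      exact hq.2 (hvinj _ _ (Nat.pow_right_injective hb h'))
    · have h2 : ∀ j ∈ range M, (((range M).filter (fun j' => j ≠ j')).card : ℝ) * R ≤ (L : ℝ) * R :=
        fun j _ => by
          apply mul_le_mul_of_nonneg_right _ hR0.le
          have : ((range M).filter (fun j' => j ≠ j')).card ≤ M := by
            refine (card_filter_le _ _).trans ?_
            rw [card_range]
          exact (by exact_mod_cast this : (((range M).filter (fun j' => j ≠ j')).card : ℝ) ≤ M).trans hMr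
      refine (sum_le_sum h2).trans ?_
      rw [sum_const, card_range, nsmul_eq_mul]
      calc (M : ℝ) * (L * R) ≤ L * (L * R) := mul_le_mul_of_nonneg_right hMr (by positivity)
        _ = _ := by ring
  calc _ ≤ 4 * Real.log b * ((Real.log 4 + 4) * (b : ℝ) ^ 3) * (R * (L : ℝ) ^ 2) +
      (C1 * (b : ℝ) ^ 3 * R * (C2 * (L : ℝ) ^ 2) + R * (L : ℝ) ^ 2) := add_le_add hA hBsum
    _ = _ := by ring

end GL89
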