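import Pool.Agent.LibGL89.W1
import Pool.Agent.LibGL89.C2

/-!
Row W2 (MEDIUM). Number of prime pairs `(k, k')` with `rv k + b^i = rv k' + b^j`, for fixed `i ≠ j`.

`pair_diff`: three cases.  (1), (2): the number of `k < b^L` with `a` given digits is `b^(L-a)`, and `k` determines `k'` (`rv` injective, `rv_injOn`), and
conversely: `≤ 2 b^(L-a)`.
(3): for each `(c1, c2)`: `k' = k + h`, `h = uc b c2 * b^(L-1-j-c2) - uc b c1 * b^(L-1-i-c1) ≠ 0` (`diff_ne`): at most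
`N1 = #{k prime, k + h prime, window [L-i-c1, L-i)} ≤ C (b^L/b^c1)/L² SS h` (`window`, `p = L-i-c1`, `c = c1`) and at most
`N2 = #{k' prime, k' - h prime, window [L-j-c2, L-j) of k'} ≤ C (b^L/b^c2)/L² SS h` (`SS b (-h) = SS b h`), so
`≤ min ≤ sqrt (N1 N2) ≤ C b^L/L² SS h * (1/sqrt b)^(c1+c2)`.
-/

set_option autoImplicit false

namespace GL89

open Finset Pool.Agent.LibHG31

private theorem W2_mod (b p a k : ℕ) (hb : 1 ≤ b)
    (h : ∀ m, p ≤ m → m < p + a → dg b m k = b - 1) : k / b ^ p % b ^ a = b ^ a - 1 := by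
  induction a with
  | zero => simp [Nat.mod_one]
  | succ a ih =>
    have h0 := h (p + a) (by omega) (by omega)
    unfold dg at h0
    rw [Nat.mod_pow_succ, ih (fun m h1 h2 => h m h1 (by omega)), Nat.div_div_eq_div_mul, ← pow_add,
      h0]
    have h1 : 1 ≤ b ^ a := Nat.one_le_pow _ _ hb
    obtain ⟨c, rfl⟩ : ∃ c, b = c + 1 := ⟨b - 1, by omega⟩
    rw [Nat.add_sub_cancel, pow_succ, mul_add, mul_one]
    omega

private theorem W2_inj (b p a k k' : ℕ) (hb : 1 ≤ b)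
    (h : ∀ m, p ≤ m → m < p + a → dg b m k = b - 1)
    (h' : ∀ m, p ≤ m → m < p + a → dg b m k' = b - 1)
    (he : k / b ^ (p + a) * b ^ p + k % b ^ p = k' / b ^ (p + a) * b ^ p + k' % b ^ p) :
    k = k' := by
  have hp : 0 < b ^ p := Nat.pow_pos hb
  have e1 : k % b ^ p = k' % b ^ p := by
    have h1 := congrArg (fun x => x % b ^ p) he
    simpa [Nat.add_mod, Nat.mul_mod] using h1
  have e2 : k / b ^ (p + a) = k' / b ^ (p + a) := by
    rw [e1] at he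
    have h1 := Nat.add_right_cancel he
    exact Nat.eq_of_mul_eq_mul_right hp h1
  have e3 : k / b ^ p = k' / b ^ p := by
    rw [← Nat.div_add_mod (k / b ^ p) (b ^ a), ← Nat.div_add_mod (k' / b ^ p) (b ^ a),
      W2_mod b p a k hb h, W2_mod b p a k' hb h', Nat.div_div_eq_div_mul, Nat.div_div_eq_div_mul,
      ← pow_add, e2]
  rw [← Nat.div_add_mod k (b ^ p), ← Nat.div_add_mod k' (b ^ p), e1, e3]

private theorem W2_lt (b L p a k : ℕ) (hb : 1 ≤ b) (hpa : p + a ≤ L) (hk : k < b ^ L) :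
    k / b ^ (p + a) * b ^ p + k % b ^ p < b ^ (L - a) := by
  have hp : 0 < b ^ p := Nat.pow_pos hb
  have h1 : k / b ^ (p + a) < b ^ (L - (p + a)) := by
    rw [Nat.div_lt_iff_lt_mul (Nat.pow_pos hb), ← pow_add]
    rwa [Nat.sub_add_cancel hpa]
  have h2 : k % b ^ p < b ^ p := Nat.mod_lt _ hp
  calc k / b ^ (p + a) * b ^ p + k % b ^ p < k / b ^ (p + a) * b ^ p + b ^ p := by omega
    _ = (k / b ^ (p + a) + 1) * b ^ p := by ring
    _ ≤ b ^ (L - (p + a)) * b ^ p := Nat.mul_le_mul_right _ h1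
    _ = b ^ (L - a) := by
      rw [← pow_add]
      congr 1
      omega

private theorem W2_card (b L p a : ℕ) (hb : 1 ≤ b) (hpa : p + a ≤ L) (S : Finset (ℕ × ℕ))
    (f : ℕ × ℕ → ℕ) (hf : Set.InjOn f S) (hS : ∀ x ∈ S, f x < b ^ L)
    (hS' : ∀ x ∈ S, ∀ m, p ≤ m → m < p + a → dg b m (f x) = b - 1) : S.card ≤ b ^ (L - a) := by
  rw [← Finset.card_range (b ^ (L - a))]
  refine Finset.card_le_card_of_injOn
    (fun x => f x / b ^ (p + a) * b ^ p + f x % b ^ p) ?_ ?_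
  · intro x hx
    rw [Finset.mem_coe] at hx
    rw [Finset.mem_coe, Finset.mem_range]
    exact W2_lt b L p a (f x) hb hpa (hS x hx)
  · intro x hx y hy hxy
    exact hf hx hy (W2_inj b p a (f x) (f y) hb (hS' x hx) (hS' y hy) hxy)

private theorem W2_min (b : ℕ) (hb : 2 ≤ b) (x A : ℝ) (c1 c2 : ℕ) (hx : 0 ≤ x) (hA : 0 ≤ A)
    (h1 : x ≤ A / (b : ℝ) ^ c1) (h2 : x ≤ A / (b : ℝ) ^ c2) :
    x ≤ A * (1 / Real.sqrt b) ^ (c1 + c2) := by
  have hb0 : (0 : ℝ) < b := by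
    have : (2 : ℝ) ≤ b := by exact_mod_cast hb
    linarith
  have hs : 0 < Real.sqrt b := Real.sqrt_pos.2 hb0
  have h3 : x ^ 2 ≤ (A * (1 / Real.sqrt b) ^ (c1 + c2)) ^ 2 := by
    have h4 : (A * (1 / Real.sqrt b) ^ (c1 + c2)) ^ 2 = A / (b : ℝ) ^ c1 * (A / (b : ℝ) ^ c2) := by
      rw [mul_pow, ← pow_mul, mul_comm (c1 + c2) 2, pow_mul, div_pow, Real.sq_sqrt hb0.le, one_pow,
        one_div, inv_pow, pow_add]
      field_simp
    rw [h4, sq]
    exact mul_le_mul h1 h2 hx (div_nonneg hA (by positivity))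
  exact (sq_le_sq₀ hx (by positivity)).1 h3

private theorem W2_SS (b : ℕ) (h : ℤ) : SS b (-h) = SS b h := by
  unfold SS
  rw [Int.natAbs_neg]

private theorem W2_SS_nonneg (b : ℕ) (h : ℤ) : 0 ≤ SS b h := by
  unfold SS
  exact Finset.prod_nonneg fun p _ => by positivity

theorem pairs_card (b : ℕ) (hb : 2 ≤ b) : ∃ (C : ℝ) (L0 : ℕ), 0 < C ∧ ∀ L : ℕ, L0 ≤ L → ∀ a i j : ℕ, 8 * a ≤ L →
    i + a < L → j + a < L → i ≠ j →
    ((((range (b ^ L)) ×ˢ (range (b ^ L))).filter (fun x : ℕ × ℕ => x.1.Prime ∧ x.2.Prime ∧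
      rv b L x.1 + b ^ i = rv b L x.2 + b ^ j)).card : ℝ) ≤
      2 * (b : ℝ) ^ (L - a) + ∑ c1 ∈ range a, ∑ c2 ∈ range a, C * (b : ℝ) ^ L / (L : ℝ) ^ 2 *
        (1 / Real.sqrt b) ^ (c1 + c2) *
        SS b (uc b c2 * (b : ℤ) ^ (L - 1 - j - c2) - uc b c1 * (b : ℤ) ^ (L - 1 - i - c1)) := by
  obtain ⟨C, L0, hC, hw⟩ := window b hb
  refine ⟨C, L0, hC, fun L hL a i j ha hi hj hij => ?_⟩
  classical
  set S : Finset (ℕ × ℕ) := ((range (b ^ L)) ×ˢ (range (b ^ L))).filter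
    (fun x : ℕ × ℕ => x.1.Prime ∧ x.2.Prime ∧ rv b L x.1 + b ^ i = rv b L x.2 + b ^ j) with hSdef
  have hmem : ∀ x ∈ S, x.1 < b ^ L ∧ x.2 < b ^ L ∧ x.1.Prime ∧ x.2.Prime ∧
      rv b L x.1 + b ^ i = rv b L x.2 + b ^ j := by
    intro x hx
    rw [hSdef, Finset.mem_filter, Finset.mem_product, Finset.mem_range, Finset.mem_range] at hx
    exact ⟨hx.1.1, hx.1.2, hx.2⟩
  have hb1 : 1 ≤ b := by omega
  have hrv := rv_injOn b L hb1
  have hinj1 : Set.InjOn Prod.fst (S : Set (ℕ × ℕ)) := by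
    intro x hx y hy hxy
    obtain ⟨h1, h2, -, -, h5⟩ := hmem x hx
    obtain ⟨h1', h2', -, -, h5'⟩ := hmem y hy
    have hxy' : x.1 = y.1 := hxy
    refine Prod.ext hxy' (hrv h2 h2' ?_)
    rw [hxy'] at h5
    omega
  have hinj2 : Set.InjOn Prod.snd (S : Set (ℕ × ℕ)) := by
    intro x hx y hy hxy
    obtain ⟨h1, h2, -, -, h5⟩ := hmem x hx
    obtain ⟨h1', h2', -, -, h5'⟩ := hmem y hy
    have hxy' : x.2 = y.2 := hxy
    refine Prod.ext (hrv h1 h1' ?_) hxy'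
    rw [hxy'] at h5
    omega
  obtain ⟨h, hh⟩ : ∃ h : ℕ → ℕ → ℤ, h = fun c1 c2 =>
    uc b c2 * (b : ℤ) ^ (L - 1 - j - c2) - uc b c1 * (b : ℤ) ^ (L - 1 - i - c1) := ⟨_, rfl⟩
  obtain ⟨T, hT⟩ : ∃ T : ℕ × ℕ → Finset (ℕ × ℕ), T = fun c => S.filter (fun x : ℕ × ℕ =>
    (∀ m, L - i - c.1 ≤ m → m < L - i → dg b m x.1 = b - 1) ∧
      (∀ m, L - j - c.2 ≤ m → m < L - j → dg b m x.2 = b - 1) ∧
      (x.2 : ℤ) = x.1 + h c.1 c.2) := ⟨_, rfl⟩
  obtain ⟨S1, hS1⟩ : ∃ S1 : Finset (ℕ × ℕ), S1 = S.filter (fun x : ℕ × ℕ =>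
    ∀ m, L - i - a ≤ m → m < L - i → dg b m x.1 = b - 1) := ⟨_, rfl⟩
  obtain ⟨S2, hS2⟩ : ∃ S2 : Finset (ℕ × ℕ), S2 = S.filter (fun x : ℕ × ℕ =>
    ∀ m, L - j - a ≤ m → m < L - j → dg b m x.2 = b - 1) := ⟨_, rfl⟩
  have hcover : S ⊆ (S1 ∪ S2) ∪ (range a ×ˢ range a).biUnion T := by
    intro x hx
    obtain ⟨h1, h2, -, -, h5⟩ := hmem x hx
    rw [Finset.mem_union, Finset.mem_union]
    rcases pair_diff b L a i j x.1 x.2 hb h1 h2 hi hj h5 with h6 | h6 | ⟨c1, c2, hc1, hc2, h7, h8, h9⟩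
    · left; left
      rw [hS1, Finset.mem_filter]
      exact ⟨hx, h6⟩
    · left; right
      rw [hS2, Finset.mem_filter]
      exact ⟨hx, h6⟩
    · right
      rw [Finset.mem_biUnion]
      refine ⟨(c1, c2), ?_, ?_⟩
      · rw [Finset.mem_product, Finset.mem_range, Finset.mem_range]
        exact ⟨hc1, hc2⟩
      · rw [hT, Finset.mem_filter, hh]
        exact ⟨hx, h7, h8, h9⟩
  have hc1 : S1.card ≤ b ^ (L - a) := by
    have hsub : S1 ⊆ S := by rw [hS1]; exact Finset.filter_subset _ _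
    refine W2_card b L (L - i - a) a hb1 (by omega) S1 Prod.fst
      (hinj1.mono (Finset.coe_subset.2 hsub)) (fun x hx => (hmem x (hsub hx)).1) ?_
    intro x hx m h1 h2
    rw [hS1, Finset.mem_filter] at hx
    exact hx.2 m h1 (by omega)
  have hc2 : S2.card ≤ b ^ (L - a) := by
    have hsub : S2 ⊆ S := by rw [hS2]; exact Finset.filter_subset _ _
    refine W2_card b L (L - j - a) a hb1 (by omega) S2 Prod.snd
      (hinj2.mono (Finset.coe_subset.2 hsub)) (fun x hx => (hmem x (hsub hx)).2.1) ?_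
    intro x hx m h1 h2
    rw [hS2, Finset.mem_filter] at hx
    exact hx.2 m h1 (by omega)
  have hc3 : ∀ c ∈ range a ×ˢ range a, ((T c).card : ℝ) ≤ C * (b : ℝ) ^ L / (L : ℝ) ^ 2 *
      (1 / Real.sqrt b) ^ (c.1 + c.2) * SS b (h c.1 c.2) := by
    rintro ⟨c1, c2⟩ hc
    rw [Finset.mem_product, Finset.mem_range, Finset.mem_range] at hc
    obtain ⟨hc1, hc2⟩ := hc
    simp only at hc1 hc2 ⊢
    have hne : h c1 c2 ≠ 0 := by
      rw [hh]
      exact diff_ne b L i j c1 c2 hb (by omega) (by omega) hij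
    have hsub : T (c1, c2) ⊆ S := by rw [hT]; exact Finset.filter_subset _ _
    have hTm : ∀ x ∈ T (c1, c2), (∀ m, L - i - c1 ≤ m → m < L - i → dg b m x.1 = b - 1) ∧
        (∀ m, L - j - c2 ≤ m → m < L - j → dg b m x.2 = b - 1) ∧
        (x.2 : ℤ) = x.1 + h c1 c2 := by
      intro x hx
      rw [hT, Finset.mem_filter] at hx
      exact hx.2
    have hn1 : ((T (c1, c2)).card : ℝ) ≤
        C * ((b : ℝ) ^ L / (b : ℝ) ^ c1) / (L : ℝ) ^ 2 * SS b (h c1 c2) := by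
      refine le_trans ?_ (hw L hL (L - i - c1) c1 (h c1 c2) (by omega) (by omega) hne)
      rw [Nat.cast_le]
      refine Finset.card_le_card_of_injOn Prod.fst ?_ (hinj1.mono (Finset.coe_subset.2 hsub))
      intro x hx
      rw [Finset.mem_coe] at hx
      obtain ⟨g1, -, g3⟩ := hTm x hx
      obtain ⟨f1, f2, f3, f4, -⟩ := hmem x (hsub hx)
      rw [Finset.mem_coe, Finset.mem_filter, Finset.mem_range]
      refine ⟨f1, f3, ?_, fun m h1 h2 => g1 m h1 (by omega)⟩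
      rw [← g3, Int.toNat_natCast]
      exact f4
    have hn2 : ((T (c1, c2)).card : ℝ) ≤
        C * ((b : ℝ) ^ L / (b : ℝ) ^ c2) / (L : ℝ) ^ 2 * SS b (h c1 c2) := by
      rw [← W2_SS b (h c1 c2)]
      refine le_trans ?_ (hw L hL (L - j - c2) c2 (-h c1 c2) (by omega) (by omega)
        (neg_ne_zero.2 hne))
      rw [Nat.cast_le]
      refine Finset.card_le_card_of_injOn Prod.snd ?_ (hinj2.mono (Finset.coe_subset.2 hsub))
      intro x hx
      rw [Finset.mem_coe] at hx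
      obtain ⟨-, g2, g3⟩ := hTm x hx
      obtain ⟨f1, f2, f3, f4, -⟩ := hmem x (hsub hx)
      rw [Finset.mem_coe, Finset.mem_filter, Finset.mem_range]
      refine ⟨f2, f4, ?_, fun m h1 h2 => g2 m h1 (by omega)⟩
      have h6 : (x.2 : ℤ) + -h c1 c2 = (x.1 : ℤ) := by rw [g3]; ring
      rw [h6, Int.toNat_natCast]
      exact f3
    have hA : 0 ≤ C * (b : ℝ) ^ L / (L : ℝ) ^ 2 * SS b (h c1 c2) :=
      mul_nonneg (by positivity) (W2_SS_nonneg _ _)
    have hmin := W2_min b hb ((T (c1, c2)).card : ℝ)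
      (C * (b : ℝ) ^ L / (L : ℝ) ^ 2 * SS b (h c1 c2)) c1 c2 (Nat.cast_nonneg _) hA
      (by
        refine hn1.trans (le_of_eq ?_)
        ring)
      (by
        refine hn2.trans (le_of_eq ?_)
        ring)
    refine hmin.trans (le_of_eq ?_)
    ring
  have htot : (S.card : ℝ) ≤ S1.card + S2.card + ∑ c ∈ range a ×ˢ range a, ((T c).card : ℝ) := by
    have h1 : S.card ≤ S1.card + S2.card + ∑ c ∈ range a ×ˢ range a, (T c).card :=
      calc S.card ≤ ((S1 ∪ S2) ∪ (range a ×ˢ range a).biUnion T).card :=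
            Finset.card_le_card hcover
        _ ≤ (S1 ∪ S2).card + ((range a ×ˢ range a).biUnion T).card := Finset.card_union_le _ _
        _ ≤ (S1.card + S2.card) + ∑ c ∈ range a ×ˢ range a, (T c).card :=
            add_le_add (Finset.card_union_le _ _) Finset.card_biUnion_le
    exact_mod_cast h1
  have hc1' : (S1.card : ℝ) ≤ (b : ℝ) ^ (L - a) := by exact_mod_cast hc1
  have hc2' : (S2.card : ℝ) ≤ (b : ℝ) ^ (L - a) := by exact_mod_cast hc2
  have hsum := Finset.sum_le_sum hc3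
  have hfin : ∑ c1 ∈ range a, ∑ c2 ∈ range a, C * (b : ℝ) ^ L / (L : ℝ) ^ 2 *
        (1 / Real.sqrt b) ^ (c1 + c2) *
        SS b (uc b c2 * (b : ℤ) ^ (L - 1 - j - c2) - uc b c1 * (b : ℤ) ^ (L - 1 - i - c1)) =
      ∑ x ∈ range a ×ˢ range a, C * (b : ℝ) ^ L / (L : ℝ) ^ 2 *
        (1 / Real.sqrt b) ^ (x.1 + x.2) * SS b (h x.1 x.2) := by
    rw [Finset.sum_product, hh]
  rw [hfin]
  linarith [hsum, htot, hc1', hc2']

end GL89
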