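import Pool.Agent.LibGL89.P0
import Pool.Agent.LibHG31.A2
import Pool.Agent.LibHG31.D2
import Pool.Agent.LibGL89.W2
import Pool.Agent.LibGL89.RM5

/-!
Row P2 (MEDIUM). The mean square of `S2 * GG1`.

`S2 * GG1 = ∑_{(k,j)} Λ k ee ((rv b L k + b^(vv a j)) x)` over `KS b L l r ×ˢ range M`; `pairs_parseval`, `rv < b^L` (`rv_lt`).  Left side `= K *` the sum of
`Λ k Λ k'` over `rv k + b^(vv a j) = rv k' + b^(vv a j')`.
`j = j'`: `k = k'` (`rv_injOn`, `A2_KS_lt`): `M ∑ Λ(k)² ≤ L (L log b) ∑_{k<b^L} Λ k ≤ C b^L L²` (Chebyshev).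
`j ≠ j'`: `i = vv a j`, `i' = vv a j'`, both `< L - a`.  Prime powers which are not primes: `card_prime_pow_le (b^L)`, as in row P1, negligible.  Primes: `≤ (L log b)²` times
`pairs_card b hb` : `2 b^(L-a) (L log b)² L² ≤ b^L` for large `L` because `a ≥ L/B - 1`; main part
`C (log b)² b^L ∑_{c1,c2<a} θ^(c1+c2) ∑_{j≠j'} SS(..)`, `θ = 1/sqrt b < 1`; for fixed `(c1,c2)` `SS_avg` with `u = uc b c2`, `v = uc b c1`,
`(x,y) = (L-1-i'-c2, L-1-i-c1)` (injective in `(j,j')`, values `< L`, `diff_ne`), `SS b (uc b c2) ≤ 1 + log |uc b c2| ≤ C (c2+1)` (`SS_log`, `|uc b c| ≤ b^(c+1)`,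
`≤ b^(2L)`), and `∑_{c1,c2} θ^(c1+c2) (c2+1)` converges.
-/

set_option autoImplicit false

namespace GL89

open Finset Pool.Agent.LibHG31
open scoped ArithmeticFunction.vonMangoldt

private theorem P2_expand (b L l r a M : ℕ) (x : ℝ) :
    S2 b L l r x * GG1 b a M x = ∑ i ∈ KS b L l r ×ˢ range M,
      ((Λ i.1 : ℝ) : ℂ) * ee (((rv b L i.1 + b ^ vv a i.2 : ℕ) : ℝ) * x) := by
  unfold S2 GG1
  rw [Finset.sum_mul_sum, ← Finset.sum_product']
  refine Finset.sum_congr rfl fun i _ => ?_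
  rw [mul_assoc, ← ee_add]
  congr 2
  push_cast
  ring

/-- the diagonal terms -/
private theorem P2_diag (b L l r c : ℕ) (hb : 2 ≤ b) (hL : 1 ≤ L) (hl : l < b) :
    ∑ k ∈ KS b L l r, ∑ k' ∈ KS b L l r, (if rv b L k + c = rv b L k' + c then Λ k * Λ k' else 0) ≤
      (L * Real.log b) * ((Real.log 4 + 4) * (b : ℝ) ^ L) := by
  classical
  have hlt : ∀ k ∈ KS b L l r, k < b ^ L := fun k hk => A2_KS_lt b L l r k hb hL hl hk
  have h1 : ∀ k ∈ KS b L l r, ∑ k' ∈ KS b L l r,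
      (if rv b L k + c = rv b L k' + c then Λ k * Λ k' else 0) ≤ (L * Real.log b) * Λ k := by
    intro k hk
    rw [Finset.sum_eq_single k]
    · rw [if_pos rfl]
      exact mul_le_mul_of_nonneg_right (A2_vonMangoldt_le b L k hb (hlt k hk))
        ArithmeticFunction.vonMangoldt_nonneg
    · intro k' hk' hne
      rw [if_neg]
      intro he
      exact hne (rv_injOn b L (by omega) (hlt k' hk') (hlt k hk) (by omega))
    · intro h
      exact absurd hk h
  refine (Finset.sum_le_sum h1).trans ?_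
  rw [← Finset.mul_sum]
  have hlogb : 0 ≤ Real.log b := Real.log_natCast_nonneg b
  refine mul_le_mul_of_nonneg_left ?_ (by positivity)
  have h2 : ∑ k ∈ KS b L l r, Λ k ≤ Chebyshev.psi ((b : ℝ) ^ L) := by
    unfold Chebyshev.psi
    have h3 : ⌊((b : ℝ) ^ L)⌋₊ = b ^ L := by
      have : ((b : ℝ) ^ L) = ((b ^ L : ℕ) : ℝ) := by push_cast; rfl
      rw [this, Nat.floor_natCast]
    rw [h3]
    have h4 : ∑ k ∈ KS b L l r, Λ k = ∑ k ∈ (KS b L l r).filter (fun k => k ≠ 0), Λ k := by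
      rw [Finset.sum_filter]
      refine Finset.sum_congr rfl fun k _ => ?_
      by_cases h0 : k = 0
      · rw [if_neg (by simpa using h0), h0]
        simp
      · rw [if_pos h0]
    rw [h4]
    refine Finset.sum_le_sum_of_subset_of_nonneg ?_ fun _ _ _ => ArithmeticFunction.vonMangoldt_nonneg
    intro k hk
    rw [mem_filter] at hk
    rw [mem_Ioc]
    exact ⟨Nat.pos_of_ne_zero hk.2, (hlt k hk.1).le⟩
  exact h2.trans (Chebyshev.psi_le_const_mul_self (by positivity))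

/-- the off-diagonal terms -/
private theorem P2_off (b L l r c c' : ℕ) (hb : 2 ≤ b) (hL : 1 ≤ L) (hl : l < b) :
    ∑ k ∈ KS b L l r, ∑ k' ∈ KS b L l r, (if rv b L k + c = rv b L k' + c' then Λ k * Λ k' else 0) ≤
      (L * Real.log b) ^ 2 * (((((range (b ^ L)) ×ˢ (range (b ^ L))).filter (fun x : ℕ × ℕ => x.1.Prime ∧ x.2.Prime ∧
      rv b L x.1 + c = rv b L x.2 + c')).card : ℝ) +
      2 * (((range (b ^ L)).filter (fun n => IsPrimePow n ∧ ¬ n.Prime)).card : ℝ)) := by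
  classical
  have hlt : ∀ k ∈ KS b L l r, k < b ^ L := fun k hk => A2_KS_lt b L l r k hb hL hl hk
  have hlogb : 0 ≤ Real.log b := Real.log_natCast_nonneg b
  set N := ((range (b ^ L)) ×ˢ (range (b ^ L))).filter (fun x : ℕ × ℕ => x.1.Prime ∧ x.2.Prime ∧
      rv b L x.1 + c = rv b L x.2 + c') with hN
  set A := (range (b ^ L)).filter (fun n => IsPrimePow n ∧ ¬ n.Prime) with hA
  set W := (KS b L l r ×ˢ KS b L l r).filter (fun x : ℕ × ℕ => rv b L x.1 + c = rv b L x.2 + c' ∧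
      IsPrimePow x.1 ∧ IsPrimePow x.2) with hW
  rw [← Finset.sum_product' (f := fun k k' => if rv b L k + c = rv b L k' + c' then Λ k * Λ k' else 0)]
  have h1 : ∀ x ∈ KS b L l r ×ˢ KS b L l r,
      (if rv b L x.1 + c = rv b L x.2 + c' then Λ x.1 * Λ x.2 else 0) ≤
      (if rv b L x.1 + c = rv b L x.2 + c' ∧ IsPrimePow x.1 ∧ IsPrimePow x.2 then (L * Real.log b) ^ 2 else 0) := by
    intro x hx
    rw [mem_product] at hx
    by_cases he : rv b L x.1 + c = rv b L x.2 + c'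
    · rw [if_pos he]
      by_cases hp : IsPrimePow x.1 ∧ IsPrimePow x.2
      · rw [if_pos ⟨he, hp⟩, sq]
        exact mul_le_mul (A2_vonMangoldt_le b L _ hb (hlt _ hx.1)) (A2_vonMangoldt_le b L _ hb (hlt _ hx.2))
          ArithmeticFunction.vonMangoldt_nonneg (by positivity)
      · rw [if_neg (fun h => hp h.2)]
        rw [not_and_or] at hp
        rcases hp with hp | hp
        · rw [ArithmeticFunction.vonMangoldt_eq_zero_iff.2 hp, zero_mul]
        · rw [ArithmeticFunction.vonMangoldt_eq_zero_iff.2 hp, mul_zero]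
    · rw [if_neg he, if_neg (fun h => he h.1)]
  refine (Finset.sum_le_sum h1).trans ?_
  rw [← Finset.sum_filter, ← hW, Finset.sum_const, nsmul_eq_mul, mul_comm]
  refine mul_le_mul_of_nonneg_left ?_ (sq_nonneg _)
  have hsub : W ⊆ N ∪ (W.filter (fun x => x.1 ∈ A) ∪ W.filter (fun x => x.2 ∈ A)) := by
    intro x hx
    have hx' := hx
    rw [hW, mem_filter, mem_product] at hx'
    obtain ⟨⟨hx1, hx2⟩, he, hp1, hp2⟩ := hx'
    by_cases hq1 : x.1.Prime
    · by_cases hq2 : x.2.Prime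
      · refine mem_union_left _ ?_
        rw [hN, mem_filter, mem_product, mem_range, mem_range]
        exact ⟨⟨hlt _ hx1, hlt _ hx2⟩, hq1, hq2, he⟩
      · refine mem_union_right _ (mem_union_right _ ?_)
        exact mem_filter.2 ⟨hx, mem_filter.2 ⟨mem_range.2 (hlt _ hx2), hp2, hq2⟩⟩
    · refine mem_union_right _ (mem_union_left _ ?_)
      exact mem_filter.2 ⟨hx, mem_filter.2 ⟨mem_range.2 (hlt _ hx1), hp1, hq1⟩⟩
  have hc1 : (W.filter (fun x => x.1 ∈ A)).card ≤ A.card := by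
    refine Finset.card_le_card_of_injOn (fun x => x.1) ?_ ?_
    · intro x hx
      exact (Finset.mem_filter.1 (Finset.mem_coe.1 hx)).2
    · intro x hx y hy he
      have hx1 := (Finset.mem_filter.1 (Finset.mem_coe.1 hx)).1
      have hy1 := (Finset.mem_filter.1 (Finset.mem_coe.1 hy)).1
      rw [hW, mem_filter, mem_product] at hx1 hy1
      have he' : x.1 = y.1 := he
      refine Prod.ext he' ?_
      refine rv_injOn b L (by omega) (hlt _ hx1.1.2) (hlt _ hy1.1.2) ?_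
      have e1 := hx1.2.1
      have e2 := hy1.2.1
      rw [he'] at e1
      omega
  have hc2 : (W.filter (fun x => x.2 ∈ A)).card ≤ A.card := by
    refine Finset.card_le_card_of_injOn (fun x => x.2) ?_ ?_
    · intro x hx
      exact (Finset.mem_filter.1 (Finset.mem_coe.1 hx)).2
    · intro x hx y hy he
      have hx1 := (Finset.mem_filter.1 (Finset.mem_coe.1 hx)).1
      have hy1 := (Finset.mem_filter.1 (Finset.mem_coe.1 hy)).1
      rw [hW, mem_filter, mem_product] at hx1 hy1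
      have he' : x.2 = y.2 := he
      refine Prod.ext ?_ he'
      refine rv_injOn b L (by omega) (hlt _ hx1.1.1) (hlt _ hy1.1.1) ?_
      have e1 := hx1.2.1
      have e2 := hy1.2.1
      rw [he'] at e1
      omega
  have hc : W.card ≤ N.card + (A.card + A.card) := by
    refine (Finset.card_le_card hsub).trans ?_
    refine (Finset.card_union_le _ _).trans ?_
    refine Nat.add_le_add_left ?_ _
    exact (Finset.card_union_le _ _).trans (Nat.add_le_add hc1 hc2)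
  have hc' : (W.card : ℝ) ≤ (N.card : ℝ) + ((A.card : ℝ) + (A.card : ℝ)) := by exact_mod_cast hc
  linarith

private theorem P2_uc_ne (b c : ℕ) (hb : 2 ≤ b) : uc b c ≠ 0 ∧ (uc b c).natAbs ≤ b ^ (c + 1) := by
  unfold uc
  rcases Nat.eq_zero_or_pos c with rfl | hc
  · have e : (b : ℤ) ^ (0 + 1) - b - 1 = -1 := by ring
    rw [e]
    refine ⟨by norm_num, ?_⟩
    have : 1 ≤ b ^ (0 + 1) := by rw [zero_add, pow_one]; omega
    simpa using this
  · have h1 : b ^ 2 ≤ b ^ (c + 1) := Nat.pow_le_pow_right (by omega) (by omega)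
    have h2 : b + 1 < b ^ 2 := by nlinarith
    have h3 : (b : ℤ) ^ (c + 1) - b - 1 = ((b ^ (c + 1) - b - 1 : ℕ) : ℤ) := by
      have h4 : b ≤ b ^ (c + 1) := by omega
      have h5 : 1 ≤ b ^ (c + 1) - b := by omega
      rw [Nat.cast_sub h5, Nat.cast_sub h4]
      push_cast
      ring
    rw [h3]
    refine ⟨?_, ?_⟩
    · have : b ^ (c + 1) - b - 1 ≠ 0 := by omega
      exact_mod_cast this
    · rw [Int.natAbs_natCast]
      omega

private theorem P2_SS_uc (b c : ℕ) (hb : 2 ≤ b) :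
    SS b (uc b c) ≤ (1 + Real.log b) * ((c : ℝ) + 1) := by
  obtain ⟨h1, h2⟩ := P2_uc_ne b c hb
  refine (SS_log b _ h1).trans ?_
  have h3 : Real.log ((uc b c).natAbs : ℝ) ≤ ((c : ℝ) + 1) * Real.log b := by
    have h4 : 0 < (uc b c).natAbs := Int.natAbs_pos.2 h1
    have h5 : Real.log ((uc b c).natAbs : ℝ) ≤ Real.log ((b : ℝ) ^ (c + 1)) := by
      refine Real.log_le_log (by exact_mod_cast h4) ?_
      exact_mod_cast h2
    rw [Real.log_pow] at h5
    push_cast at h5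
    exact h5
  have h6 : (0 : ℝ) ≤ c := Nat.cast_nonneg c
  nlinarith

/-- the average of `SS` over the pairs of exponents, for fixed carries -/
private theorem P2_avg (b L a M c1 c2 : ℕ) (hb : 2 ≤ b) (hL : 1 ≤ L) (ha : 8 * a ≤ L) (h1 : c1 < a) (h2 : c2 < a)
    (hM : ∀ j < M, vv a j + a < L) (C : ℝ) (hC : ∀ (L : ℕ) (u v : ℤ), 1 ≤ L → u ≠ 0 → v ≠ 0 →
    u.natAbs ≤ b ^ (2 * L) → v.natAbs ≤ b ^ (2 * L) →
    ∑ p ∈ (range L ×ˢ range L).filter (fun p : ℕ × ℕ => u * (b : ℤ) ^ p.1 - v * (b : ℤ) ^ p.2 ≠ 0),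
      SS b (u * (b : ℤ) ^ p.1 - v * (b : ℤ) ^ p.2) ≤ C * SS b u * (L : ℝ) ^ 2) (hC0 : 0 < C) :
    ∑ p ∈ (range M ×ˢ range M).filter (fun p : ℕ × ℕ => p.1 ≠ p.2),
      SS b (uc b c2 * (b : ℤ) ^ (L - 1 - vv a p.2 - c2) - uc b c1 * (b : ℤ) ^ (L - 1 - vv a p.1 - c1)) ≤
      C * (1 + Real.log b) * ((c2 : ℝ) + 1) * (L : ℝ) ^ 2 := by
  classical
  obtain ⟨hu0, hu1⟩ := P2_uc_ne b c2 hb
  obtain ⟨hv0, hv1⟩ := P2_uc_ne b c1 hb
  have hu2 : (uc b c2).natAbs ≤ b ^ (2 * L) := hu1.trans (Nat.pow_le_pow_right (by omega) (by omega))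
  have hv2 : (uc b c1).natAbs ≤ b ^ (2 * L) := hv1.trans (Nat.pow_le_pow_right (by omega) (by omega))
  have h3 := hC L (uc b c2) (uc b c1) hL hu0 hv0 hu2 hv2
  have h4 : ∑ p ∈ (range M ×ˢ range M).filter (fun p : ℕ × ℕ => p.1 ≠ p.2),
      SS b (uc b c2 * (b : ℤ) ^ (L - 1 - vv a p.2 - c2) - uc b c1 * (b : ℤ) ^ (L - 1 - vv a p.1 - c1)) ≤
      ∑ p ∈ (range L ×ˢ range L).filter (fun p : ℕ × ℕ => uc b c2 * (b : ℤ) ^ p.1 - uc b c1 * (b : ℤ) ^ p.2 ≠ 0),
      SS b (uc b c2 * (b : ℤ) ^ p.1 - uc b c1 * (b : ℤ) ^ p.2) := by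
    have hinj : Set.InjOn (fun p : ℕ × ℕ => ((L - 1 - vv a p.2 - c2, L - 1 - vv a p.1 - c1) : ℕ × ℕ))
        ((range M ×ˢ range M).filter (fun p : ℕ × ℕ => p.1 ≠ p.2)) := by
      intro p hp q hq he
      have hp' := mem_filter.1 (mem_coe.1 hp)
      have hq' := mem_filter.1 (mem_coe.1 hq)
      rw [mem_product, mem_range, mem_range] at hp' hq'
      have e1 := hM _ hp'.1.1
      have e2 := hM _ hp'.1.2
      have e3 := hM _ hq'.1.1
      have e4 := hM _ hq'.1.2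
      simp only [Prod.mk.injEq] at he
      unfold vv at he e1 e2 e3 e4
      refine Prod.ext ?_ ?_ <;> omega
    have h5 := Finset.sum_image (f := fun p : ℕ × ℕ => SS b (uc b c2 * (b : ℤ) ^ p.1 - uc b c1 * (b : ℤ) ^ p.2)) hinj
    rw [← h5]
    refine Finset.sum_le_sum_of_subset_of_nonneg ?_ fun p _ _ => zero_le_one.trans (SS_one b _)
    intro q hq
    rw [mem_image] at hq
    obtain ⟨p, hp, rfl⟩ := hq
    rw [mem_filter, mem_product, mem_range, mem_range] at hp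
    have e1 := hM _ hp.1.1
    have e2 := hM _ hp.1.2
    rw [mem_filter, mem_product, mem_range, mem_range]
    refine ⟨⟨?_, ?_⟩, ?_⟩
    · show L - 1 - vv a p.2 - c2 < L
      omega
    · show L - 1 - vv a p.1 - c1 < L
      omega
    · refine diff_ne b L (vv a p.1) (vv a p.2) c1 c2 hb (by omega) (by omega) ?_
      unfold vv
      omega
  refine (h4.trans h3).trans ?_
  have h6 := P2_SS_uc b c2 hb
  have h7 : C * SS b (uc b c2) ≤ C * ((1 + Real.log b) * ((c2 : ℝ) + 1)) := mul_le_mul_of_nonneg_left h6 hC0.le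
  refine (mul_le_mul_of_nonneg_right h7 (by positivity)).trans (le_of_eq ?_)
  ring

private theorem P2_geo (x : ℝ) (h0 : 0 ≤ x) (h1 : x < 1) : ∃ Z : ℝ, 0 < Z ∧ ∀ a : ℕ,
    ∑ c ∈ range a, x ^ c * ((c : ℝ) + 1) ≤ Z := by
  have hs1 : Summable (fun n : ℕ => ((n : ℝ) ^ 1 * x ^ n)) :=
    summable_pow_mul_geometric_of_norm_lt_one 1 (by rw [Real.norm_eq_abs, abs_of_nonneg h0]; exact h1)
  have hs2 : Summable (fun n : ℕ => x ^ n) := summable_geometric_of_lt_one h0 h1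
  have hs : Summable (fun n : ℕ => x ^ n * ((n : ℝ) + 1)) := by
    refine (hs1.add hs2).congr fun n => ?_
    ring
  refine ⟨(∑' n : ℕ, x ^ n * ((n : ℝ) + 1)) + 1, ?_, fun a => ?_⟩
  · have : 0 ≤ ∑' n : ℕ, x ^ n * ((n : ℝ) + 1) := tsum_nonneg fun n => by positivity
    linarith
  · have := hs.sum_le_tsum (range a) fun n _ => by positivity
    linarith

private theorem P2_pow_bound (x : ℝ) (h1 : 1 < x) : ∃ C : ℝ, 0 < C ∧ ∀ n : ℕ, (n : ℝ) ^ 3 ≤ C * x ^ n := by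
  have h := (tendsto_pow_const_div_const_pow_of_one_lt 3 h1).bddAbove_range
  obtain ⟨C, hC⟩ := h
  refine ⟨max C 1, lt_of_lt_of_le one_pos (le_max_right _ _), fun n => ?_⟩
  have h2 : (n : ℝ) ^ 3 / x ^ n ≤ C := hC ⟨n, rfl⟩
  have h3 : 0 < x ^ n := by positivity
  rw [div_le_iff₀ h3] at h2
  exact h2.trans (mul_le_mul_of_nonneg_right (le_max_left _ _) h3.le)

private theorem P2_sq_le (a : ℕ) : (a + 1) ^ 2 ≤ 4 * 2 ^ a := by
  induction a with
  | zero => norm_num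
  | succ n ih =>
    rcases Nat.lt_or_ge n 2 with h | h
    · interval_cases n <;> norm_num
    · have e : (n + 1 + 1) ^ 2 ≤ 2 * (n + 1) ^ 2 := by nlinarith
      rw [pow_succ 2 n]
      omega

/-- the total number of prime pairs -/
private theorem P2_N (b : ℕ) (hb : 2 ≤ b) (B : ℕ) (hB : 8 ≤ B) : ∃ (C : ℝ) (L0 : ℕ), 0 < C ∧ ∀ L : ℕ, L0 ≤ L →
    ∑ p ∈ (range (MN L B) ×ˢ range (MN L B)).filter (fun p : ℕ × ℕ => p.1 ≠ p.2),
      ((((range (b ^ L)) ×ˢ (range (b ^ L))).filter (fun x : ℕ × ℕ => x.1.Prime ∧ x.2.Prime ∧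
      rv b L x.1 + b ^ vv (L / B) p.1 = rv b L x.2 + b ^ vv (L / B) p.2)).card : ℝ) ≤ C * (b : ℝ) ^ L := by
  classical
  obtain ⟨C1, L1, hC1, h1⟩ := pairs_card b hb
  obtain ⟨C2, hC2, h2⟩ := SS_avg b hb
  have hbR : (2 : ℝ) ≤ b := by exact_mod_cast hb
  have hsq : 1 < Real.sqrt b := by
    rw [Real.lt_sqrt (by norm_num)]
    linarith
  have hth0 : 0 ≤ 1 / Real.sqrt b := by positivity
  have hth1 : 1 / Real.sqrt b < 1 := by
    rw [div_lt_one (by linarith)]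
    exact hsq
  obtain ⟨Z, hZ, h3⟩ := P2_geo _ hth0 hth1
  have hlogb : 0 ≤ Real.log b := Real.log_natCast_nonneg b
  refine ⟨8 * (B : ℝ) ^ 2 + C1 * C2 * (1 + Real.log b) * (Z * Z), max L1 1, by positivity, fun L hL => ?_⟩
  have hL1 : L1 ≤ L := (le_max_left _ _).trans hL
  have hL2 : 1 ≤ L := (le_max_right _ _).trans hL
  have hLR : (1 : ℝ) ≤ L := by exact_mod_cast hL2
  set a := L / B with ha
  set M := MN L B with hM
  have ha8 : 8 * a ≤ L := by
    have : a * B ≤ L := Nat.div_mul_le_self L B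
    nlinarith
  have hMv : ∀ j < M, vv a j + a < L := by
    intro j hj
    rw [hM] at hj
    unfold MN at hj
    unfold vv
    rw [← ha] at hj
    omega
  have hML : M ≤ L := by
    rw [hM]
    unfold MN
    omega
  set x := 1 / Real.sqrt b with hx
  set J2 := (range M ×ˢ range M).filter (fun p : ℕ × ℕ => p.1 ≠ p.2) with hJ2
  have h4 : ∀ p ∈ J2, ((((range (b ^ L)) ×ˢ (range (b ^ L))).filter (fun x : ℕ × ℕ => x.1.Prime ∧ x.2.Prime ∧
      rv b L x.1 + b ^ vv a p.1 = rv b L x.2 + b ^ vv a p.2)).card : ℝ) ≤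
      2 * (b : ℝ) ^ (L - a) + ∑ c1 ∈ range a, ∑ c2 ∈ range a, C1 * (b : ℝ) ^ L / (L : ℝ) ^ 2 *
        x ^ (c1 + c2) *
        SS b (uc b c2 * (b : ℤ) ^ (L - 1 - vv a p.2 - c2) - uc b c1 * (b : ℤ) ^ (L - 1 - vv a p.1 - c1)) := by
    intro p hp
    rw [hJ2, mem_filter, mem_product, mem_range, mem_range] at hp
    refine h1 L hL1 a (vv a p.1) (vv a p.2) ha8 (hMv _ hp.1.1) (hMv _ hp.1.2) ?_
    unfold vv
    omega
  refine (Finset.sum_le_sum h4).trans ?_
  rw [Finset.sum_add_distrib, Finset.sum_const, nsmul_eq_mul]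
  have hcardJ : (J2.card : ℝ) ≤ (L : ℝ) ^ 2 := by
    have : J2.card ≤ L ^ 2 := by
      refine (Finset.card_filter_le _ _).trans ?_
      rw [Finset.card_product, Finset.card_range, sq]
      exact Nat.mul_le_mul hML hML
    exact_mod_cast this
  have h5 : (J2.card : ℝ) * (2 * (b : ℝ) ^ (L - a)) ≤ 8 * (B : ℝ) ^ 2 * (b : ℝ) ^ L := by
    have hLB : (L : ℝ) ^ 2 ≤ 4 * (B : ℝ) ^ 2 * (b : ℝ) ^ a := by
      have e1 : L ≤ B * (a + 1) := by
        have := Nat.lt_mul_div_succ L (show 0 < B by omega)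
        rw [← ha] at this
        omega
      have e2 : L ^ 2 ≤ B ^ 2 * (a + 1) ^ 2 := by
        rw [← mul_pow]
        exact Nat.pow_le_pow_left e1 2
      have e3 := P2_sq_le a
      have e4 : 2 ^ a ≤ b ^ a := Nat.pow_le_pow_left hb a
      have e5 : L ^ 2 ≤ 4 * B ^ 2 * b ^ a := by
        calc L ^ 2 ≤ B ^ 2 * (a + 1) ^ 2 := e2
          _ ≤ B ^ 2 * (4 * b ^ a) := Nat.mul_le_mul_left _ (e3.trans (Nat.mul_le_mul_left _ e4))
          _ = 4 * B ^ 2 * b ^ a := by ring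
      exact_mod_cast e5
    have hpow : (b : ℝ) ^ a * (b : ℝ) ^ (L - a) = (b : ℝ) ^ L := by
      rw [← pow_add]
      congr 1
      omega
    calc (J2.card : ℝ) * (2 * (b : ℝ) ^ (L - a)) ≤ (4 * (B : ℝ) ^ 2 * (b : ℝ) ^ a) * (2 * (b : ℝ) ^ (L - a)) :=
          mul_le_mul_of_nonneg_right (hcardJ.trans hLB) (by positivity)
      _ = 8 * (B : ℝ) ^ 2 * ((b : ℝ) ^ a * (b : ℝ) ^ (L - a)) := by ring
      _ = 8 * (B : ℝ) ^ 2 * (b : ℝ) ^ L := by rw [hpow]
  have h6 : ∑ p ∈ J2, ∑ c1 ∈ range a, ∑ c2 ∈ range a, C1 * (b : ℝ) ^ L / (L : ℝ) ^ 2 *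
        x ^ (c1 + c2) *
        SS b (uc b c2 * (b : ℤ) ^ (L - 1 - vv a p.2 - c2) - uc b c1 * (b : ℤ) ^ (L - 1 - vv a p.1 - c1)) ≤
      C1 * C2 * (1 + Real.log b) * (Z * Z) * (b : ℝ) ^ L := by
    rw [Finset.sum_comm]
    have h7 : ∀ c1 ∈ range a, ∑ p ∈ J2, ∑ c2 ∈ range a, C1 * (b : ℝ) ^ L / (L : ℝ) ^ 2 *
        x ^ (c1 + c2) *
        SS b (uc b c2 * (b : ℤ) ^ (L - 1 - vv a p.2 - c2) - uc b c1 * (b : ℤ) ^ (L - 1 - vv a p.1 - c1)) ≤
        ∑ c2 ∈ range a, (C1 * (b : ℝ) ^ L * (C2 * (1 + Real.log b))) * (x ^ c1 * (x ^ c2 * ((c2 : ℝ) + 1))) := by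
      intro c1 hc1
      rw [Finset.sum_comm]
      refine Finset.sum_le_sum fun c2 hc2 => ?_
      rw [mem_range] at hc1 hc2
      rw [← Finset.mul_sum]
      have h8 := P2_avg b L a M c1 c2 hb hL2 ha8 hc1 hc2 hMv C2 h2 hC2
      rw [← hJ2] at h8
      have h9 : 0 ≤ C1 * (b : ℝ) ^ L / (L : ℝ) ^ 2 * x ^ (c1 + c2) := by positivity
      refine (mul_le_mul_of_nonneg_left h8 h9).trans (le_of_eq ?_)
      rw [pow_add]
      field_simp
    refine (Finset.sum_le_sum h7).trans ?_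
    have h10 : ∑ c1 ∈ range a, ∑ c2 ∈ range a, (C1 * (b : ℝ) ^ L * (C2 * (1 + Real.log b))) * (x ^ c1 * (x ^ c2 * ((c2 : ℝ) + 1))) =
        (C1 * (b : ℝ) ^ L * (C2 * (1 + Real.log b))) * ((∑ c1 ∈ range a, x ^ c1) * ∑ c2 ∈ range a, x ^ c2 * ((c2 : ℝ) + 1)) := by
      rw [Finset.sum_mul_sum, Finset.mul_sum]
      refine Finset.sum_congr rfl fun c1 _ => ?_
      rw [Finset.mul_sum]
    rw [h10]
    have h11 : ∑ c1 ∈ range a, x ^ c1 ≤ Z := by
      refine (Finset.sum_le_sum fun c _ => ?_).trans (h3 a)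
      have e1 : 0 ≤ x ^ c := by positivity
      have e2 : (0 : ℝ) ≤ c := Nat.cast_nonneg c
      nlinarith
    have h12 := h3 a
    have h13 : (∑ c1 ∈ range a, x ^ c1) * ∑ c2 ∈ range a, x ^ c2 * ((c2 : ℝ) + 1) ≤ Z * Z := by
      refine mul_le_mul h11 h12 ?_ hZ.le
      exact Finset.sum_nonneg fun c _ => by positivity
    refine (mul_le_mul_of_nonneg_left h13 (by positivity)).trans (le_of_eq ?_)
    ring
  calc _ ≤ 8 * (B : ℝ) ^ 2 * (b : ℝ) ^ L + C1 * C2 * (1 + Real.log b) * (Z * Z) * (b : ℝ) ^ L := add_le_add h5 h6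
    _ = _ := by ring

theorem S2_sq_le (b : ℕ) (hb : 2 ≤ b) (B : ℕ) (hB : 8 ≤ B) : ∃ (C : ℝ) (L0 : ℕ), 0 < C ∧ ∀ L : ℕ, L0 ≤ L → ∀ l r : ℕ, l < b →
    ∑ t ∈ range (b ^ (L + 5)), ‖S2 b L l r ((t : ℝ) / (b ^ (L + 5) : ℕ)) *
      GG1 b (L / B) (MN L B) ((t : ℝ) / (b ^ (L + 5) : ℕ))‖ ^ 2 ≤ (b ^ (L + 5) : ℕ) * (C * ((b : ℝ) ^ L * (L : ℝ) ^ 2)) := by
  classical
  obtain ⟨C1, L1, hC1, h1⟩ := P2_N b hb B hB
  have hbR : (2 : ℝ) ≤ b := by exact_mod_cast hb
  have hsq : 1 < Real.sqrt b := by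
    rw [Real.lt_sqrt (by norm_num)]
    linarith
  obtain ⟨C3, hC3, h3⟩ := P2_pow_bound _ hsq
  have hlogb : 0 ≤ Real.log b := Real.log_natCast_nonneg b
  have hlog2 : 0 < Real.log 2 := Real.log_pos (by norm_num)
  have hlog4 : 0 < Real.log 4 := Real.log_pos (by norm_num)
  refine ⟨Real.log b * (Real.log 4 + 4) + Real.log b ^ 2 * (C1 + 4 * C3 * (Real.log b / Real.log 2 + 1)) + 1,
    max L1 1, by positivity, fun L hL l r hl => ?_⟩
  have hL1 : L1 ≤ L := (le_max_left _ _).trans hL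
  have hL2 : 1 ≤ L := (le_max_right _ _).trans hL
  have hLR : (1 : ℝ) ≤ L := by exact_mod_cast hL2
  set a := L / B with ha
  set M := MN L B with hM
  have hMv : ∀ j < M, vv a j + a < L := by
    intro j hj
    rw [hM] at hj
    unfold MN at hj
    unfold vv
    rw [← ha] at hj
    omega
  have hML : M ≤ L := by
    rw [hM]
    unfold MN
    omega
  have hpar := pairs_parseval (KS b L l r ×ˢ range M) (fun i : ℕ × ℕ => rv b L i.1 + b ^ vv a i.2)
    (fun i : ℕ × ℕ => Λ i.1) (b ^ (L + 5)) (by positivity) (by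
      intro i hi
      rw [mem_product, mem_range] at hi
      have e1 := rv_lt b L i.1 (by omega)
      have e2 : b ^ vv a i.2 < b ^ L := Nat.pow_lt_pow_right (by omega) ((Nat.le_add_right _ _).trans_lt (hMv _ hi.2))
      have e3 : 2 * b ^ L ≤ b ^ (L + 5) := by
        calc 2 * b ^ L ≤ b * b ^ L := Nat.mul_le_mul_right _ hb
          _ = b ^ (L + 1) := by rw [pow_succ']
          _ ≤ b ^ (L + 5) := Nat.pow_le_pow_right (by omega) (by omega)
      show rv b L i.1 + b ^ vv a i.2 < b ^ (L + 5)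
      omega)
  have hexp : ∑ t ∈ range (b ^ (L + 5)), ‖S2 b L l r ((t : ℝ) / (b ^ (L + 5) : ℕ)) *
      GG1 b a M ((t : ℝ) / (b ^ (L + 5) : ℕ))‖ ^ 2 =
      ∑ t ∈ range (b ^ (L + 5)), ‖∑ i ∈ KS b L l r ×ˢ range M, (((fun i : ℕ × ℕ => Λ i.1) i : ℝ) : ℂ) *
        ee ((((fun i : ℕ × ℕ => rv b L i.1 + b ^ vv a i.2) i : ℕ) : ℝ) * ((t : ℝ) / (b ^ (L + 5) : ℕ)))‖ ^ 2 := by
    refine Finset.sum_congr rfl fun t _ => ?_
    rw [P2_expand]
  rw [hexp, hpar]
  refine mul_le_mul_of_nonneg_left ?_ (by positivity)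
  have hsplit : ∑ i ∈ KS b L l r ×ˢ range M, ∑ i' ∈ KS b L l r ×ˢ range M,
      (if (fun i : ℕ × ℕ => rv b L i.1 + b ^ vv a i.2) i = (fun i : ℕ × ℕ => rv b L i.1 + b ^ vv a i.2) i' then
        (fun i : ℕ × ℕ => Λ i.1) i * (fun i : ℕ × ℕ => Λ i.1) i' else 0) =
      ∑ p ∈ range M ×ˢ range M, ∑ k ∈ KS b L l r, ∑ k' ∈ KS b L l r,
        (if rv b L k + b ^ vv a p.1 = rv b L k' + b ^ vv a p.2 then Λ k * Λ k' else 0) := by
    rw [Finset.sum_product_right, Finset.sum_product]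
    refine Finset.sum_congr rfl fun j _ => ?_
    have e1 : ∀ k ∈ KS b L l r, ∑ i' ∈ KS b L l r ×ˢ range M,
      (if (fun i : ℕ × ℕ => rv b L i.1 + b ^ vv a i.2) (k, j) = (fun i : ℕ × ℕ => rv b L i.1 + b ^ vv a i.2) i' then
        (fun i : ℕ × ℕ => Λ i.1) (k, j) * (fun i : ℕ × ℕ => Λ i.1) i' else 0) =
      ∑ j' ∈ range M, ∑ k' ∈ KS b L l r,
        (if rv b L k + b ^ vv a j = rv b L k' + b ^ vv a j' then Λ k * Λ k' else 0) := by
      intro k _
      rw [Finset.sum_product_right]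
    rw [Finset.sum_congr rfl e1, Finset.sum_comm]
  rw [hsplit, ← Finset.sum_filter_add_sum_filter_not (range M ×ˢ range M) (fun p : ℕ × ℕ => p.1 = p.2)]
  have hdiag : ∑ p ∈ (range M ×ˢ range M).filter (fun p : ℕ × ℕ => p.1 = p.2), ∑ k ∈ KS b L l r, ∑ k' ∈ KS b L l r,
        (if rv b L k + b ^ vv a p.1 = rv b L k' + b ^ vv a p.2 then Λ k * Λ k' else 0) ≤
      Real.log b * (Real.log 4 + 4) * ((b : ℝ) ^ L * (L : ℝ) ^ 2) := by
    have e1 : ∀ p ∈ (range M ×ˢ range M).filter (fun p : ℕ × ℕ => p.1 = p.2), ∑ k ∈ KS b L l r, ∑ k' ∈ KS b L l r,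
        (if rv b L k + b ^ vv a p.1 = rv b L k' + b ^ vv a p.2 then Λ k * Λ k' else 0) ≤
        (L * Real.log b) * ((Real.log 4 + 4) * (b : ℝ) ^ L) := by
      intro p hp
      rw [mem_filter] at hp
      rw [← hp.2]
      exact P2_diag b L l r _ hb hL2 hl
    refine (Finset.sum_le_sum e1).trans ?_
    rw [Finset.sum_const, nsmul_eq_mul]
    have e2 : (((range M ×ˢ range M).filter (fun p : ℕ × ℕ => p.1 = p.2)).card : ℝ) ≤ L := by
      have : ((range M ×ˢ range M).filter (fun p : ℕ × ℕ => p.1 = p.2)).card ≤ (range L).card := by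
        refine Finset.card_le_card_of_injOn (fun p => p.1) ?_ ?_
        · intro p hp
          have hp' := mem_filter.1 (mem_coe.1 hp)
          rw [mem_product, mem_range] at hp'
          rw [mem_coe, mem_range]
          exact hp'.1.1.trans_le hML
        · intro p hp q hq he
          have hp' := (mem_filter.1 (mem_coe.1 hp)).2
          have hq' := (mem_filter.1 (mem_coe.1 hq)).2
          have he' : p.1 = q.1 := he
          exact Prod.ext he' (by rw [← hp', ← hq']; exact he')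
      rw [Finset.card_range] at this
      exact_mod_cast this
    refine (mul_le_mul_of_nonneg_right e2 (by positivity)).trans (le_of_eq ?_)
    ring
  have hoff : ∑ p ∈ (range M ×ˢ range M).filter (fun p : ℕ × ℕ => ¬ p.1 = p.2), ∑ k ∈ KS b L l r, ∑ k' ∈ KS b L l r,
        (if rv b L k + b ^ vv a p.1 = rv b L k' + b ^ vv a p.2 then Λ k * Λ k' else 0) ≤
      Real.log b ^ 2 * (C1 + 4 * C3 * (Real.log b / Real.log 2 + 1)) * ((b : ℝ) ^ L * (L : ℝ) ^ 2) := by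
    have e1 : ∀ p ∈ (range M ×ˢ range M).filter (fun p : ℕ × ℕ => ¬ p.1 = p.2), ∑ k ∈ KS b L l r, ∑ k' ∈ KS b L l r,
        (if rv b L k + b ^ vv a p.1 = rv b L k' + b ^ vv a p.2 then Λ k * Λ k' else 0) ≤
        (L * Real.log b) ^ 2 * ((((range (b ^ L)) ×ˢ (range (b ^ L))).filter (fun x : ℕ × ℕ => x.1.Prime ∧ x.2.Prime ∧
      rv b L x.1 + b ^ vv a p.1 = rv b L x.2 + b ^ vv a p.2)).card : ℝ) +
        (L * Real.log b) ^ 2 * (2 * (((range (b ^ L)).filter (fun n => IsPrimePow n ∧ ¬ n.Prime)).card : ℝ)) := by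
      intro p _
      rw [← mul_add]
      exact P2_off b L l r _ _ hb hL2 hl
    refine (Finset.sum_le_sum e1).trans ?_
    rw [Finset.sum_add_distrib, ← Finset.mul_sum, Finset.sum_const, nsmul_eq_mul]
    have e2 := h1 L hL1
    have e3 : (L * Real.log b) ^ 2 * ∑ p ∈ (range M ×ˢ range M).filter (fun p : ℕ × ℕ => ¬ p.1 = p.2),
        ((((range (b ^ L)) ×ˢ (range (b ^ L))).filter (fun x : ℕ × ℕ => x.1.Prime ∧ x.2.Prime ∧
      rv b L x.1 + b ^ vv a p.1 = rv b L x.2 + b ^ vv a p.2)).card : ℝ) ≤ (L * Real.log b) ^ 2 * (C1 * (b : ℝ) ^ L) :=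
      mul_le_mul_of_nonneg_left e2 (sq_nonneg _)
    have hcardJ : ((((range M ×ˢ range M).filter (fun p : ℕ × ℕ => ¬ p.1 = p.2))).card : ℝ) ≤ (L : ℝ) ^ 2 := by
      have : ((range M ×ˢ range M).filter (fun p : ℕ × ℕ => ¬ p.1 = p.2)).card ≤ L ^ 2 := by
        refine (Finset.card_filter_le _ _).trans ?_
        rw [Finset.card_product, Finset.card_range, sq]
        exact Nat.mul_le_mul hML hML
      exact_mod_cast this
    have hX2 : 2 ≤ b ^ L := by
      calc 2 ≤ b := hb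
        _ = b ^ 1 := (pow_one b).symm
        _ ≤ b ^ L := Nat.pow_le_pow_right (by omega) hL2
    have hA := card_prime_pow_le (b ^ L) hX2
    have hsX : Real.sqrt ((b ^ L : ℕ) : ℝ) = Real.sqrt b ^ L := by
      push_cast
      rw [Real.sqrt_eq_iff_mul_self_eq (by positivity) (by positivity), ← mul_pow,
        Real.mul_self_sqrt (by positivity)]
    have hlX : Real.log ((b ^ L : ℕ) : ℝ) = L * Real.log b := by
      push_cast
      rw [Real.log_pow]
    rw [hsX, hlX] at hA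
    have hs1 : 1 ≤ Real.sqrt b ^ L := one_le_pow₀ hsq.le
    have hA2 : (((range (b ^ L)).filter (fun n => IsPrimePow n ∧ ¬ n.Prime)).card : ℝ) ≤
        (2 * Real.sqrt b ^ L) * (L * (Real.log b / Real.log 2 + 1)) := by
      refine hA.trans ?_
      have e4 : 0 ≤ Real.log b / Real.log 2 := by positivity
      have e5 : (L : ℝ) * Real.log b / Real.log 2 + 1 ≤ L * (Real.log b / Real.log 2 + 1) := by
        have : (L : ℝ) * Real.log b / Real.log 2 = L * (Real.log b / Real.log 2) := by ring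
        rw [this]
        nlinarith
      refine mul_le_mul (by linarith) e5 ?_ (by positivity)
      positivity
    have hss : Real.sqrt b ^ L * Real.sqrt b ^ L = (b : ℝ) ^ L := by
      rw [← mul_pow, Real.mul_self_sqrt (by positivity)]
    have e6 : ((((range M ×ˢ range M).filter (fun p : ℕ × ℕ => ¬ p.1 = p.2))).card : ℝ) *
        ((L * Real.log b) ^ 2 * (2 * (((range (b ^ L)).filter (fun n => IsPrimePow n ∧ ¬ n.Prime)).card : ℝ))) ≤
        Real.log b ^ 2 * (4 * C3 * (Real.log b / Real.log 2 + 1)) * ((b : ℝ) ^ L * (L : ℝ) ^ 2) := by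
      calc _ ≤ (L : ℝ) ^ 2 * ((L * Real.log b) ^ 2 * (2 * ((2 * Real.sqrt b ^ L) * (L * (Real.log b / Real.log 2 + 1))))) := by
            refine mul_le_mul hcardJ ?_ (by positivity) (by positivity)
            exact mul_le_mul_of_nonneg_left (by linarith) (sq_nonneg _)
        _ = (4 * Real.log b ^ 2 * (Real.log b / Real.log 2 + 1) * (L : ℝ) ^ 2 * Real.sqrt b ^ L) * (L : ℝ) ^ 3 := by ring
        _ ≤ (4 * Real.log b ^ 2 * (Real.log b / Real.log 2 + 1) * (L : ℝ) ^ 2 * Real.sqrt b ^ L) * (C3 * Real.sqrt b ^ L) := by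
            refine mul_le_mul_of_nonneg_left (h3 L) ?_
            positivity
        _ = 4 * Real.log b ^ 2 * (Real.log b / Real.log 2 + 1) * (L : ℝ) ^ 2 * C3 * (Real.sqrt b ^ L * Real.sqrt b ^ L) := by ring
        _ = _ := by rw [hss]; ring
    calc _ ≤ (L * Real.log b) ^ 2 * (C1 * (b : ℝ) ^ L) +
          Real.log b ^ 2 * (4 * C3 * (Real.log b / Real.log 2 + 1)) * ((b : ℝ) ^ L * (L : ℝ) ^ 2) := add_le_add e3 e6
      _ = _ := by ring
  have hone : (0 : ℝ) ≤ (b : ℝ) ^ L * (L : ℝ) ^ 2 := by positivity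
  have hfin := add_le_add hdiag hoff
  refine hfin.trans ?_
  nlinarith [hone]

end GL89
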