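import Pool.Agent.LibGL89.Defs

/-!
Row RM1 (SHORT/MEDIUM). `SS` in terms of divisors; trivial bounds.

SS_le: the primes `p ∣ h`, `p > L`, are at most `log |h|/log L`, in any case at most `log_2 |h| ≤ 4 L log_2 b` many; their product of `1 + 1/p ≤ exp (1/L)` is
`≤ exp (4 log_2 b)` =: `C`.  The primes `p ∣ h`, `p ≤ L`, `p ∤ b` form a subset `Q` of `PB b L`; `∏_{p ∈ Q} (1+1/p) = ∑_{S ⊆ Q} ∏_{p ∈ S} 1/p`
(`Finset.prod_one_add` or `Finset.prod_add`), and `S ↦ ∏ S` is injective into the `d ∈ DD b L` with `d ∣ h`.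
SS_log: `SS b h ≤ ∑_{d ∣ |h|} 1/d ≤ ∑_{d ≤ |h|} 1/d ≤ 1 + log |h|`.   SS_one: every factor is `≥ 1`.   SS_neg: `natAbs_neg`.
sum_DD: `∑_{d ∈ DD b L} 1/d = ∏_{p ∈ PB b L} (1 + 1/p) ≤ ∏_{n=2}^{L} (1+1/n) = (L+1)/2 ≤ L` (telescoping).
-/

set_option autoImplicit false

namespace GL89

open Finset Pool.Agent.LibHG31

private theorem prod_expand (F : Finset ℕ) :
    ∏ p ∈ F, (1 + 1 / (p : ℝ)) = ∑ S ∈ F.powerset, 1 / ((∏ p ∈ S, p : ℕ) : ℝ) := by
  rw [Finset.prod_one_add]
  apply Finset.sum_congr rfl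
  intro S _
  rw [Nat.cast_prod, Finset.prod_div_distrib, Finset.prod_const_one]

private theorem prod_injOn (F : Finset ℕ) (hF : ∀ p ∈ F, p.Prime) :
    Set.InjOn (fun S : Finset ℕ => ∏ p ∈ S, p) (F.powerset : Set (Finset ℕ)) := by
  intro S hS T hT h
  have hS' : S ⊆ F := by simpa using hS
  have hT' : T ⊆ F := by simpa using hT
  have h1 := Nat.primeFactors_prod (fun p hp => hF p (hS' hp))
  have h2 := Nat.primeFactors_prod (fun p hp => hF p (hT' hp))
  simp only at h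
  rw [← h1, ← h2, h]

private theorem prod_expand_image (F : Finset ℕ) (hF : ∀ p ∈ F, p.Prime) :
    ∏ p ∈ F, (1 + 1 / (p : ℝ)) = ∑ d ∈ F.powerset.image (fun S : Finset ℕ => ∏ p ∈ S, p), 1 / (d : ℝ) := by
  rw [prod_expand, Finset.sum_image (prod_injOn F hF)]

private theorem prod_le_sum (F D : Finset ℕ) (hF : ∀ p ∈ F, p.Prime)
    (hD : ∀ S ⊆ F, (∏ p ∈ S, p) ∈ D) :
    ∏ p ∈ F, (1 + 1 / (p : ℝ)) ≤ ∑ d ∈ D, 1 / (d : ℝ) := by
  rw [prod_expand_image F hF]
  apply Finset.sum_le_sum_of_subset_of_nonneg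
  · intro d hd
    obtain ⟨S, hS, rfl⟩ := Finset.mem_image.1 hd
    exact hD S (Finset.mem_powerset.1 hS)
  · intros
    positivity

private theorem primes_prod_dvd (S : Finset ℕ) (n : ℕ) (hS : S ⊆ n.primeFactors) : (∏ p ∈ S, p) ∣ n :=
  (Finset.prod_dvd_prod_of_subset _ _ _ hS).trans (Nat.prod_primeFactors_dvd n)

theorem SS_one (b : ℕ) (h : ℤ) : 1 ≤ SS b h := by
  unfold SS
  calc (1 : ℝ) = ∏ p ∈ h.natAbs.primeFactors.filter (fun p => ¬ p ∣ b), (1 : ℝ) := by simp
    _ ≤ _ := by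
      apply Finset.prod_le_prod
      · intros; norm_num
      · intro p _
        have : (0 : ℝ) ≤ 1 / (p : ℝ) := by positivity
        linarith

theorem SS_neg (b : ℕ) (h : ℤ) : SS b (-h) = SS b h := by
  unfold SS
  rw [Int.natAbs_neg]

theorem SS_log (b : ℕ) (h : ℤ) (hh : h ≠ 0) : SS b h ≤ 1 + Real.log (h.natAbs : ℝ) := by
  unfold SS
  have hn : h.natAbs ≠ 0 := Int.natAbs_ne_zero.2 hh
  have h1 : ∏ p ∈ h.natAbs.primeFactors.filter (fun p => ¬ p ∣ b), (1 + 1 / (p : ℝ)) ≤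
      ∑ d ∈ Finset.Icc 1 h.natAbs, 1 / (d : ℝ) := by
    apply prod_le_sum
    · intro p hp
      exact Nat.prime_of_mem_primeFactors (Finset.mem_filter.1 hp).1
    · intro S hS
      have h2 : (∏ p ∈ S, p) ∣ h.natAbs :=
        primes_prod_dvd S _ (fun p hp => (Finset.mem_filter.1 (hS hp)).1)
      rw [Finset.mem_Icc]
      exact ⟨Nat.pos_of_dvd_of_pos h2 (Nat.pos_of_ne_zero hn), Nat.le_of_dvd (Nat.pos_of_ne_zero hn) h2⟩
  refine h1.trans ?_
  have h3 := harmonic_le_one_add_log h.natAbs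
  rw [harmonic_eq_sum_Icc] at h3
  push_cast at h3
  simpa [one_div] using h3

private theorem big_part (b L : ℕ) (h : ℤ) (hb : 2 ≤ b) (hL : 1 ≤ L) (hh : h ≠ 0) (hle : h.natAbs ≤ b ^ (4 * L))
    (F : Finset ℕ) (hF : F ⊆ h.natAbs.primeFactors) (hFL : ∀ p ∈ F, L < p) :
    ∏ p ∈ F, (1 + 1 / (p : ℝ)) ≤ Real.exp (4 * Real.log b / Real.log 2) := by
  have hn : 0 < h.natAbs := Nat.pos_of_ne_zero (Int.natAbs_ne_zero.2 hh)
  have hLr : (0 : ℝ) < L := by exact_mod_cast hL
  have h1 : 2 ^ F.card ≤ b ^ (4 * L) := by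
    calc 2 ^ F.card ≤ ∏ p ∈ F, p := by
          rw [← Finset.prod_const]
          apply Finset.prod_le_prod'
          intro p hp
          exact (Nat.prime_of_mem_primeFactors (hF hp)).two_le
      _ ≤ h.natAbs := Nat.le_of_dvd hn (primes_prod_dvd F _ hF)
      _ ≤ _ := hle
  have h2 : (F.card : ℝ) * Real.log 2 ≤ 4 * L * Real.log b := by
    have h3 : ((2 : ℝ)) ^ F.card ≤ (b : ℝ) ^ (4 * L) := by exact_mod_cast h1
    have h4 := Real.log_le_log (by positivity) h3
    rw [Real.log_pow, Real.log_pow] at h4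
    push_cast at h4
    exact h4
  have hl2 : 0 < Real.log 2 := Real.log_pos (by norm_num)
  have h5 : ∏ p ∈ F, (1 + 1 / (p : ℝ)) ≤ ∏ p ∈ F, Real.exp (1 / (L : ℝ)) := by
    apply Finset.prod_le_prod
    · intros; positivity
    · intro p hp
      have h6 : (1 : ℝ) / p ≤ 1 / L := by
        apply one_div_le_one_div_of_le hLr
        exact_mod_cast (hFL p hp).le
      have h7 := Real.add_one_le_exp (1 / (L : ℝ))
      linarith
  refine h5.trans ?_
  rw [Finset.prod_const, ← Real.exp_nat_mul]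
  apply Real.exp_le_exp.2
  rw [le_div_iff₀ hl2]
  have : (F.card : ℝ) * (1 / (L : ℝ)) * Real.log 2 = ((F.card : ℝ) * Real.log 2) / L := by ring
  rw [this, div_le_iff₀ hLr]
  linarith

theorem SS_le (b : ℕ) (hb : 2 ≤ b) : ∃ C : ℝ, 0 < C ∧ ∀ (L : ℕ) (h : ℤ), 1 ≤ L → h ≠ 0 → h.natAbs ≤ b ^ (4 * L) →
    SS b h ≤ C * ∑ d ∈ (DD b L).filter (fun d : ℕ => (d : ℤ) ∣ h), 1 / (d : ℝ) := by
  refine ⟨Real.exp (4 * Real.log b / Real.log 2), Real.exp_pos _, ?_⟩
  intro L h hL hh hle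
  unfold SS
  set F := h.natAbs.primeFactors.filter (fun p => ¬ p ∣ b) with hFdef
  rw [← Finset.prod_filter_mul_prod_filter_not F (fun p => L < p)]
  have hA : ∏ p ∈ F.filter (fun p => L < p), (1 + 1 / (p : ℝ)) ≤ Real.exp (4 * Real.log b / Real.log 2) := by
    apply big_part b L h hb hL hh hle
    · intro p hp
      exact (Finset.mem_filter.1 (Finset.mem_filter.1 hp).1).1
    · intro p hp
      exact (Finset.mem_filter.1 hp).2
  have hB : ∏ p ∈ F.filter (fun p => ¬ L < p), (1 + 1 / (p : ℝ)) ≤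
      ∑ d ∈ (DD b L).filter (fun d : ℕ => (d : ℤ) ∣ h), 1 / (d : ℝ) := by
    apply prod_le_sum
    · intro p hp
      exact Nat.prime_of_mem_primeFactors (Finset.mem_filter.1 (Finset.mem_filter.1 hp).1).1
    · intro S hS
      rw [Finset.mem_filter]
      constructor
      · unfold DD
        rw [Finset.mem_image]
        refine ⟨S, ?_, rfl⟩
        rw [Finset.mem_powerset]
        intro p hp
        have h1 := Finset.mem_filter.1 (hS hp)
        have h2 := Finset.mem_filter.1 h1.1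
        unfold PB
        rw [Finset.mem_filter, Finset.mem_range]
        refine ⟨?_, Nat.prime_of_mem_primeFactors h2.1, h2.2⟩
        have := h1.2
        omega
      · rw [Int.natCast_dvd]
        apply primes_prod_dvd
        intro p hp
        exact (Finset.mem_filter.1 (Finset.mem_filter.1 (hS hp)).1).1
  apply mul_le_mul hA hB
  · apply Finset.prod_nonneg
    intros; positivity
  · exact (Real.exp_pos _).le

theorem mem_DD (b L d : ℕ) (hb : 2 ≤ b) (hd : d ∈ DD b L) : 0 < d ∧ Squarefree d ∧ d.Coprime b := by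
  unfold DD at hd
  obtain ⟨S, hS, rfl⟩ := Finset.mem_image.1 hd
  have hS' : ∀ p ∈ S, p.Prime ∧ ¬ p ∣ b := by
    intro p hp
    have h1 := (Finset.mem_powerset.1 hS) hp
    unfold PB at h1
    exact (Finset.mem_filter.1 h1).2
  refine ⟨?_, ?_, ?_⟩
  · exact Finset.prod_pos (fun p hp => (hS' p hp).1.pos)
  · apply Finset.squarefree_prod_of_pairwise_isCoprime
    · intro p hp q hq hpq
      rw [Function.onFun, ← Nat.coprime_iff_isRelPrime]
      exact (Nat.coprime_primes (hS' p hp).1 (hS' q hq).1).2 hpq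
    · intro p hp
      exact (hS' p hp).1.prime.squarefree
  · apply Nat.Coprime.prod_left
    intro p hp
    exact (Nat.Prime.coprime_iff_not_dvd (hS' p hp).1).2 (hS' p hp).2

private theorem tele (L : ℕ) (hL : 1 ≤ L) : ∏ n ∈ Finset.Icc 2 L, (1 + 1 / (n : ℝ)) = (L + 1) / 2 := by
  induction L, hL using Nat.le_induction with
  | base => norm_num
  | succ n hn ih =>
    rw [← Finset.insert_Icc_right_eq_Icc_add_one (by omega), Finset.prod_insert (by simp), ih]
    push_cast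
    field_simp

theorem sum_DD (b L : ℕ) (hL : 1 ≤ L) : ∑ d ∈ DD b L, 1 / (d : ℝ) ≤ L := by
  unfold DD
  rw [← prod_expand_image (PB b L) (fun p hp => by unfold PB at hp; exact (Finset.mem_filter.1 hp).2.1)]
  calc ∏ p ∈ PB b L, (1 + 1 / (p : ℝ)) ≤ ∏ n ∈ Finset.Icc 2 L, (1 + 1 / (n : ℝ)) := by
        apply Finset.prod_le_prod_of_subset_of_one_le
        · intro p hp
          unfold PB at hp
          have h1 := Finset.mem_filter.1 hp
          have h2 := h1.2.1.two_le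
          have h3 := Finset.mem_range.1 h1.1
          rw [Finset.mem_Icc]
          omega
        · intros; positivity
        · intro n _ _
          have : (0 : ℝ) ≤ 1 / (n : ℝ) := by positivity
          linarith
    _ = ((L : ℝ) + 1) / 2 := tele L hL
    _ ≤ L := by
      have : (1 : ℝ) ≤ L := by exact_mod_cast hL
      linarith

end GL89
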