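import Pool.Agent.LibGL89.Defs

/-!
Row RM2 (SHORT/MEDIUM). Counting the pairs `(x, y)` with `d ∣ u b^x - v b^y`.

`g = gcd(d, u)`.  Suppose some `(x0, y0)` is a solution: every prime `p ∣ g` divides `v b^y0`, so `p ∣ v` (`p ∤ b`); symmetrically a prime `p ∣ d`, `p ∣ v`
divides `u`.  `d' = d/g` is prime to `g` (`d` squarefree), so prime to `u`, `v`, `b`.  For fixed `y` and two solutions `x, x'`: `u b^x = u b^x'` in `ZMod d'`, so
`b^x = b^x'` (units), so `x = x'` mod `od b d'` (`pow_inj_mod` / `orderOf`); the number of `x < L` in a class modulo `o ≥ 1` is `≤ L/o + 1`.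
`od_pos`: `b` is a unit mod `d` of finite order (`d > 0`).
-/

set_option autoImplicit false

namespace GL89

open Finset Pool.Agent.LibHG31

theorem od_pos (b d : ℕ) (hd : 0 < d) (h : d.Coprime b) : 0 < od b d := by
  have : NeZero d := ⟨hd.ne'⟩
  have h1 : ((ZMod.unitOfCoprime b h.symm : (ZMod d)ˣ) : ZMod d) = ((b : ℕ) : ZMod d) :=
    ZMod.coe_unitOfCoprime b h.symm
  unfold od
  rw [← h1, orderOf_units]
  exact orderOf_pos _

private theorem RM2_class_card (L o : ℕ) (ho : 0 < o) (S : Finset ℕ) (hS : S ⊆ range L)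
    (h : ∀ x ∈ S, ∀ x' ∈ S, x ≡ x' [MOD o]) : (S.card : ℝ) ≤ (L : ℝ) / o + 1 := by
  have h1 : S.card ≤ (range (L / o + 1)).card := by
    apply Finset.card_le_card_of_injOn (fun x => x / o)
    · intro x hx
      have h2 : x < L := mem_range.1 (hS hx)
      have h3 : x / o ≤ L / o := Nat.div_le_div_right h2.le
      simpa [Nat.lt_succ_iff] using h3
    · intro x hx x' hx' e
      have h2 : x % o = x' % o := h x hx x' hx'
      have e' : x / o = x' / o := e
      rw [← Nat.div_add_mod x o, ← Nat.div_add_mod x' o, e', h2]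
  rw [card_range] at h1
  have h2 : ((L / o : ℕ) : ℝ) ≤ (L : ℝ) / o := Nat.cast_div_le
  have h3 : (S.card : ℝ) ≤ ((L / o + 1 : ℕ) : ℝ) := by exact_mod_cast h1
  push_cast at h3
  linarith

theorem count_xy (b L d : ℕ) (hb : 2 ≤ b) (hd0 : 0 < d) (hd : Squarefree d) (hdb : d.Coprime b) (u v : ℤ) (hu : u ≠ 0)
    (hv : v ≠ 0) :
    (((range L ×ˢ range L).filter (fun p : ℕ × ℕ => (d : ℤ) ∣ u * (b : ℤ) ^ p.1 - v * (b : ℤ) ^ p.2)).card : ℝ) ≤
      L * (L / (od b (d / Nat.gcd d u.natAbs) : ℝ) + 1) := by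
  set g := Nat.gcd d u.natAbs with hg
  have hgd : g ∣ d := Nat.gcd_dvd_left _ _
  set d' := d / g with hd'
  have hdd : d' * g = d := Nat.div_mul_cancel hgd
  have hd'd : d' ∣ d := ⟨g, hdd.symm⟩
  have hd'0 : 0 < d' := Nat.pos_of_dvd_of_pos hd'd hd0
  have hd'b : d'.Coprime b := Nat.Coprime.coprime_dvd_left hd'd hdb
  have ho := od_pos b d' hd'0 hd'b
  have hcop : Nat.Coprime d' u.natAbs := by
    apply Nat.coprime_of_dvd
    intro p hp h1 h2
    have h3 : p ∣ g := Nat.dvd_gcd (h1.trans hd'd) h2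
    have h4 : p * p ∣ d := by
      rw [← hdd]
      exact mul_dvd_mul h1 h3
    exact hp.one_lt.ne' (Nat.isUnit_iff.1 (hd p h4))
  have hcopZ : IsCoprime (d' : ℤ) u := by
    rw [Int.isCoprime_iff_gcd_eq_one]
    simpa [Int.gcd] using hcop
  have : NeZero d' := ⟨hd'0.ne'⟩
  have hub : ((ZMod.unitOfCoprime b hd'b.symm : (ZMod d')ˣ) : ZMod d') = ((b : ℕ) : ZMod d') :=
    ZMod.coe_unitOfCoprime b hd'b.symm
  have h1 : ((range L ×ˢ range L).filter
      (fun p : ℕ × ℕ => (d : ℤ) ∣ u * (b : ℤ) ^ p.1 - v * (b : ℤ) ^ p.2)).card =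
      ∑ y ∈ range L, ((range L).filter
        (fun x => (d : ℤ) ∣ u * (b : ℤ) ^ x - v * (b : ℤ) ^ y)).card := by
    rw [Finset.card_filter, Finset.sum_product_right]
    apply Finset.sum_congr rfl
    intro y _
    rw [Finset.card_filter]
  rw [h1]
  push_cast
  have h2 : ∀ y ∈ range L, (((range L).filter
        (fun x => (d : ℤ) ∣ u * (b : ℤ) ^ x - v * (b : ℤ) ^ y)).card : ℝ) ≤
        (L : ℝ) / (od b d' : ℝ) + 1 := by
    intro y _
    apply RM2_class_card L _ ho _ (Finset.filter_subset _ _)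
    intro x hx x' hx'
    have e1 := (Finset.mem_filter.1 hx).2
    have e2 := (Finset.mem_filter.1 hx').2
    have e3 : (d : ℤ) ∣ u * ((b : ℤ) ^ x - (b : ℤ) ^ x') := by
      have := dvd_sub e1 e2
      have h3 : u * (b : ℤ) ^ x - v * (b : ℤ) ^ y - (u * (b : ℤ) ^ x' - v * (b : ℤ) ^ y) =
        u * ((b : ℤ) ^ x - (b : ℤ) ^ x') := by ring
      rwa [h3] at this
    have e4 : (d' : ℤ) ∣ u * ((b : ℤ) ^ x - (b : ℤ) ^ x') :=
      (Int.natCast_dvd_natCast.2 hd'd).trans e3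
    have e5 : (d' : ℤ) ∣ (b : ℤ) ^ x - (b : ℤ) ^ x' := hcopZ.dvd_of_dvd_mul_left e4
    have e6 : ((b : ℕ) : ZMod d') ^ x = ((b : ℕ) : ZMod d') ^ x' := by
      have h4 := (ZMod.intCast_zmod_eq_zero_iff_dvd _ _).2 e5
      push_cast at h4
      exact sub_eq_zero.1 h4
    have e7 : (ZMod.unitOfCoprime b hd'b.symm : (ZMod d')ˣ) ^ x =
        (ZMod.unitOfCoprime b hd'b.symm : (ZMod d')ˣ) ^ x' := by
      apply Units.ext
      rw [Units.val_pow_eq_pow_val, Units.val_pow_eq_pow_val, hub, e6]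
    have e8 := pow_eq_pow_iff_modEq.1 e7
    have e9 : orderOf (ZMod.unitOfCoprime b hd'b.symm : (ZMod d')ˣ) = od b d' := by
      unfold od
      rw [← hub, orderOf_units]
    rwa [e9] at e8
  calc ∑ y ∈ range L, (((range L).filter
        (fun x => (d : ℤ) ∣ u * (b : ℤ) ^ x - v * (b : ℤ) ^ y)).card : ℝ)
      ≤ ∑ y ∈ range L, ((L : ℝ) / (od b d' : ℝ) + 1) := Finset.sum_le_sum h2
    _ = L * (L / (od b d' : ℝ) + 1) := by
        rw [Finset.sum_const, card_range, nsmul_eq_mul]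

end GL89
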