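import Pool.Agent.LibGL89.Defs
import Pool.Agent.LibGL89.MT

/-!
Row SV1 (MEDIUM). The product over the primes in the sieve bound.

`P = primes p ≤ z, p ≥ P0, p ∤ b`, `P0 ≥ 3`.  For `p ∣ h` the factor is `1 - 1/p`, otherwise `1 - 2/p ≤ (1 - 1/p)^2`.  So the product is
`≤ ∏_{p ∈ P} (1-1/p)^2 * ∏_{p ∈ P, p ∣ h} (1-1/p)^(-1)`.
First factor: `≤ exp (-2 ∑_{p ∈ P} 1/p)` and `∑_{p ≤ z} 1/p ≥ log log z - C` (Mertens: `GL89.mertens` in MT.lean; for small `z` adjust the constant); the primes `< P0` or `∣ b` contribute `O(1)`.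
Second: `(1-1/p)^(-1) = (1+1/p)/(1-1/p²)`, `∏ (1-1/p²)^(-1) ≤ ∏_{n≥2} ... ≤ 2` (telescoping), and `∏_{p ∈ P, p ∣ h} (1+1/p) ≤ SS b h` (subset, factors `≥ 1`).
-/

set_option autoImplicit false

namespace GL89

open Finset Pool.Agent.LibHG31

private theorem exp_le_aux (x : ℝ) (h0 : 0 ≤ x) (_h1 : x ≤ 1) :
    Real.exp x ≤ (1 + x) * Real.exp (x ^ 2) := by
  have h2 : 0 < 1 - (x - x ^ 2) := by nlinarith
  have h3 : 1 - (x - x ^ 2) ≤ Real.exp (-(x - x ^ 2)) := by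
    have := Real.add_one_le_exp (-(x - x ^ 2))
    linarith
  have h4 : Real.exp (x - x ^ 2) ≤ 1 + x := by
    have h5 : Real.exp (x - x ^ 2) * (1 - (x - x ^ 2)) ≤ 1 := by
      calc Real.exp (x - x ^ 2) * (1 - (x - x ^ 2))
          ≤ Real.exp (x - x ^ 2) * Real.exp (-(x - x ^ 2)) :=
            mul_le_mul_of_nonneg_left h3 (Real.exp_pos _).le
        _ = 1 := by rw [← Real.exp_add]; simp
    have h6 : 1 ≤ (1 + x) * (1 - (x - x ^ 2)) := by nlinarith [pow_nonneg h0 3]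
    exact le_of_mul_le_mul_right (h5.trans h6) h2
  calc Real.exp x = Real.exp (x - x ^ 2) * Real.exp (x ^ 2) := by rw [← Real.exp_add]; ring_nf
    _ ≤ (1 + x) * Real.exp (x ^ 2) := mul_le_mul_of_nonneg_right h4 (Real.exp_pos _).le

private theorem prod_subset_le (s t : Finset ℕ) (hst : s ⊆ t) (f : ℕ → ℝ) (hf : ∀ p, 1 ≤ f p) :
    ∏ p ∈ s, f p ≤ ∏ p ∈ t, f p := by
  classical
  have h1 : ∀ u : Finset ℕ, 1 ≤ ∏ p ∈ u, f p := fun u => by
    induction u using Finset.induction_on with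
    | empty => simp
    | insert a u ha ih =>
      rw [Finset.prod_insert ha]
      nlinarith [hf a]
  rw [← Finset.prod_sdiff hst]
  have h2 := h1 (t \ s)
  have h3 := h1 s
  nlinarith

private theorem SS_ge (b z P0 : ℕ) (h : ℤ) (hh : h ≠ 0) :
    ∏ p ∈ ((range (z + 1)).filter (fun p => p.Prime ∧ P0 ≤ p ∧ ¬ p ∣ b)).filter
      (fun p : ℕ => (p : ℤ) ∣ h), (1 + 1 / (p : ℝ)) ≤ SS b h := by
  unfold SS
  refine prod_subset_le _ _ ?_ (fun p : ℕ => 1 + 1 / (p : ℝ)) (fun p => ?_)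
  · intro p hp
    rw [mem_filter, mem_filter] at hp
    rw [mem_filter, Nat.mem_primeFactors]
    exact ⟨⟨hp.1.2.1, Int.natCast_dvd.1 hp.2, Int.natAbs_ne_zero.2 hh⟩, hp.1.2.2.2⟩
  · have : (0 : ℝ) ≤ 1 / (p : ℝ) := by positivity
    linarith

private theorem sq_le (s : Finset ℕ) : ∑ p ∈ s, (1 / (p : ℝ)) ^ 2 ≤ ∑' n : ℕ, 1 / (n : ℝ) ^ 2 := by
  have h : Summable (fun n : ℕ => 1 / (n : ℝ) ^ 2) := Real.summable_one_div_nat_pow.2 (by norm_num)
  have h1 : ∑ p ∈ s, (1 / (p : ℝ)) ^ 2 = ∑ p ∈ s, 1 / (p : ℝ) ^ 2 :=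
    Finset.sum_congr rfl fun p _ => by rw [div_pow, one_pow]
  rw [h1]
  exact h.sum_le_tsum s fun n _ => by positivity

private theorem sum_lower (b P0 : ℕ) (hb : 2 ≤ b) : ∃ C : ℝ, ∀ z : ℕ,
    Real.log (Real.log z) - C ≤
      ∑ p ∈ (range (z + 1)).filter (fun p => p.Prime ∧ P0 ≤ p ∧ ¬ p ∣ b), 1 / (p : ℝ) := by
  classical
  obtain ⟨C, _, hC⟩ := mertens
  refine ⟨C + (P0 + b + 1 : ℕ), fun z => ?_⟩
  have h1 := hC z
  rw [abs_le] at h1
  have h2 : ∑ p ∈ (range (z + 1)).filter Nat.Prime, 1 / (p : ℝ) =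
      ∑ p ∈ ((range (z + 1)).filter Nat.Prime).filter (fun p => P0 ≤ p ∧ ¬ p ∣ b), 1 / (p : ℝ) +
      ∑ p ∈ ((range (z + 1)).filter Nat.Prime).filter (fun p => ¬ (P0 ≤ p ∧ ¬ p ∣ b)), 1 / (p : ℝ) :=
    (Finset.sum_filter_add_sum_filter_not _ _ _).symm
  have h3 : ∑ p ∈ ((range (z + 1)).filter Nat.Prime).filter (fun p => ¬ (P0 ≤ p ∧ ¬ p ∣ b)),
      1 / (p : ℝ) ≤ ((P0 + b + 1 : ℕ) : ℝ) := by
    calc ∑ p ∈ ((range (z + 1)).filter Nat.Prime).filter (fun p => ¬ (P0 ≤ p ∧ ¬ p ∣ b)),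
          1 / (p : ℝ)
        ≤ ∑ p ∈ ((range (z + 1)).filter Nat.Prime).filter (fun p => ¬ (P0 ≤ p ∧ ¬ p ∣ b)),
          (1 : ℝ) := by
          refine Finset.sum_le_sum fun p hp => ?_
          rw [mem_filter, mem_filter] at hp
          have : (1 : ℝ) ≤ p := by exact_mod_cast hp.1.2.one_lt.le
          rw [div_le_one (by linarith)]
          exact this
      _ = ((((range (z + 1)).filter Nat.Prime).filter (fun p => ¬ (P0 ≤ p ∧ ¬ p ∣ b))).card : ℝ) := by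
          simp
      _ ≤ ((P0 + b + 1 : ℕ) : ℝ) := by
          have h4 : ((range (z + 1)).filter Nat.Prime).filter (fun p => ¬ (P0 ≤ p ∧ ¬ p ∣ b)) ⊆
              range (P0 + b + 1) := by
            intro p hp
            rw [mem_filter] at hp
            rw [mem_range]
            by_contra hlt
            apply hp.2
            refine ⟨by omega, fun hd => ?_⟩
            have := Nat.le_of_dvd (by omega) hd
            omega
          have h5 := Finset.card_le_card h4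
          rw [card_range] at h5
          exact_mod_cast h5
  have h6 : (range (z + 1)).filter (fun p => p.Prime ∧ P0 ≤ p ∧ ¬ p ∣ b) =
      ((range (z + 1)).filter Nat.Prime).filter (fun p => P0 ≤ p ∧ ¬ p ∣ b) := by
    rw [Finset.filter_filter]
  rw [h6]
  linarith [h1.1]

theorem prod_le (b P0 : ℕ) (hb : 2 ≤ b) (hP : 3 ≤ P0) : ∃ C : ℝ, 0 < C ∧ ∀ (z : ℕ) (h : ℤ), 2 ≤ z → h ≠ 0 →
    ∏ p ∈ (range (z + 1)).filter (fun p => p.Prime ∧ P0 ≤ p ∧ ¬ p ∣ b),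
      (if (p : ℤ) ∣ h then 1 - 1 / (p : ℝ) else 1 - 2 / (p : ℝ)) ≤ C / Real.log z ^ 2 * SS b h := by
  classical
  obtain ⟨C, hC⟩ := sum_lower b P0 hb
  refine ⟨Real.exp (2 * C) * Real.exp (∑' n : ℕ, 1 / (n : ℝ) ^ 2), by positivity, fun z h hz hh => ?_⟩
  set P := (range (z + 1)).filter (fun p => p.Prime ∧ P0 ≤ p ∧ ¬ p ∣ b) with hPdef
  have hp3 : ∀ p ∈ P, (3 : ℝ) ≤ p := by
    intro p hp
    rw [hPdef, mem_filter] at hp
    exact_mod_cast hP.trans hp.2.2.1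
  have h1 : ∏ p ∈ P, (if (p : ℤ) ∣ h then 1 - 1 / (p : ℝ) else 1 - 2 / (p : ℝ)) ≤
      ∏ p ∈ P, (Real.exp (-(2 * (1 / (p : ℝ)))) *
        (if (p : ℤ) ∣ h then (1 + 1 / (p : ℝ)) * Real.exp ((1 / (p : ℝ)) ^ 2) else 1)) := by
    refine Finset.prod_le_prod (fun p hp => ?_) (fun p hp => ?_)
    · have h3 := hp3 p hp
      have h4 : 1 / (p : ℝ) ≤ 1 / 3 := one_div_le_one_div_of_le (by norm_num) h3
      have h5 : 2 / (p : ℝ) = 2 * (1 / (p : ℝ)) := by ring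
      split_ifs
      · linarith
      · rw [h5]; linarith
    · have h3 := hp3 p hp
      have h4 : 1 / (p : ℝ) ≤ 1 / 3 := one_div_le_one_div_of_le (by norm_num) h3
      have h40 : 0 ≤ 1 / (p : ℝ) := by positivity
      have h5 : 2 / (p : ℝ) = 2 * (1 / (p : ℝ)) := by ring
      split_ifs
      · have h6 := exp_le_aux (1 / (p : ℝ)) h40 (by linarith)
        have h7 : 1 - 1 / (p : ℝ) ≤ Real.exp (-(1 / (p : ℝ))) := by
          have := Real.add_one_le_exp (-(1 / (p : ℝ)))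
          linarith
        calc 1 - 1 / (p : ℝ) ≤ Real.exp (-(1 / (p : ℝ))) := h7
          _ = Real.exp (-(2 * (1 / (p : ℝ)))) * Real.exp (1 / (p : ℝ)) := by
              rw [← Real.exp_add]; congr 1; ring
          _ ≤ _ := mul_le_mul_of_nonneg_left h6 (Real.exp_pos _).le
      · rw [mul_one, h5]
        have := Real.add_one_le_exp (-(2 * (1 / (p : ℝ))))
        linarith
  have h2 : ∏ p ∈ P, (Real.exp (-(2 * (1 / (p : ℝ)))) *
        (if (p : ℤ) ∣ h then (1 + 1 / (p : ℝ)) * Real.exp ((1 / (p : ℝ)) ^ 2) else 1)) =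
      Real.exp (-(2 * ∑ p ∈ P, 1 / (p : ℝ))) *
        ((∏ p ∈ P.filter (fun p : ℕ => (p : ℤ) ∣ h), (1 + 1 / (p : ℝ))) *
          Real.exp (∑ p ∈ P.filter (fun p : ℕ => (p : ℤ) ∣ h), (1 / (p : ℝ)) ^ 2)) := by
    rw [Finset.prod_mul_distrib, ← Real.exp_sum, Finset.sum_neg_distrib, ← Finset.mul_sum,
      ← Finset.prod_filter, Finset.prod_mul_distrib, ← Real.exp_sum]
  have h3 : (∏ p ∈ P.filter (fun p : ℕ => (p : ℤ) ∣ h), (1 + 1 / (p : ℝ))) *
      Real.exp (∑ p ∈ P.filter (fun p : ℕ => (p : ℤ) ∣ h), (1 / (p : ℝ)) ^ 2) ≤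
      SS b h * Real.exp (∑' n : ℕ, 1 / (n : ℝ) ^ 2) := by
    refine mul_le_mul (SS_ge b z P0 h hh) (Real.exp_le_exp.2 (sq_le _)) (Real.exp_pos _).le ?_
    unfold SS
    exact Finset.prod_nonneg fun p _ => by positivity
  have hlog : 0 < Real.log (z : ℝ) := Real.log_pos (by exact_mod_cast hz)
  have h4 : Real.exp (-(2 * ∑ p ∈ P, 1 / (p : ℝ))) ≤ Real.exp (2 * C) / Real.log z ^ 2 := by
    have h5 := hC z
    have h6 : Real.exp (-(2 * ∑ p ∈ P, 1 / (p : ℝ))) ≤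
        Real.exp (2 * C - (Real.log (Real.log z) + Real.log (Real.log z))) :=
      Real.exp_le_exp.2 (by linarith)
    rw [Real.exp_sub, Real.exp_add, Real.exp_log hlog, ← sq] at h6
    exact h6
  have hSS : 0 ≤ SS b h := by
    unfold SS
    exact Finset.prod_nonneg fun p _ => by positivity
  calc ∏ p ∈ P, (if (p : ℤ) ∣ h then 1 - 1 / (p : ℝ) else 1 - 2 / (p : ℝ))
      ≤ _ := h1
    _ = _ := h2
    _ ≤ Real.exp (2 * C) / Real.log z ^ 2 * (SS b h * Real.exp (∑' n : ℕ, 1 / (n : ℝ) ^ 2)) := by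
        refine mul_le_mul h4 h3 ?_ (by positivity)
        exact mul_nonneg (Finset.prod_nonneg fun p _ => by positivity) (Real.exp_pos _).le
    _ = _ := by ring

end GL89
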