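import Pool.Agent.LibGL89.SV2

/-!
Row W1 (MEDIUM). Prime pairs `k, k + h` with a window of digits `b - 1` in `k`.

`k < b^L`, digits of `k` at the places `p, .., p+c-1` equal to `b-1` (`dg b j k = k / b^j % b`): `k = w b^(p+c) + (b^c - 1) b^p + r`, `r < b^p`,
`w < b^(L-p-c)` (`k / b^p % b^c = b^c - 1`).
Case `2 p ≥ L` : for each `w`: `pair_sieve` with `W = 1`, `A = w b^(p+c) + (b^c-1) b^p`, `Y = b^p` (`log Y ≥ (L/2) log b`), times `b^(L-p-c)`.
Case `2 p < L` : for each `r`: `W = b^(p+c)`, `A = (b^c-1) b^p + r`, `Y = b^(L-p-c)`, `L - p - c ≥ L/4` (`c ≤ L/B ≤ L/8`), times `b^p`.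
Both give `≤ 16 C b^(L-c) SS/(L log b)^2`.  (`Y ≥ 2` for large `L`.)
-/

set_option autoImplicit false

namespace GL89

open Finset Pool.Agent.LibHG31

private theorem W1_dig (b p a : ℕ) (hb : 2 ≤ b) : ∀ c : ℕ, (∀ j, p ≤ j → j < p + c → dg b j a = b - 1) →
    a / b ^ p % b ^ c = b ^ c - 1 := by
  intro c
  induction c with
  | zero => intro _; simp [Nat.mod_one]
  | succ c ih =>
    intro h
    rw [Nat.mod_pow_succ, ih fun j h1 h2 => h j h1 (by omega), Nat.div_div_eq_div_mul, ← pow_add]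
    have h1 : a / b ^ (p + c) % b = b - 1 := h (p + c) (by omega) (by omega)
    rw [h1]
    have h2 : 1 ≤ b ^ c := Nat.one_le_pow _ _ (by omega)
    obtain ⟨k, rfl⟩ := Nat.exists_eq_add_of_le hb
    have e : 2 + k - 1 = k + 1 := by omega
    rw [e, pow_succ]
    have e2 : (2 + k) ^ c * (2 + k) = (2 + k) ^ c * (k + 1) + (2 + k) ^ c := by ring
    omega

private theorem W1_eq (b p c a : ℕ) (hb : 2 ≤ b) (h : ∀ j, p ≤ j → j < p + c → dg b j a = b - 1) :
    a = a % b ^ p + b ^ p * ((b ^ c - 1) + b ^ c * (a / b ^ (p + c))) := by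
  rw [pow_add, ← Nat.div_div_eq_div_mul, ← W1_dig b p a hb c h, Nat.mod_add_div, Nat.mod_add_div]

private theorem W1_final (b L p c Y e : ℕ) (hb : 2 ≤ b) (C0 S : ℝ) (hC0 : 0 < C0) (hS : 0 ≤ S)
    (hL : 0 < L) (hY : Y = b ^ e) (he : L ≤ 4 * e) (N : ℝ) (hN : N * Y = (b : ℝ) ^ L / (b : ℝ) ^ c)
    (hN0 : 0 ≤ N) :
    N * (C0 * Y * S / Real.log Y ^ 2) ≤
      16 * C0 / Real.log b ^ 2 * ((b : ℝ) ^ L / (b : ℝ) ^ c) / (L : ℝ) ^ 2 * S := by
  have hlb : 0 < Real.log b := Real.log_pos (by exact_mod_cast (by omega : 1 < b))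
  have hLr : (0 : ℝ) < L := by exact_mod_cast hL
  have her : (L : ℝ) ≤ 4 * e := by exact_mod_cast he
  have hlog : Real.log Y = e * Real.log b := by
    rw [hY]
    push_cast
    rw [Real.log_pow]
  have he0 : (0 : ℝ) < e := by linarith
  have h1 : N * (C0 * Y * S / Real.log Y ^ 2) = C0 * S * ((b : ℝ) ^ L / (b : ℝ) ^ c) / (e * Real.log b) ^ 2 := by
    rw [hlog, ← hN]
    ring
  have h2 : 16 * C0 / Real.log b ^ 2 * ((b : ℝ) ^ L / (b : ℝ) ^ c) / (L : ℝ) ^ 2 * S =
      C0 * S * ((b : ℝ) ^ L / (b : ℝ) ^ c) / ((L / 4) * Real.log b) ^ 2 := by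
    field_simp
    ring
  rw [h1, h2]
  have hb0 : (0 : ℝ) < b := by exact_mod_cast (by omega : 0 < b)
  apply div_le_div_of_nonneg_left
  · positivity
  · positivity
  · have h3 : (L : ℝ) / 4 * Real.log b ≤ e * Real.log b :=
      mul_le_mul_of_nonneg_right (by linarith) hlb.le
    exact pow_le_pow_left₀ (by positivity) h3 2

theorem window (b : ℕ) (hb : 2 ≤ b) : ∃ (C : ℝ) (L0 : ℕ), 0 < C ∧ ∀ L : ℕ, L0 ≤ L → ∀ (p c : ℕ) (h : ℤ),
    8 * c ≤ L → p + c ≤ L → h ≠ 0 →
    (((range (b ^ L)).filter (fun k : ℕ => k.Prime ∧ ((k : ℤ) + h).toNat.Prime ∧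
      ∀ j, p ≤ j → j < p + c → dg b j k = b - 1)).card : ℝ) ≤
      C * ((b : ℝ) ^ L / (b : ℝ) ^ c) / (L : ℝ) ^ 2 * SS b h := by
  obtain ⟨C0, hC0, hs⟩ := pair_sieve b hb
  have hlb : 0 < Real.log b := Real.log_pos (by exact_mod_cast (by omega : 1 < b))
  have hb0 : 0 < b := by omega
  have hbr : (0 : ℝ) < b := by exact_mod_cast hb0
  refine ⟨16 * C0 / Real.log b ^ 2, 8, by positivity, ?_⟩
  intro L hL p c h hc hpc hh
  have hSS : 0 ≤ SS b h := by
    unfold SS
    exact Finset.prod_nonneg fun q _ => by positivity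
  set F := (range (b ^ L)).filter (fun k : ℕ => k.Prime ∧ ((k : ℤ) + h).toNat.Prime ∧
      ∀ j, p ≤ j → j < p + c → dg b j k = b - 1) with hF
  obtain ⟨q, rfl⟩ := Nat.exists_eq_add_of_le hpc
  have hpos : 0 < b ^ (p + c) := pow_pos hb0 _
  have hmapw : ∀ a ∈ F, a / b ^ (p + c) ∈ range (b ^ q) := by
    intro a ha
    have h1 := Finset.mem_range.1 (Finset.mem_filter.1 ha).1
    rw [Finset.mem_range, Nat.div_lt_iff_lt_mul hpos, ← pow_add]
    rwa [add_comm q]
  have hmapr : ∀ a ∈ F, a % b ^ p ∈ range (b ^ p) := fun a _ =>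
    Finset.mem_range.2 (Nat.mod_lt _ (pow_pos hb0 _))
  by_cases hp : p + c + q ≤ 2 * p
  · -- fix `w`
    have hfib : ∀ w ∈ range (b ^ q), ((F.filter (fun a => a / b ^ (p + c) = w)).card : ℝ) ≤
        C0 * (b ^ p : ℕ) * SS b h / Real.log (b ^ p : ℕ) ^ 2 := by
      intro w _
      set A : ℕ := b ^ p * ((b ^ c - 1) + b ^ c * w) with hA
      have h1 := hs 1 (A : ℤ) h (b ^ p) le_rfl (fun r hr hr1 => absurd (Nat.dvd_one.1 hr1) hr.one_lt.ne') hh
        (le_trans hb (Nat.le_self_pow (by omega) b))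
      refine le_trans ?_ h1
      have h2 : (F.filter (fun a => a / b ^ (p + c) = w)).card ≤
          ((range (b ^ p)).filter (fun m : ℕ => ((A : ℤ) + (1 : ℕ) * m).toNat.Prime ∧
            ((A : ℤ) + (1 : ℕ) * m + h).toNat.Prime)).card := by
        refine Finset.card_le_card_of_injOn (fun a => a % b ^ p) ?_ ?_
        · intro a ha
          have ha' := Finset.mem_filter.1 (Finset.mem_coe.1 ha)
          have ha2 := (Finset.mem_filter.1 ha'.1).2
          have e := W1_eq b p c a hb ha2.2.2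
          rw [ha'.2, ← hA] at e
          have e2 : ((A : ℤ) + (1 : ℕ) * ((a % b ^ p : ℕ) : ℤ)) = (a : ℤ) := by
            have e3 : (a : ℤ) = ((a % b ^ p + A : ℕ) : ℤ) := by exact_mod_cast e
            rw [e3]
            push_cast
            ring
          refine Finset.mem_coe.2 (Finset.mem_filter.2 ⟨hmapr a ha'.1, ?_⟩)
          simp only [e2]
          exact ⟨by simpa using ha2.1, ha2.2.1⟩
        · intro a ha a' ha' haa
          have ha1 := Finset.mem_filter.1 (Finset.mem_coe.1 ha)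
          have ha2 := Finset.mem_filter.1 (Finset.mem_coe.1 ha')
          have e1 := W1_eq b p c a hb (Finset.mem_filter.1 ha1.1).2.2.2
          have e2 := W1_eq b p c a' hb (Finset.mem_filter.1 ha2.1).2.2.2
          rw [ha1.2] at e1
          rw [ha2.2] at e2
          rw [e1, e2]
          have : a % b ^ p = a' % b ^ p := haa
          rw [this]
      exact_mod_cast h2
    have hcard := Finset.card_eq_sum_card_fiberwise (f := fun a => a / b ^ (p + c)) (s := F)
      (t := range (b ^ q)) (fun a ha => Finset.mem_coe.2 (hmapw a ha))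
    rw [hcard, Nat.cast_sum]
    refine le_trans (Finset.sum_le_sum hfib) ?_
    rw [Finset.sum_const, Finset.card_range, nsmul_eq_mul]
    refine W1_final b (p + c + q) p c (b ^ p) p hb C0 (SS b h) hC0 hSS (by omega) rfl (by omega)
      ((b ^ q : ℕ) : ℝ) ?_ (Nat.cast_nonneg _)
    push_cast
    rw [pow_add, pow_add]
    field_simp
  · -- fix `r`
    have hfib : ∀ r ∈ range (b ^ p), ((F.filter (fun a => a % b ^ p = r)).card : ℝ) ≤
        C0 * (b ^ q : ℕ) * SS b h / Real.log (b ^ q : ℕ) ^ 2 := by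
      intro r _
      set A : ℕ := r + b ^ p * (b ^ c - 1) with hA
      have h1 := hs (b ^ (p + c)) (A : ℤ) h (b ^ q) hpos
        (fun r hr hr1 => hr.dvd_of_dvd_pow hr1) hh
        (le_trans hb (Nat.le_self_pow (by omega) b))
      refine le_trans ?_ h1
      have h2 : (F.filter (fun a => a % b ^ p = r)).card ≤
          ((range (b ^ q)).filter (fun m : ℕ => ((A : ℤ) + (b ^ (p + c) : ℕ) * m).toNat.Prime ∧
            ((A : ℤ) + (b ^ (p + c) : ℕ) * m + h).toNat.Prime)).card := by
        refine Finset.card_le_card_of_injOn (fun a => a / b ^ (p + c)) ?_ ?_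
        · intro a ha
          have ha' := Finset.mem_filter.1 (Finset.mem_coe.1 ha)
          have ha2 := (Finset.mem_filter.1 ha'.1).2
          have e := W1_eq b p c a hb ha2.2.2
          rw [ha'.2] at e
          have e2 : ((A : ℤ) + (b ^ (p + c) : ℕ) * ((a / b ^ (p + c) : ℕ) : ℤ)) = (a : ℤ) := by
            have e3 : (a : ℤ) = ((A + b ^ (p + c) * (a / b ^ (p + c)) : ℕ) : ℤ) := by
              have e4 : a = A + b ^ (p + c) * (a / b ^ (p + c)) := by
                conv_lhs => rw [e]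
                rw [hA, pow_add]
                ring
              exact_mod_cast e4
            rw [e3]
            push_cast
            ring
          refine Finset.mem_coe.2 (Finset.mem_filter.2 ⟨hmapw a ha'.1, ?_⟩)
          simp only [e2]
          exact ⟨by simpa using ha2.1, ha2.2.1⟩
        · intro a ha a' ha' haa
          have ha1 := Finset.mem_filter.1 (Finset.mem_coe.1 ha)
          have ha2 := Finset.mem_filter.1 (Finset.mem_coe.1 ha')
          have e1 := W1_eq b p c a hb (Finset.mem_filter.1 ha1.1).2.2.2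
          have e2 := W1_eq b p c a' hb (Finset.mem_filter.1 ha2.1).2.2.2
          rw [ha1.2] at e1
          rw [ha2.2] at e2
          rw [e1, e2]
          have : a / b ^ (p + c) = a' / b ^ (p + c) := haa
          rw [this]
      exact_mod_cast h2
    have hcard := Finset.card_eq_sum_card_fiberwise (f := fun a => a % b ^ p) (s := F)
      (t := range (b ^ p)) (fun a ha => Finset.mem_coe.2 (hmapr a ha))
    rw [hcard, Nat.cast_sum]
    refine le_trans (Finset.sum_le_sum hfib) ?_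
    rw [Finset.sum_const, Finset.card_range, nsmul_eq_mul]
    refine W1_final b (p + c + q) p c (b ^ q) q hb C0 (SS b h) hC0 hSS (by omega) rfl (by omega)
      ((b ^ p : ℕ) : ℝ) ?_ (Nat.cast_nonneg _)
    push_cast
    rw [pow_add, pow_add]
    field_simp

end GL89
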