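import Pool.Agent.LibGL89.Defs
import Pool.Agent.LibHG31.D1

/-!
Row Z1 (SHORT/MEDIUM). Small facts for the end.

sj: `b^(vv a j)` is `≡ 0` mod `b` (`vv a j ≥ 1` if `a ≥ 1`) and `≡ 1` mod `D0 b = b²-1`, so `sj ≡ 0` mod `b`, `≡ k` mod `D0 b`; `sj ≤ k b^(L - 2a)` if all
`vv a (js i) ≤ L - 2a`.  good_shift: `Good` depends on `N` only through the size and `N` mod `b`, mod `D0 b`.
-/

set_option autoImplicit false

namespace GL89

open Finset Pool.Agent.LibHG31

theorem vv_le (L B j : ℕ) (hj : j < MN L B) : vv (L / B) j + 2 * (L / B) + 2 ≤ L := by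
  unfold MN at hj
  unfold vv
  omega

theorem MN_ge (L B : ℕ) (hB : 8 ≤ B) (hL : 20 ≤ L) : (L : ℝ) / 5 ≤ (MN L B : ℝ) ∧ (MN L B : ℝ) ≤ L := by
  have h1 : L / B ≤ L / 8 := Nat.div_le_div_left hB (by norm_num)
  have h2 : L ≤ 5 * MN L B := by
    unfold MN
    omega
  have h3 : MN L B ≤ L := by
    unfold MN
    omega
  have h4 : (L : ℝ) ≤ 5 * (MN L B : ℝ) := by exact_mod_cast h2
  refine ⟨by linarith, by exact_mod_cast h3⟩

theorem sj_le (b L B k : ℕ) (hb : 2 ≤ b) (hB : 8 ≤ B) (js : Fin k → ℕ) (hjs : js ∈ JS k (MN L B)) :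
    sj b (L / B) k js ≤ k * b ^ (L - 2 * (L / B)) := by
  have h1 : ∀ i ∈ (Finset.univ : Finset (Fin k)), b ^ vv (L / B) (js i) ≤ b ^ (L - 2 * (L / B)) := by
    intro i _
    have h2 : js i < MN L B := Finset.mem_range.1 (Fintype.mem_piFinset.1 hjs i)
    have h3 := vv_le L B (js i) h2
    exact Nat.pow_le_pow_right (by omega) (by omega)
  have h4 := Finset.sum_le_card_nsmul _ _ _ h1
  rw [Finset.card_univ, Fintype.card_fin, smul_eq_mul] at h4
  exact h4

theorem sj_mod_b (b a k : ℕ) (hb : 2 ≤ b) (ha : 1 ≤ a) (js : Fin k → ℕ) : b ∣ sj b a k js := by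
  refine Finset.dvd_sum fun i _ => ?_
  have h1 : vv a (js i) ≠ 0 := by
    unfold vv
    omega
  exact dvd_pow_self b h1

theorem sj_mod_D0 (b a k : ℕ) (hb : 2 ≤ b) (js : Fin k → ℕ) : sj b a k js ≡ k [MOD D0 b] := by
  have h0 : b ^ 2 ≡ 1 [MOD D0 b] := by
    have h1 : b ^ 2 = 1 + D0 b := by
      have : 1 ≤ b ^ 2 := Nat.one_le_pow _ _ (by omega)
      unfold D0
      omega
    rw [h1]
    exact Nat.add_modEq_right
  have h2 : ∀ s : Finset (Fin k), (∑ i ∈ s, b ^ vv a (js i)) ≡ s.card [MOD D0 b] := by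
    intro s
    induction s using Finset.induction_on with
    | empty => exact Nat.ModEq.refl _
    | insert i s hi ih =>
      rw [Finset.sum_insert hi, Finset.card_insert_of_notMem hi, add_comm s.card 1]
      refine Nat.ModEq.add ?_ ih
      have h3 := h0.pow (a + js i)
      rw [one_pow, ← pow_mul] at h3
      exact h3
  have h4 := h2 Finset.univ
  rw [Finset.card_univ, Fintype.card_fin] at h4
  exact h4

theorem good_shift (b L l r N N' : ℕ) (h1 : b ^ (L + 1) ≤ N') (h2 : N' < b ^ (L + 2)) (hb : N' ≡ N [MOD b])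
    (hD : N' ≡ N [MOD D0 b]) (hg : Good b L l r N) : Good b L l r N' := by
  obtain ⟨_, _, h3, h4, h5, h6, h7, h8⟩ := hg
  refine ⟨h1, h2, h3, h4, h5, ?_, h7, ?_⟩
  · obtain ⟨z, hz⟩ := (Nat.modEq_iff_dvd.1 hb.symm)
    have e : (N' : ℤ) - l = ((N : ℤ) - l) + b * z := by linarith
    rw [e]
    exact h6.add_mul_left_left z
  · obtain ⟨z, hz⟩ := (Nat.modEq_iff_dvd.1 hD.symm)
    have e : (N' : ℤ) - b ^ (L - 1) * r = ((N : ℤ) - b ^ (L - 1) * r) + (D0 b : ℤ) * z := by linarith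
    rw [e]
    exact h8.add_mul_left_left z

theorem card_JS (k M : ℕ) : (JS k M).card = M ^ k := by
  unfold JS
  rw [Fintype.card_piFinset]
  simp

end GL89
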