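import Pool.Agent.LibGL89.Defs
import Pool.Agent.LibHG31.D3

/-!
Row Z2 (SHORT). The lower bound of the major part for every good `N`.

`A` = max of the two `A₀` (and 100), `ε = c/2`.  `RR = Rrest + Rrho 0 + ∑_{ρ ≠ 0} Rrho ρ` (definition of `Rrest`, `D3_zero_mem`): real parts.
As in `Exc_scale_le` (LibHG31/D3.lean).
-/

set_option autoImplicit false

namespace GL89

open Finset Pool.Agent.LibHG31

theorem main_ge (b : ℕ) (hb : 2 ≤ b) (hB : BStmt b) (hC : CStmt b) :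
    ∃ (A : ℕ) (c : ℝ) (L0 : ℕ), 100 ≤ A ∧ 0 < c ∧ ∀ L : ℕ, L0 ≤ L → ∀ l r N : ℕ, Good b L l r N →
      c * (b : ℝ) ^ L + (Rrest b L (L / A) l r N).re ≤ RR b L l r N := by
  obtain ⟨A2, hA2⟩ := hB
  obtain ⟨A3, c, hc, hA3⟩ := hC
  obtain ⟨LB, hBL⟩ := hA2 (max 100 (max A2 A3)) ((le_max_left _ _).trans (le_max_right _ _))
    (c / 2) (by positivity)
  obtain ⟨LC, hCL⟩ := hA3 (max 100 (max A2 A3)) ((le_max_right _ _).trans (le_max_right _ _))
  refine ⟨max 100 (max A2 A3), c / 2, max LB LC, le_max_left _ _, by positivity, ?_⟩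
  intro L hL l r N hg
  generalize max 100 (max A2 A3) = A at hBL hCL ⊢
  have hBB := hBL L ((le_max_left _ _).trans hL) l r N hg
  have hCC := hCL L ((le_max_right _ _).trans hL) l r N hg
  have h0mem := D3_zero_mem b (L / A) hb
  have hid : (RR b L l r N : ℂ) = Rrest b L (L / A) l r N + (Rrho b L (L / A) l r N ((0 : ℚ) : ℝ) +
      ∑ ρ ∈ (Rset b (L / A)).erase 0, Rrho b L (L / A) l r N (ρ : ℝ)) := by
    rw [Finset.add_sum_erase (Rset b (L / A)) (fun ρ : ℚ => Rrho b L (L / A) l r N (ρ : ℝ)) h0mem]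
    unfold Rrest
    ring
  have hre := congrArg Complex.re hid
  rw [Complex.add_re, Complex.add_re, Complex.ofReal_re] at hre
  have hz : ((0 : ℚ) : ℝ) = 0 := by norm_num
  rw [hz] at hre
  have h3 := Complex.abs_re_le_norm
    (∑ ρ ∈ (Rset b (L / A)).erase 0, Rrho b L (L / A) l r N (ρ : ℝ))
  have h4 := norm_sum_le ((Rset b (L / A)).erase 0)
    (fun ρ : ℚ => Rrho b L (L / A) l r N (ρ : ℝ))
  have h5 := neg_abs_le (∑ ρ ∈ (Rset b (L / A)).erase 0, Rrho b L (L / A) l r N (ρ : ℝ)).re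
  linarith

end GL89
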