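import Pool.Agent.LibHG31.D4
import Pool.Agent.LibGL89.A4
import Pool.Agent.LibGL89.F2
import Pool.Agent.LibGL89.P1
import Pool.Agent.LibGL89.P2
import Pool.Agent.LibGL89.Z1
import Pool.Agent.LibGL89.Z2

/-!
Row Z3 (helper89). The core theorem with the number of representations.
-/

set_option autoImplicit false

namespace GL89

open Finset Pool.Agent.LibHG31 Filter Topology

private theorem Z3_count_le (b L l r N : ℕ) (hb : 2 ≤ b) (hL : 1 ≤ L) (hg : Good b L l r N) :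
    ((KS b L l r).filter (fun k => k.Prime ∧ (N - rv b L k).Prime)).card ≤ (reps b N).card := by
  obtain ⟨hN1, hN2, hl1, hl2, hlb, _, hrD, _⟩ := hg
  apply card_le_card
  intro k hk
  obtain ⟨hk, hk1, hk2⟩ := mem_filter.1 hk
  have hkI : k ∈ II b L l := (mem_filter.1 hk).1
  have hkI' := mem_Ico.1 hkI
  have h1 : b ^ (L - 1) ≤ k := by
    calc b ^ (L - 1) = 1 * b ^ (L - 1) := (one_mul _).symm
      _ ≤ l * b ^ (L - 1) := Nat.mul_le_mul_right _ hl1
      _ ≤ k := hkI'.1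
  have h2 : k < b ^ L := by
    have h3 : (l + 1) * b ^ (L - 1) ≤ b * b ^ (L - 1) := Nat.mul_le_mul_right _ hl2
    have h4 : b * b ^ (L - 1) = b ^ L := by
      rw [← pow_succ', Nat.sub_add_cancel hL]
    omega
  have h3 := ofDigits_reverse b L k hb hL h1 h2
  have h4 := rv_lt b L k (by omega)
  have h5 : b ^ L ≤ b ^ (L + 1) := Nat.pow_le_pow_right (by omega) (by omega)
  unfold reps revb
  rw [mem_filter, mem_range, h3]
  exact ⟨by omega, hk1, rv_coprime b L l r k hb hL hl2 hlb hrD hk, by omega, hk2⟩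

/-- parity of `N - sj` -/
private theorem Z3_even (b a k N : ℕ) (hb : 2 ≤ b) (ha : 1 ≤ a) (js : Fin k → ℕ) (hs : sj b a k js ≤ N)
    (hN : Even (N + k * b)) : Even (N - sj b a k js) := by
  rw [Nat.even_sub hs]
  rcases Nat.even_or_odd b with hbe | hbo
  · have h1 : Even (sj b a k js) := by
      obtain ⟨c, hc⟩ := sj_mod_b b a k hb ha js
      rw [hc]
      exact hbe.mul_right c
    have h2 : Even N := by
      have h3 : Even (k * b) := hbe.mul_left k
      exact (Nat.even_add.1 hN).2 h3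
    exact ⟨fun _ => h1, fun _ => h2⟩
  · have h1 : sj b a k js ≡ k [MOD 2] := by
      refine (sj_mod_D0 b a k hb js).of_dvd ?_
      unfold D0
      obtain ⟨c, hc⟩ := hbo
      have : b ^ 2 - 1 = 2 * (2 * c ^ 2 + 2 * c) := by
        rw [hc]
        have : (2 * c + 1) ^ 2 = 2 * (2 * c ^ 2 + 2 * c) + 1 := by ring
        omega
      exact ⟨_, this⟩
    have h2 : Even (sj b a k js) ↔ Even k := by
      rw [Nat.even_iff, Nat.even_iff]
      unfold Nat.ModEq at h1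
      rw [h1]
    have h3 : Even (k * b) ↔ Even k := by
      rw [Nat.even_mul]
      constructor
      · rintro (h | h)
        · exact h
        · exact absurd h (Nat.not_even_iff_odd.2 hbo)
      · exact fun h => Or.inl h
    rw [h2, ← h3]
    exact Nat.even_add.1 hN

/-- a good pair for all `N - sj js` -/
private theorem Z3_good (b L B k N : ℕ) (hb : 2 ≤ b) (hB : 8 ≤ B) (ha : 1 ≤ L / B) (hM : 1 ≤ MN L B)
    (h1 : b ^ (L + 1) + k * b ^ (L - 2 * (L / B)) ≤ N) (h2 : N < b ^ (L + 2)) (hN : Even (N + k * b)) :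
    ∃ l r : ℕ, ∀ js ∈ JS k (MN L B), Good b L l r (N - sj b (L / B) k js) := by
  have h0 : (fun _ => 0 : Fin k → ℕ) ∈ JS k (MN L B) := by
    unfold JS
    rw [Fintype.mem_piFinset]
    intro i
    rw [mem_range]
    omega
  have hs : ∀ js ∈ JS k (MN L B), sj b (L / B) k js ≤ N ∧ b ^ (L + 1) ≤ N - sj b (L / B) k js := by
    intro js hjs
    have := sj_le b L B k hb hB js hjs
    constructor <;> omega
  obtain ⟨l, r, _, hg⟩ := exists_Good b L (N - sj b (L / B) k (fun _ => 0)) hb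
    (Z3_even b (L / B) k N hb ha _ (hs _ h0).1 hN) (hs _ h0).2 (by omega)
  refine ⟨l, r, fun js hjs => ?_⟩
  refine good_shift b L l r _ _ (hs js hjs).2 (by omega) ?_ ?_ hg
  · -- mod b
    have e1 : (N - sj b (L / B) k js) + sj b (L / B) k js = N := Nat.sub_add_cancel (hs js hjs).1
    have e2 : (N - sj b (L / B) k (fun _ => 0)) + sj b (L / B) k (fun _ => 0) = N :=
      Nat.sub_add_cancel (hs _ h0).1
    have d1 : sj b (L / B) k js ≡ 0 [MOD b] := (Nat.modEq_zero_iff_dvd).2 (sj_mod_b b (L / B) k hb ha js)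
    have d2 : sj b (L / B) k (fun _ => 0) ≡ 0 [MOD b] :=
      (Nat.modEq_zero_iff_dvd).2 (sj_mod_b b (L / B) k hb ha _)
    refine Nat.ModEq.add_right_cancel (d1.trans d2.symm) ?_
    rw [e1, e2]
  · have e1 : (N - sj b (L / B) k js) + sj b (L / B) k js = N := Nat.sub_add_cancel (hs js hjs).1
    have e2 : (N - sj b (L / B) k (fun _ => 0)) + sj b (L / B) k (fun _ => 0) = N :=
      Nat.sub_add_cancel (hs _ h0).1
    have d1 := sj_mod_D0 b (L / B) k hb js
    have d2 := sj_mod_D0 b (L / B) k hb (fun _ => 0)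
    refine Nat.ModEq.add_right_cancel (d1.trans d2.symm) ?_
    rw [e1, e2]

/-- polynomial times exponential decay -/
private theorem Z3_small (b : ℕ) (hb : 2 ≤ b) (c δ C : ℝ) (hc : 0 < c) (hδ : 0 < δ) (m : ℕ) :
    ∃ L0 : ℕ, ∀ L : ℕ, L0 ≤ L → C * ((L : ℝ) + 3) ^ m * (b : ℝ) ^ (-(δ * L)) ≤ c := by
  have hb1 : (1 : ℝ) < b := by exact_mod_cast (by omega : 1 < b)
  have hlb : 0 < Real.log b := Real.log_pos hb1
  have h1 : Tendsto (fun x : ℝ => x ^ m * Real.exp (-(δ * Real.log b) * x)) atTop (nhds 0) := by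
    have := Real.tendsto_pow_mul_exp_neg_atTop_nhds_zero m
    have h2 : Tendsto (fun x : ℝ => (δ * Real.log b) * x) atTop atTop :=
      tendsto_id.const_mul_atTop (by positivity)
    have h3 := (this.comp h2).const_mul (1 / (δ * Real.log b) ^ m)
    rw [mul_zero] at h3
    refine h3.congr fun x => ?_
    simp only [Function.comp]
    have h9 : (δ * Real.log b) ^ m ≠ 0 := by positivity
    have h10 : (δ * Real.log b * x) ^ m = (δ * Real.log b) ^ m * x ^ m := mul_pow _ _ _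
    have h11 : Real.exp (-(δ * Real.log b * x)) = Real.exp (-(δ * Real.log b) * x) := by
      congr 1
      ring
    rw [h10, h11]
    generalize (δ * Real.log b) ^ m = T at h9 ⊢
    field_simp
  have h4 : Tendsto (fun L : ℕ => ((L : ℝ) + 3)) atTop atTop :=
    tendsto_atTop_add_const_right _ _ tendsto_natCast_atTop_atTop
  have h5 := (h1.comp h4).const_mul (C * Real.exp (3 * (δ * Real.log b)))
  rw [mul_zero] at h5
  have h6 : ∀ᶠ L : ℕ in atTop, C * Real.exp (3 * (δ * Real.log b)) *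
      (((L : ℝ) + 3) ^ m * Real.exp (-(δ * Real.log b) * ((L : ℝ) + 3))) < c := h5.eventually_lt_const hc
  obtain ⟨L0, hL0⟩ := eventually_atTop.1 h6
  refine ⟨L0, fun L hL => ?_⟩
  have h7 := (hL0 L hL).le
  refine le_of_eq_of_le ?_ h7
  have e : (b : ℝ) ^ (-(δ * L)) = Real.exp (3 * (δ * Real.log b)) * Real.exp (-(δ * Real.log b) * ((L : ℝ) + 3)) := by
    rw [← Real.exp_add, Real.rpow_def_of_pos (by linarith)]
    congr 1
    ring
  rw [e]
  ring

/-- for all large `k` and `L`: many representations of the numbers `N - sj js` -/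
theorem core (b : ℕ) (hb : 2 ≤ b) (hB : BStmt b) (hC : CStmt b) :
    ∃ (B K0 : ℕ), 8 ≤ B ∧ ∀ k : ℕ, K0 ≤ k → ∃ (c : ℝ) (L0 : ℕ), 0 < c ∧ ∀ L : ℕ, L0 ≤ L → ∀ N : ℕ,
      b ^ (L + 1) + k * b ^ (L - 2 * (L / B)) ≤ N → N < b ^ (L + 2) → Even (N + k * b) →
      c * ((b : ℝ) ^ L * (L : ℝ) ^ k / (L : ℝ) ^ 2) ≤
        ∑ js ∈ JS k (MN L B), ((reps b (N - sj b (L / B) k js)).card : ℝ) := by
  obtain ⟨A, c0, L1, hA, hc0, hmain⟩ := main_ge b hb hB hC
  obtain ⟨c', L2, hc', hF⟩ := sum_Rrest_le b hb A hA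
  obtain ⟨η, B0, hη0, hη1, hE⟩ := EE1_card b hb (c' / 2) (by positivity)
  obtain ⟨B, hBdef⟩ : ∃ B : ℕ, B = max B0 8 := ⟨_, rfl⟩
  have hB0 : B0 ≤ B := by rw [hBdef]; exact le_max_left _ _
  have hB8 : 8 ≤ B := by rw [hBdef]; exact le_max_right _ _
  obtain ⟨L5, hE5⟩ := hE B hB0
  obtain ⟨C1, L3, hC1, hS1⟩ := S1_sq_le b hb
  obtain ⟨C2, L4, hC2, hS2⟩ := S2_sq_le b hb B hB8
  have hb0 : (0 : ℝ) < b := by exact_mod_cast (by omega : 0 < b)
  have hb1 : (1 : ℝ) < b := by exact_mod_cast (by omega : 1 < b)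
  have hlb : 0 < Real.log b := Real.log_pos hb1
  -- the number of powers
  have hm : ∃ m0 : ℕ, ∀ m : ℕ, m0 ≤ m → (1 - η) ^ m * (25 * Real.sqrt (C1 * C2)) ≤ c0 / 4 := by
    have h1 : Tendsto (fun m : ℕ => (1 - η) ^ m * (25 * Real.sqrt (C1 * C2))) atTop (nhds (0 * (25 * Real.sqrt (C1 * C2)))) :=
      (tendsto_pow_atTop_nhds_zero_of_lt_one (by linarith) (by linarith)).mul_const _
    rw [zero_mul] at h1
    have h2 := h1.eventually_lt_const (by positivity : 0 < c0 / 4)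
    obtain ⟨m0, hm0⟩ := eventually_atTop.1 h2
    exact ⟨m0, fun m hm => (hm0 m hm).le⟩
  obtain ⟨m0, hm0⟩ := hm
  refine ⟨B, m0 + 2, hB8, fun k hk => ?_⟩
  obtain ⟨L6, hL6⟩ := Z3_small b hb (c0 / 4) (c' / 2) (Real.log b) (by positivity) (by positivity) 1
  obtain ⟨L7, hL7⟩ := Z3_small b hb (c0 / 4) (1 / 2)
    (Real.log b ^ 2 * (2 * ((b : ℝ) ^ 2 + 1) * (Real.log b / Real.log 2 + 1))) (by positivity) (by positivity) 3
  refine ⟨c0 / 4 / ((5 : ℝ) ^ k * (16 * Real.log b ^ 2)), L1 + L2 + L3 + L4 + L5 + L6 + L7 + 20 + B, by positivity, ?_⟩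
  intro L hL N hN1 hN2 hN3
  -- basic facts
  have ha : 1 ≤ L / B := (Nat.one_le_div_iff (by omega)).2 (by omega)
  obtain ⟨hMlow, hMup⟩ := MN_ge L B hB8 (by omega)
  obtain ⟨M, hMdef⟩ : ∃ M : ℕ, M = MN L B := ⟨_, rfl⟩
  rw [← hMdef] at hMlow hMup
  have hLr : (20 : ℝ) ≤ L := by exact_mod_cast (by omega : 20 ≤ L)
  have hMr : (0 : ℝ) < M := by linarith
  have hM1 : 1 ≤ M := by
    have : 0 < M := by exact_mod_cast hMr
    omega
  obtain ⟨l, r, hgood⟩ := Z3_good b L B k N hb hB8 ha (by omega) hN1 hN2 hN3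
  rw [← hMdef] at hgood ⊢
  have h0 : (fun _ => 0 : Fin k → ℕ) ∈ JS k M := by
    unfold JS
    rw [Fintype.mem_piFinset]
    intro i
    rw [mem_range]
    omega
  have hl : l < b := (hgood _ h0).2.2.2.1
  have hsj : ∀ js ∈ JS k M, b ^ (L + 1) + sj b (L / B) k js ≤ N := by
    intro js hjs
    rw [hMdef] at hjs
    have := sj_le b L B k hb hB8 js hjs
    omega
  obtain ⟨K5, hK5⟩ : ∃ K5 : ℕ, K5 = b ^ (L + 5) := ⟨_, rfl⟩
  have hK5r : (K5 : ℝ) = (b : ℝ) ^ (L + 5) := by rw [hK5]; push_cast; rfl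
  have hK5pos : (0 : ℝ) < K5 := by rw [hK5r]; positivity
  -- the bound for the remaining part
  have hrest : ‖∑ js ∈ JS k M, Rrest b L (L / A) l r (N - sj b (L / B) k js)‖ ≤
      c0 / 2 * (b : ℝ) ^ L * (M : ℝ) ^ k := by
    have h1 := hF L (by omega) l r N k (L / B) M η (C1 * ((b : ℝ) ^ L * (L : ℝ) ^ 2)) (C2 * ((b : ℝ) ^ L * (L : ℝ) ^ 2))
      (EE1 b L B η) hl (by omega) hη0.le hη1 (by positivity) (by positivity) hsj hN2
      (by
        intro t ht htE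
        by_contra hcon
        apply htE
        unfold EE1
        rw [mem_filter]
        refine ⟨ht, ?_⟩
        rw [← hMdef]
        exact (not_le.1 hcon).le)
      (hS1 L (by omega) (L / B) M (by
        intro j hj
        rw [hMdef] at hj
        have := vv_le L B j hj
        omega))
      (by
        have := hS2 L (by omega) l r hl
        rw [← hMdef] at this
        exact this)
    refine h1.trans ?_
    have h2 : ((EE1 b L B η).card : ℝ) / (b ^ (L + 5) : ℕ) * ((b : ℝ) ^ ((1 - c') * L) * ((b : ℝ) ^ L * (L * Real.log b))) ≤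
        c0 / 4 * (b : ℝ) ^ L := by
      have h3 := hE5 L (by omega)
      have h4 := hL6 L (by omega)
      have hcast : ((b ^ (L + 5) : ℕ) : ℝ) = (b : ℝ) ^ (L + 5) := by push_cast; rfl
      rw [hcast, div_mul_eq_mul_div, div_le_iff₀ (by positivity)]
      have h5 : (b : ℝ) ^ L ≤ (b : ℝ) ^ (L + 5) := pow_le_pow_right₀ hb1.le (by omega)
      have h6 : (b : ℝ) ^ (c' / 2 * L) * (b : ℝ) ^ ((1 - c') * L) = (b : ℝ) ^ (-(c' / 2 * L)) * (b : ℝ) ^ L := by
        rw [← Real.rpow_add hb0, ← Real.rpow_natCast (b : ℝ) L, ← Real.rpow_add hb0]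
        congr 1
        ring
      calc ((EE1 b L B η).card : ℝ) * ((b : ℝ) ^ ((1 - c') * L) * ((b : ℝ) ^ L * (L * Real.log b)))
          ≤ (b : ℝ) ^ (c' / 2 * L) * ((b : ℝ) ^ ((1 - c') * L) * ((b : ℝ) ^ L * (L * Real.log b))) :=
            mul_le_mul_of_nonneg_right h3 (by positivity)
        _ = (Real.log b * (L : ℝ) * (b : ℝ) ^ (-(c' / 2 * L))) * ((b : ℝ) ^ L * (b : ℝ) ^ L) := by
            rw [← mul_assoc, h6]; ring
        _ ≤ (Real.log b * ((L : ℝ) + 3) ^ 1 * (b : ℝ) ^ (-(c' / 2 * L))) * ((b : ℝ) ^ L * (b : ℝ) ^ L) := by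
            rw [pow_one]
            apply mul_le_mul_of_nonneg_right _ (by positivity)
            apply mul_le_mul_of_nonneg_right _ (by positivity)
            apply mul_le_mul_of_nonneg_left _ hlb.le
            linarith
        _ ≤ c0 / 4 * ((b : ℝ) ^ L * (b : ℝ) ^ L) := mul_le_mul_of_nonneg_right h4 (by positivity)
        _ ≤ c0 / 4 * (b : ℝ) ^ L * (b : ℝ) ^ (L + 5) := by
            rw [mul_assoc]
            apply mul_le_mul_of_nonneg_left _ (by positivity)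
            exact mul_le_mul_of_nonneg_left h5 (by positivity)
    have h7 : ((1 - η) * M) ^ (k - 2) * Real.sqrt (C1 * ((b : ℝ) ^ L * (L : ℝ) ^ 2) * (C2 * ((b : ℝ) ^ L * (L : ℝ) ^ 2))) ≤
        c0 / 4 * (b : ℝ) ^ L * (M : ℝ) ^ k := by
      have e1 : C1 * ((b : ℝ) ^ L * (L : ℝ) ^ 2) * (C2 * ((b : ℝ) ^ L * (L : ℝ) ^ 2)) =
          (C1 * C2) * ((b : ℝ) ^ L * (L : ℝ) ^ 2) ^ 2 := by ring
      rw [e1, Real.sqrt_mul (by positivity), Real.sqrt_sq (by positivity), mul_pow]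
      have h8 : (L : ℝ) ^ 2 ≤ 25 * (M : ℝ) ^ 2 := by nlinarith
      have h9 := hm0 (k - 2) (by omega)
      have hη' : 0 ≤ 1 - η := by linarith
      have e2 : (M : ℝ) ^ k = (M : ℝ) ^ (k - 2) * (M : ℝ) ^ 2 := by
        rw [← pow_add]; congr 1; omega
      calc (1 - η) ^ (k - 2) * (M : ℝ) ^ (k - 2) * (Real.sqrt (C1 * C2) * ((b : ℝ) ^ L * (L : ℝ) ^ 2))
          ≤ (1 - η) ^ (k - 2) * (M : ℝ) ^ (k - 2) * (Real.sqrt (C1 * C2) * ((b : ℝ) ^ L * (25 * (M : ℝ) ^ 2))) := by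
            apply mul_le_mul_of_nonneg_left _ (by positivity)
            apply mul_le_mul_of_nonneg_left _ (by positivity)
            exact mul_le_mul_of_nonneg_left h8 (by positivity)
        _ = ((1 - η) ^ (k - 2) * (25 * Real.sqrt (C1 * C2))) * ((b : ℝ) ^ L * ((M : ℝ) ^ (k - 2) * (M : ℝ) ^ 2)) := by ring
        _ ≤ c0 / 4 * ((b : ℝ) ^ L * ((M : ℝ) ^ (k - 2) * (M : ℝ) ^ 2)) := mul_le_mul_of_nonneg_right h9 (by positivity)
        _ = c0 / 4 * (b : ℝ) ^ L * (M : ℝ) ^ k := by rw [e2]; ring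
    have h10 : ((EE1 b L B η).card : ℝ) / (b ^ (L + 5) : ℕ) * ((b : ℝ) ^ ((1 - c') * L) * ((b : ℝ) ^ L * (L * Real.log b))) * (M : ℝ) ^ k ≤
        c0 / 4 * (b : ℝ) ^ L * (M : ℝ) ^ k := mul_le_mul_of_nonneg_right h2 (by positivity)
    linarith
  -- sum of the counts
  have hcardJS : ((JS k M).card : ℝ) = (M : ℝ) ^ k := by
    rw [card_JS]; push_cast; rfl
  have hRR : c0 / 2 * (b : ℝ) ^ L * (M : ℝ) ^ k ≤ ∑ js ∈ JS k M, RR b L l r (N - sj b (L / B) k js) := by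
    have h1 : ∑ js ∈ JS k M, (c0 * (b : ℝ) ^ L + (Rrest b L (L / A) l r (N - sj b (L / B) k js)).re) ≤
        ∑ js ∈ JS k M, RR b L l r (N - sj b (L / B) k js) :=
      Finset.sum_le_sum fun js hjs => hmain L (by omega) l r _ (hgood js hjs)
    rw [Finset.sum_add_distrib, Finset.sum_const, nsmul_eq_mul, hcardJS, ← Complex.re_sum] at h1
    have h2 := (Complex.abs_re_le_norm (∑ js ∈ JS k M, Rrest b L (L / A) l r (N - sj b (L / B) k js))).trans hrest
    have h3 := (abs_le.1 h2).1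
    nlinarith
  obtain ⟨EL, hEL⟩ : ∃ EL : ℝ, EL = ((L + 3 : ℕ) * Real.log b) ^ 2 *
      (2 * ((Real.sqrt ((b : ℝ) ^ (L + 3)) + 1) * ((L + 3 : ℕ) * Real.log b / Real.log 2 + 1))) := ⟨_, rfl⟩
  have hELle : EL ≤ c0 / 4 * (b : ℝ) ^ L := by
    have h1 := hL7 L (by omega)
    have hlog2 : 0 < Real.log 2 := Real.log_pos (by norm_num)
    have hL3 : (1 : ℝ) ≤ (L : ℝ) + 3 := by linarith
    have hcast : ((L + 3 : ℕ) : ℝ) = (L : ℝ) + 3 := by push_cast; rfl
    have h2 : Real.sqrt ((b : ℝ) ^ (L + 3)) ≤ (b : ℝ) ^ 2 * (b : ℝ) ^ ((L : ℝ) / 2) := by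
      rw [Real.sqrt_le_left (by positivity)]
      have e : ((b : ℝ) ^ 2 * (b : ℝ) ^ ((L : ℝ) / 2)) ^ 2 = (b : ℝ) ^ (L + 4) := by
        rw [mul_pow, ← Real.rpow_natCast ((b : ℝ) ^ ((L : ℝ) / 2)) 2, ← Real.rpow_mul hb0.le]
        have : (L : ℝ) / 2 * ((2 : ℕ) : ℝ) = (L : ℝ) := by push_cast; ring
        rw [this, Real.rpow_natCast, ← pow_mul, ← pow_add]
        congr 1
        omega
      rw [e]
      exact pow_le_pow_right₀ hb1.le (by omega)
    have h3 : (1 : ℝ) ≤ (b : ℝ) ^ ((L : ℝ) / 2) := Real.one_le_rpow hb1.le (by positivity)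
    have h4 : Real.sqrt ((b : ℝ) ^ (L + 3)) + 1 ≤ ((b : ℝ) ^ 2 + 1) * (b : ℝ) ^ ((L : ℝ) / 2) := by
      rw [add_mul, one_mul]
      linarith
    have h5 : ((L + 3 : ℕ) : ℝ) * Real.log b / Real.log 2 + 1 ≤ ((L : ℝ) + 3) * (Real.log b / Real.log 2 + 1) := by
      rw [hcast]
      have : 0 ≤ Real.log b / Real.log 2 := by positivity
      have e : ((L : ℝ) + 3) * Real.log b / Real.log 2 = ((L : ℝ) + 3) * (Real.log b / Real.log 2) := by ring
      rw [e]
      nlinarith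
    have h6 : (b : ℝ) ^ ((L : ℝ) / 2) = (b : ℝ) ^ L * (b : ℝ) ^ (-(1 / 2 * (L : ℝ))) := by
      rw [← Real.rpow_natCast (b : ℝ) L, ← Real.rpow_add hb0]
      congr 1
      ring
    rw [hEL, hcast]
    calc (((L : ℝ) + 3) * Real.log b) ^ 2 * (2 * ((Real.sqrt ((b : ℝ) ^ (L + 3)) + 1) * (((L : ℝ) + 3) * Real.log b / Real.log 2 + 1)))
        ≤ (((L : ℝ) + 3) * Real.log b) ^ 2 * (2 * ((((b : ℝ) ^ 2 + 1) * (b : ℝ) ^ ((L : ℝ) / 2)) * (((L : ℝ) + 3) * (Real.log b / Real.log 2 + 1)))) := by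
          apply mul_le_mul_of_nonneg_left _ (by positivity)
          apply mul_le_mul_of_nonneg_left _ (by norm_num)
          rw [hcast] at h5
          exact mul_le_mul h4 h5 (by positivity) (by positivity)
      _ = (Real.log b ^ 2 * (2 * ((b : ℝ) ^ 2 + 1) * (Real.log b / Real.log 2 + 1))) * ((L : ℝ) + 3) ^ 3 *
            (b : ℝ) ^ (-(1 / 2 * (L : ℝ))) * (b : ℝ) ^ L := by
          rw [h6]; ring
      _ ≤ c0 / 4 * (b : ℝ) ^ L := mul_le_mul_of_nonneg_right h1 (by positivity)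
  have hcount : ∀ js ∈ JS k M, RR b L l r (N - sj b (L / B) k js) ≤
      c0 / 4 * (b : ℝ) ^ L + ((reps b (N - sj b (L / B) k js)).card : ℝ) * (16 * (L : ℝ) ^ 2 * Real.log b ^ 2) := by
    intro js hjs
    have hg := hgood js hjs
    have h1 := RR_le_count b L l r (N - sj b (L / B) k js) hb (by omega) hl hg.1 hg.2.1
    have h2 := Z3_count_le b L l r _ hb (by omega) hg
    have h3 : (((KS b L l r).filter (fun k' => k'.Prime ∧ (N - sj b (L / B) k js - rv b L k').Prime)).card : ℝ) ≤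
        ((reps b (N - sj b (L / B) k js)).card : ℝ) := by exact_mod_cast h2
    rw [← hEL] at h1
    have h4 : (((L + 3 : ℕ) : ℝ) * Real.log b) ^ 2 ≤ 16 * (L : ℝ) ^ 2 * Real.log b ^ 2 := by
      rw [mul_pow]
      apply mul_le_mul_of_nonneg_right _ (by positivity)
      push_cast
      nlinarith
    have h5 := mul_le_mul h3 h4 (by positivity) (by positivity)
    linarith
  have hsum := Finset.sum_le_sum hcount
  rw [Finset.sum_add_distrib, Finset.sum_const, nsmul_eq_mul, hcardJS, ← Finset.sum_mul] at hsum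
  obtain ⟨R, hR⟩ : ∃ R : ℝ, R = ∑ js ∈ JS k M, ((reps b (N - sj b (L / B) k js)).card : ℝ) := ⟨_, rfl⟩
  rw [← hR] at hsum ⊢
  have hfin : c0 / 4 * (b : ℝ) ^ L * (M : ℝ) ^ k ≤ R * (16 * (L : ℝ) ^ 2 * Real.log b ^ 2) := by nlinarith
  have hMk : ((L : ℝ) / 5) ^ k ≤ (M : ℝ) ^ k := pow_le_pow_left₀ (by positivity) hMlow k
  have hfin2 : c0 / 4 * (b : ℝ) ^ L * ((L : ℝ) / 5) ^ k ≤ R * (16 * (L : ℝ) ^ 2 * Real.log b ^ 2) :=
    (mul_le_mul_of_nonneg_left hMk (by positivity)).trans hfin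
  have hLpos : (0 : ℝ) < L := by linarith
  have e : c0 / 4 / ((5 : ℝ) ^ k * (16 * Real.log b ^ 2)) * ((b : ℝ) ^ L * (L : ℝ) ^ k / (L : ℝ) ^ 2) =
      (c0 / 4 * (b : ℝ) ^ L * ((L : ℝ) / 5) ^ k) / (16 * (L : ℝ) ^ 2 * Real.log b ^ 2) := by
    rw [div_pow]
    field_simp
  rw [e, div_le_iff₀ (by positivity)]
  exact hfin2

end GL89
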