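import Pool.Agent.LibGL89.Z3

/-!
Row Z4 (helper89). The final theorem.
-/

set_option autoImplicit false

namespace GL89

open Finset Pool.Agent.LibHG31

/-- the representations `N = p₁ + rev p₂ + ∑ b^(v i)` as pairs `(v, p₂)` -/
noncomputable def reprs (b K N : ℕ) : Finset ((Fin K → ℕ) × ℕ) :=
  ((Fintype.piFinset fun _ : Fin K => Icc 1 N) ×ˢ range N).filter fun x =>
    x.2.Prime ∧ Nat.Coprime (revb b x.2) (b ^ 3 - b) ∧ revb b x.2 + ∑ i, b ^ x.1 i ≤ N ∧
      (N - (revb b x.2 + ∑ i, b ^ x.1 i)).Prime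

theorem Z4_mem (b K N p : ℕ) (hb : 2 ≤ b) (v : Fin K → ℕ) (hv : ∀ i, 1 ≤ v i) (hs : ∑ i, b ^ v i ≤ N)
    (hp : p ∈ reps b (N - ∑ i, b ^ v i)) : (v, p) ∈ reprs b K N := by
  unfold reps at hp
  obtain ⟨h1, h2, h3, h4, h5⟩ := mem_filter.1 hp
  rw [mem_range] at h1
  unfold reprs
  rw [mem_filter, mem_product, Fintype.mem_piFinset, mem_range]
  refine ⟨⟨fun i => ?_, by show p < N; omega⟩, h2, h3, by show revb b p + ∑ i, b ^ v i ≤ N; omega, ?_⟩
  · show v i ∈ Icc 1 N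
    rw [mem_Icc]
    refine ⟨hv i, ?_⟩
    have h6 : v i < b ^ v i := Nat.lt_pow_self (by omega)
    have h7 : b ^ v i ≤ ∑ i, b ^ v i :=
      Finset.single_le_sum (f := fun i => b ^ v i) (fun _ _ => Nat.zero_le _) (mem_univ i)
    omega
  · have e : N - (revb b p + ∑ i, b ^ v i) = N - ∑ i, b ^ v i - revb b p := by omega
    show (N - (revb b p + ∑ i, b ^ v i)).Prime
    rw [e]
    exact h5

/-- first case -/
theorem Z4_case1 (b a k M N : ℕ) (hb : 2 ≤ b) (ha : 1 ≤ a) (hs : ∀ js ∈ JS k M, sj b a k js ≤ N) :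
    ∑ js ∈ JS k M, (reps b (N - sj b a k js)).card ≤ (reprs b k N).card := by
  rw [← Finset.card_sigma]
  refine Finset.card_le_card_of_injOn (fun x : (_ : Fin k → ℕ) × ℕ => ((fun i => vv a (x.1 i)), x.2)) ?_ ?_
  · rintro ⟨js, p⟩ hx
    obtain ⟨h1, h2⟩ := mem_sigma.1 hx
    exact Z4_mem b k N p hb (fun i => vv a (js i)) (fun i => by unfold vv; omega) (hs js h1) h2
  · rintro ⟨js, p⟩ _ ⟨js', p'⟩ _ h
    simp only [Prod.mk.injEq] at h
    obtain ⟨h1, h2⟩ := h
    have h3 : js = js' := by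
      funext i
      have := congrFun h1 i
      simp only [vv] at this
      omega
    subst h3 h2
    rfl

/-- second case -/
theorem Z4_case2 (b a k M N : ℕ) (hb : 2 ≤ b) (ha : 1 ≤ a) (E : Finset ℕ) (hE : ∀ e ∈ E, 1 ≤ e)
    (hs : ∀ e ∈ E, ∀ js ∈ JS k M, b ^ e + sj b a k js ≤ N) :
    ∑ e ∈ E, ∑ js ∈ JS k M, (reps b (N - b ^ e - sj b a k js)).card ≤ (reprs b (k + 1) N).card := by
  have e1 : ∀ e ∈ E, ∑ js ∈ JS k M, (reps b (N - b ^ e - sj b a k js)).card =
      ((JS k M).sigma fun js => reps b (N - b ^ e - sj b a k js)).card := fun e _ =>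
    (Finset.card_sigma _ _).symm
  rw [Finset.sum_congr rfl e1, ← Finset.card_sigma]
  refine Finset.card_le_card_of_injOn
    (fun x : (_ : ℕ) × ((_ : Fin k → ℕ) × ℕ) => ((Fin.cons x.1 (fun i => vv a (x.2.1 i)) : Fin (k + 1) → ℕ), x.2.2)) ?_ ?_
  · rintro ⟨e, js, p⟩ hx
    obtain ⟨h0, h1⟩ := mem_sigma.1 hx
    obtain ⟨h1, h2⟩ := mem_sigma.1 h1
    have e2 : ∑ i, b ^ (Fin.cons e (fun i => vv a (js i)) : Fin (k + 1) → ℕ) i = b ^ e + sj b a k js := by
      rw [Fin.sum_univ_succ]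
      rfl
    refine Z4_mem b (k + 1) N p hb _ ?_ ?_ ?_
    · intro i
      refine Fin.cases ?_ ?_ i
      · exact hE e h0
      · intro i
        show 1 ≤ vv a (js i)
        unfold vv
        omega
    · rw [e2]
      exact hs e h0 js h1
    · rw [e2, ← Nat.sub_sub]
      exact h2
  · rintro ⟨e, js, p⟩ _ ⟨e', js', p'⟩ _ h
    simp only [Prod.mk.injEq] at h
    obtain ⟨h1, h2⟩ := h
    rw [Fin.cons_inj] at h1
    obtain ⟨h0, h1⟩ := h1
    have h3 : js = js' := by
      funext i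
      have := congrFun h1 i
      simp only [vv] at this
      omega
    subst h3 h2 h0
    rfl

/-- the exponents of the second case -/
private theorem Z4_E (L B : ℕ) (hB : 8 ≤ B) (hL : 2 * B + 8 ≤ L) :
    ∃ E : Finset ℕ, (∀ e ∈ E, Even e ∧ L - L / B < e ∧ e ≤ L) ∧ (L : ℝ) / (8 * B) ≤ (E.card : ℝ) := by
  obtain ⟨a, ha⟩ : ∃ a, a = L / B := ⟨_, rfl⟩
  rw [← ha]
  have haL : a ≤ L := by rw [ha]; exact Nat.div_le_self _ _
  have ha2 : 2 ≤ a := by
    rw [ha]
    exact (Nat.le_div_iff_mul_le (by omega)).2 (by omega)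
  refine ⟨(Ioc ((L - a) / 2) (L / 2)).image (fun f => 2 * f), ?_, ?_⟩
  · intro e he
    obtain ⟨f, hf, rfl⟩ := mem_image.1 he
    rw [mem_Ioc] at hf
    exact ⟨even_two_mul f, by omega, by omega⟩
  · rw [card_image_of_injective _ (fun x y h => by simpa using h), Nat.card_Ioc]
    have h1 : (a : ℝ) ≤ 4 * ((L / 2 - (L - a) / 2 : ℕ) : ℝ) := by
      exact_mod_cast (by omega : a ≤ 4 * (L / 2 - (L - a) / 2))
    have hBr : (0 : ℝ) < B := by exact_mod_cast (by omega : 0 < B)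
    have h2 : (L : ℝ) ≤ 2 * B * a := by
      have h3 : L < B * (a + 1) := by
        rw [ha]
        exact Nat.lt_mul_div_succ L (by omega)
      have h4 : B * (a + 1) ≤ 2 * B * a := by nlinarith
      exact_mod_cast (by omega : L ≤ 2 * B * a)
    rw [div_le_iff₀ (by positivity)]
    nlinarith

theorem final (b : ℕ) (hb : 2 ≤ b) (hB : BStmt b) (hC : CStmt b) :
    ∃ K0 : ℕ, 2 ≤ K0 ∧ ∀ K : ℕ, K0 ≤ K → ∃ (N0 : ℕ) (c : ℝ), 0 < c ∧ ∀ N : ℕ, N0 ≤ N → Even (N + K * b) →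
      c * (N * Real.log N ^ (K - 2)) ≤ ((reprs b K N).card : ℝ) := by
  obtain ⟨B, K0, hB8, hcore⟩ := core b hb hB hC
  refine ⟨K0 + 3, by omega, fun K hK => ?_⟩
  obtain ⟨k, rfl⟩ : ∃ k : ℕ, K = k + 1 := ⟨K - 1, by omega⟩
  obtain ⟨c1, L1, hc1, h1⟩ := hcore (k + 1) (by omega)
  obtain ⟨c2, L2, hc2, h2⟩ := hcore k (by omega)
  have hb0 : (0 : ℝ) < b := by exact_mod_cast (by omega : 0 < b)
  have hb1 : (1 : ℝ) < b := by exact_mod_cast (by omega : 1 < b)
  have hlb : 0 < Real.log b := Real.log_pos hb1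
  have hBr : (0 : ℝ) < B := by exact_mod_cast (by omega : 0 < B)
  obtain ⟨c3, hc3⟩ : ∃ c3 : ℝ, c3 = min c1 (c2 / (8 * B * b * 2 ^ (k - 1))) := ⟨_, rfl⟩
  have hc3pos : 0 < c3 := by
    rw [hc3]
    exact lt_min hc1 (by positivity)
  obtain ⟨L0, hL0⟩ : ∃ L0 : ℕ, L0 = L1 + L2 + (k + 2) * B + 2 * B + 20 := ⟨_, rfl⟩
  refine ⟨b ^ (L0 + 2), c3 / (b ^ 2 * (3 * Real.log b) ^ (k - 1)), by positivity, ?_⟩
  intro N hN hNe
  -- the scale
  have hNpos : 0 < N := lt_of_lt_of_le (by positivity) hN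
  obtain ⟨L, hL1, hL2, hL3⟩ : ∃ L : ℕ, L0 ≤ L ∧ b ^ (L + 1) ≤ N ∧ N < b ^ (L + 2) := by
    have h3 : b ^ Nat.log b N ≤ N := Nat.pow_log_le_self b hNpos.ne'
    have h4 : N < b ^ (Nat.log b N + 1) := Nat.lt_pow_succ_log_self (by omega) N
    have h5 : L0 + 2 ≤ Nat.log b N := (Nat.le_log_iff_pow_le (by omega) hNpos.ne').2 hN
    refine ⟨Nat.log b N - 1, by omega, ?_, ?_⟩
    · have : Nat.log b N - 1 + 1 = Nat.log b N := by omega
      rw [this]
      exact h3
    · have : Nat.log b N - 1 + 2 = Nat.log b N + 1 := by omega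
      rw [this]
      exact h4
  have hLr : (20 : ℝ) ≤ L := by exact_mod_cast (by omega : 20 ≤ L)
  have hLpos : (0 : ℝ) < L := by linarith
  have hkB : (k + 2) * B ≤ L := by omega
  have haK : k + 2 ≤ L / B := (Nat.le_div_iff_mul_le (by omega)).2 hkB
  -- it is enough to have c3 b^L L^(k-1)
  have hsuff : c3 * ((b : ℝ) ^ L * (L : ℝ) ^ (k - 1)) ≤ ((reprs b (k + 1) N).card : ℝ) →
      c3 / (b ^ 2 * (3 * Real.log b) ^ (k - 1)) * (N * Real.log N ^ (k + 1 - 2)) ≤ ((reprs b (k + 1) N).card : ℝ) := by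
    intro h
    refine le_trans ?_ h
    have e1 : k + 1 - 2 = k - 1 := by omega
    rw [e1]
    have hNr : (N : ℝ) ≤ (b : ℝ) ^ 2 * (b : ℝ) ^ L := by
      rw [← pow_add]
      have : N ≤ b ^ (2 + L) := by rw [add_comm]; exact hL3.le
      exact_mod_cast this
    have hN1 : (1 : ℝ) ≤ N := by exact_mod_cast hNpos
    have hlogN : Real.log N ≤ 3 * Real.log b * L := by
      have h3 : Real.log N ≤ Real.log ((b : ℝ) ^ 2 * (b : ℝ) ^ L) := Real.log_le_log (by linarith) hNr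
      rw [← pow_add, Real.log_pow] at h3
      push_cast at h3
      nlinarith
    have hlogN0 : 0 ≤ Real.log N := Real.log_nonneg hN1
    have h4 : Real.log N ^ (k - 1) ≤ (3 * Real.log b * L) ^ (k - 1) := pow_le_pow_left₀ hlogN0 hlogN _
    calc c3 / (b ^ 2 * (3 * Real.log b) ^ (k - 1)) * (N * Real.log N ^ (k - 1))
        ≤ c3 / (b ^ 2 * (3 * Real.log b) ^ (k - 1)) * (((b : ℝ) ^ 2 * (b : ℝ) ^ L) * (3 * Real.log b * L) ^ (k - 1)) := by
          apply mul_le_mul_of_nonneg_left _ (by positivity)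
          exact mul_le_mul hNr h4 (by positivity) (by positivity)
      _ = c3 * ((b : ℝ) ^ L * (L : ℝ) ^ (k - 1)) := by
          rw [mul_pow (3 * Real.log b) (L : ℝ)]
          have h5 : (3 * Real.log b) ^ (k - 1) ≠ 0 := by positivity
          generalize (3 * Real.log b) ^ (k - 1) = T at h5 ⊢
          field_simp
  apply hsuff
  rcases Nat.lt_or_ge N (b ^ (L + 1) + (k + 1) * b ^ (L - 2 * (L / B))) with hcase | hcase
  · -- second case
    obtain ⟨L', hL'⟩ : ∃ L' : ℕ, L = L' + 1 := ⟨L - 1, by omega⟩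
    obtain ⟨a', ha'⟩ : ∃ a' : ℕ, a' = L' / B := ⟨_, rfl⟩
    have ha'K : k + 1 ≤ a' := by
      rw [ha']
      refine (Nat.le_div_iff_mul_le (by omega)).2 ?_
      have : (k + 2) * B = (k + 1) * B + B := by ring
      omega
    have ha'L : a' ≤ L / B := by
      rw [ha', hL']
      exact Nat.div_le_div_right (by omega)
    obtain ⟨E, hE1, hE2⟩ := Z4_E L' B hB8 (by omega)
    rw [← ha'] at hE1
    have ha'8 : 8 * a' ≤ L' := by
      rw [ha']
      calc 8 * (L' / B) ≤ B * (L' / B) := Nat.mul_le_mul_right _ hB8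
        _ ≤ L' := Nat.mul_div_le L' B
    have haB8 : 8 * (L / B) ≤ L := by
      calc 8 * (L / B) ≤ B * (L / B) := Nat.mul_le_mul_right _ hB8
        _ ≤ L := Nat.mul_div_le L B
    -- the sizes
    have hbk : ∀ n : ℕ, n < b ^ n := fun n => Nat.lt_pow_self (by omega)
    have key : ∀ e ∈ E, b ^ (L' + 1) + k * b ^ (L' - 2 * a') ≤ N - b ^ e ∧ N - b ^ e < b ^ (L' + 2) ∧
        Even (N - b ^ e + k * b) ∧ b ^ e ≤ N := by
      intro e he
      obtain ⟨hev, he1, he2⟩ := hE1 e he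
      have s1 : b ^ e ≤ b ^ L' := Nat.pow_le_pow_right (by omega) he2
      have s2 : b ^ (L' + 2) = b ^ L' * (b * b) := by ring
      have s3 : b ^ (L' + 1) = b ^ L' * b := by ring
      have s4 : k * b ^ (L' - 2 * a') ≤ b ^ L' := by
        have h5 : b ^ L' = b ^ (2 * a') * b ^ (L' - 2 * a') := by
          rw [← pow_add]; congr 1; omega
        rw [h5]
        apply Nat.mul_le_mul_right
        have h6 := hbk (2 * a')
        omega
      have s5 : b ^ (L' + 2) ≤ N := by rw [hL'] at hL2; exact hL2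
      have s6 : b ^ L' * b + 2 * b ^ L' ≤ b ^ L' * (b * b) := by
        have h7 : b + 2 ≤ b * b := by nlinarith
        calc b ^ L' * b + 2 * b ^ L' = b ^ L' * (b + 2) := by ring
          _ ≤ b ^ L' * (b * b) := Nat.mul_le_mul_left _ h7
      have s7 : b ^ e ≤ N := by
        have : b ^ L' ≤ b ^ (L' + 2) := Nat.pow_le_pow_right (by omega) (by omega)
        omega
      refine ⟨?_, ?_, ?_, s7⟩
      · rw [s3]
        rw [s2] at s5
        omega
      · have t1 : (k + 1) * b ^ (L - 2 * (L / B)) ≤ b ^ e := by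
          have h5 : b ^ (L - 2 * (L / B) + L / B) ≤ b ^ e := Nat.pow_le_pow_right (by omega) (by omega)
          rw [pow_add, mul_comm] at h5
          refine le_trans (Nat.mul_le_mul_right _ ?_) h5
          have h6 := hbk (L / B)
          omega
        have t2 : b ^ (L + 1) = b ^ (L' + 2) := by rw [hL']
        rw [t2] at hcase
        have t3 : 0 < b ^ (L' + 2) := by positivity
        omega
      · have he0 : e ≠ 0 := by omega
        rw [Nat.even_add, Nat.even_sub s7, Nat.even_pow, Nat.even_mul]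
        rw [Nat.even_add, Nat.even_mul, Nat.even_add_one] at hNe
        tauto
    have hs : ∀ e ∈ E, ∀ js ∈ JS k (MN L' B), b ^ e + sj b a' k js ≤ N := by
      intro e he js hjs
      obtain ⟨k1, _, _, k4⟩ := key e he
      have := sj_le b L' B k hb hB8 js hjs
      rw [← ha'] at this
      omega
    have h3 := Z4_case2 b a' k (MN L' B) N hb (by omega) E (fun e he => by
      have := (hE1 e he).2.1
      omega) hs
    have h4 : ∀ e ∈ E, c2 * ((b : ℝ) ^ L' * (L' : ℝ) ^ k / (L' : ℝ) ^ 2) ≤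
        ∑ js ∈ JS k (MN L' B), ((reps b (N - b ^ e - sj b a' k js)).card : ℝ) := by
      intro e he
      obtain ⟨k1, k2, k3, _⟩ := key e he
      have := h2 L' (by omega) (N - b ^ e) (by rw [← ha']; exact k1) k2 k3
      rw [← ha'] at this
      exact this
    have h5 := Finset.sum_le_sum h4
    rw [Finset.sum_const, nsmul_eq_mul] at h5
    have h6 : ∑ e ∈ E, ∑ js ∈ JS k (MN L' B), ((reps b (N - b ^ e - sj b a' k js)).card : ℝ) ≤
        ((reprs b (k + 1) N).card : ℝ) := by exact_mod_cast h3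
    refine le_trans ?_ (h5.trans h6)
    have hL'r : (19 : ℝ) ≤ L' := by exact_mod_cast (by omega : 19 ≤ L')
    have hL'pos : (0 : ℝ) < L' := by linarith
    have hLL' : (L : ℝ) = L' + 1 := by rw [hL']; push_cast; rfl
    have e1 : (L' : ℝ) ^ k / (L' : ℝ) ^ 2 = (L' : ℝ) ^ (k - 2) := by
      rw [div_eq_iff (by positivity), ← pow_add]
      congr 1
      omega
    have h7 : (L : ℝ) ^ (k - 1) ≤ 2 ^ (k - 1) * ((L' : ℝ) * (L' : ℝ) ^ (k - 2)) := by
      have e2 : (L' : ℝ) * (L' : ℝ) ^ (k - 2) = (L' : ℝ) ^ (k - 1) := by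
        rw [← pow_succ']
        congr 1
        omega
      rw [e2, ← mul_pow]
      exact pow_le_pow_left₀ (by positivity) (by linarith) _
    calc c3 * ((b : ℝ) ^ L * (L : ℝ) ^ (k - 1))
        ≤ c2 / (8 * B * b * 2 ^ (k - 1)) * ((b : ℝ) ^ L * (2 ^ (k - 1) * ((L' : ℝ) * (L' : ℝ) ^ (k - 2)))) := by
          apply mul_le_mul (by rw [hc3]; exact min_le_right _ _) _ (by positivity) (by positivity)
          exact mul_le_mul_of_nonneg_left h7 (by positivity)
      _ = (L' : ℝ) / (8 * B) * (c2 * ((b : ℝ) ^ L' * (L' : ℝ) ^ (k - 2))) := by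
          rw [hL', pow_succ]
          have h8 : (2 : ℝ) ^ (k - 1) ≠ 0 := by positivity
          generalize (2 : ℝ) ^ (k - 1) = T at h8 ⊢
          field_simp
      _ ≤ (E.card : ℝ) * (c2 * ((b : ℝ) ^ L' * (L' : ℝ) ^ (k - 2))) :=
          mul_le_mul_of_nonneg_right hE2 (by positivity)
      _ = (E.card : ℝ) * (c2 * ((b : ℝ) ^ L' * (L' : ℝ) ^ k / (L' : ℝ) ^ 2)) := by
          rw [mul_div_assoc, e1]
  · -- first case
    have h3 := h1 L (by omega) N hcase hL3 hNe
    have hs : ∀ js ∈ JS (k + 1) (MN L B), sj b (L / B) (k + 1) js ≤ N := by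
      intro js hjs
      have := sj_le b L B (k + 1) hb hB8 js hjs
      omega
    have h4 := Z4_case1 b (L / B) (k + 1) (MN L B) N hb (by omega) hs
    have h5 : ∑ js ∈ JS (k + 1) (MN L B), ((reps b (N - sj b (L / B) (k + 1) js)).card : ℝ) ≤
        ((reprs b (k + 1) N).card : ℝ) := by exact_mod_cast h4
    refine le_trans ?_ (h3.trans h5)
    have e1 : (L : ℝ) ^ (k + 1) / (L : ℝ) ^ 2 = (L : ℝ) ^ (k - 1) := by
      rw [div_eq_iff (by positivity), ← pow_add]
      congr 1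
      omega
    rw [mul_div_assoc, e1]
    exact mul_le_mul_of_nonneg_right (by rw [hc3]; exact min_le_left _ _) (by positivity)

end GL89
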